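import Pool.Agent.H97.SS.Words

/-!
Factorisations of words into blocks.
-/

namespace Pool.Agent.H97.SS

open Finset

/-- Sum over all ways to cut a word in two. -/
def conv (φ ψ : List ℕ → ℝ) : List ℕ → ℝ
  | [] => φ [] * ψ []
  | a :: w => φ [] * ψ (a :: w) + conv (fun x => φ (a :: x)) ψ w

theorem conv_eq_sum (φ ψ : List ℕ → ℝ) (w : List ℕ) :
    conv φ ψ w = ∑ i ∈ range (w.length + 1), φ (w.take i) * ψ (w.drop i) := by
  induction w generalizing φ with
  | nil => simp [conv]
  | cons a w ih =>
    rw [conv, ih, List.length_cons, Finset.sum_range_succ' _ (w.length + 1)]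
    simp only [List.take_succ_cons, List.drop_succ_cons, List.take_zero, List.drop_zero]
    ring

theorem conv_add_left (φ φ' ψ : List ℕ → ℝ) (w : List ℕ) :
    conv (fun x => φ x + φ' x) ψ w = conv φ ψ w + conv φ' ψ w := by
  rw [conv_eq_sum, conv_eq_sum, conv_eq_sum, ← Finset.sum_add_distrib]
  exact Finset.sum_congr rfl (fun i _ => by ring)

theorem conv_smul_left (c : ℝ) (φ ψ : List ℕ → ℝ) (w : List ℕ) :
    conv (fun x => c * φ x) ψ w = c * conv φ ψ w := by
  rw [conv_eq_sum, conv_eq_sum, Finset.mul_sum]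
  exact Finset.sum_congr rfl (fun i _ => by ring)

theorem conv_add_right (φ ψ ψ' : List ℕ → ℝ) (w : List ℕ) :
    conv φ (fun x => ψ x + ψ' x) w = conv φ ψ w + conv φ ψ' w := by
  rw [conv_eq_sum, conv_eq_sum, conv_eq_sum, ← Finset.sum_add_distrib]
  exact Finset.sum_congr rfl (fun i _ => by ring)

theorem conv_smul_right (c : ℝ) (φ ψ : List ℕ → ℝ) (w : List ℕ) :
    conv φ (fun x => c * ψ x) w = c * conv φ ψ w := by
  rw [conv_eq_sum, conv_eq_sum, Finset.mul_sum]
  exact Finset.sum_congr rfl (fun i _ => by ring)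

theorem conv_sum_right {ι : Type} (s : Finset ι) (φ : List ℕ → ℝ) (ψ : ι → List ℕ → ℝ)
    (w : List ℕ) :
    conv φ (fun x => ∑ i ∈ s, ψ i x) w = ∑ i ∈ s, conv φ (ψ i) w := by
  simp only [conv_eq_sum]
  rw [Finset.sum_comm]
  exact Finset.sum_congr rfl (fun i _ => by rw [Finset.mul_sum])

theorem conv_congr {φ φ' ψ ψ' : List ℕ → ℝ} {w : List ℕ}
    (hφ : ∀ i, φ (w.take i) = φ' (w.take i)) (hψ : ∀ i, ψ (w.drop i) = ψ' (w.drop i)) :
    conv φ ψ w = conv φ' ψ' w := by
  rw [conv_eq_sum, conv_eq_sum]
  exact Finset.sum_congr rfl (fun i _ => by rw [hφ, hψ])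

theorem conv_assoc (φ ψ χ : List ℕ → ℝ) (w : List ℕ) :
    conv (conv φ ψ) χ w = conv φ (conv ψ χ) w := by
  induction w generalizing φ with
  | nil => simp [conv]; ring
  | cons a w ih =>
    have h1 : (fun x => conv φ ψ (a :: x)) =
        fun x => φ [] * ψ (a :: x) + conv (fun x => φ (a :: x)) ψ x := by
      funext x; rw [conv]
    rw [conv, h1, conv_add_left, ih, conv_smul_left, conv, conv, conv]
    ring

/-- Cutting a word `L n R`. -/
theorem conv_middle (φ ψ : List ℕ → ℝ) (L R : List ℕ) (n : ℕ) :
    conv φ ψ (L ++ n :: R) =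
      conv φ (fun y => ψ (y ++ n :: R)) L + conv (fun x => φ (L ++ n :: x)) ψ R := by
  induction L generalizing φ with
  | nil =>
    rw [List.nil_append, conv, conv]
    simp only [List.nil_append]
  | cons a L ih =>
    rw [List.cons_append, conv, ih, conv]
    simp only [List.cons_append]
    ring

/-- The indicator of the empty word. -/
def emp (w : List ℕ) : ℝ := if w = [] then 1 else 0

theorem conv_emp_left (ψ : List ℕ → ℝ) (w : List ℕ) : conv emp ψ w = ψ w := by
  cases w with
  | nil => simp [conv, emp]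
  | cons a w =>
    have : (fun x => emp (a :: x)) = fun x => (0 : ℝ) * emp x := by
      funext x; simp [emp]
    rw [conv, this, conv_smul_left]
    simp [emp]

/-- The number of preimages of a nonempty word. -/
noncomputable def fne (w : List ℕ) : ℝ := if w = [] then 0 else (fib w : ℝ)

theorem fib_eq (w : List ℕ) : (fib w : ℝ) = emp w + fne w := by
  unfold emp fne
  split_ifs with h
  · subst h; rw [fib_nil]; simp
  · simp

/-- Sum over the factorisations of a word into `p` nonempty blocks of the products of the numbers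
of preimages. -/
noncomputable def Fac : ℕ → List ℕ → ℝ
  | 0 => emp
  | p + 1 => conv fne (Fac p)

theorem Fac_nonneg (p : ℕ) (w : List ℕ) : 0 ≤ Fac p w := by
  induction p generalizing w with
  | zero => unfold Fac emp; split_ifs <;> norm_num
  | succ p ih =>
    rw [Fac, conv_eq_sum]
    refine Finset.sum_nonneg (fun i _ => mul_nonneg ?_ (ih _))
    unfold fne; split_ifs
    · exact le_rfl
    · positivity

theorem Fac_zero_nil : Fac 0 [] = 1 := by simp [Fac, emp]

theorem Fac_zero_of_ne {w : List ℕ} (hw : w ≠ []) : Fac 0 w = 0 := by simp [Fac, emp, hw]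

theorem Fac_succ_nil (p : ℕ) : Fac (p + 1) [] = 0 := by simp [Fac, conv, fne]

theorem Fac_one (w : List ℕ) : Fac 1 w = fne w := by
  have h : ∀ ψ : List ℕ → ℝ, conv ψ emp w = ψ w := by
    intro ψ
    induction w generalizing ψ with
    | nil => simp [conv, emp]
    | cons a w ih => rw [conv, ih]; simp [emp]
  rw [Fac, Fac, h]

theorem conv_Fac (c k : ℕ) (w : List ℕ) : conv (Fac c) (Fac k) w = Fac (c + k) w := by
  induction c generalizing w with
  | zero => rw [Nat.zero_add]; exact conv_emp_left _ _
  | succ c ih =>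
    have h1 : c + 1 + k = (c + k) + 1 := by omega
    rw [h1, Fac, Fac, conv_assoc]
    have h2 : conv (Fac c) (Fac k) = Fac (c + k) := by funext x; exact ih x
    rw [h2]

/-- `F_{j-1} + 2 F_j + F_{j+1}` (used for `j ≥ 1`). -/
noncomputable def tF (j : ℕ) (w : List ℕ) : ℝ := Fac (j - 1) w + 2 * Fac j w + Fac (j + 1) w

theorem fib_append_max' {w : List ℕ} {m : ℕ} (hw : ∀ x ∈ w, x < m) :
    (fib (w ++ [m]) : ℝ) = tF 1 w := by
  have h0 : (fib (w ++ [m]) : ℝ) = conv (fun x => (fib x : ℝ)) (fun x => (fib x : ℝ)) w := by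
    rw [fib_append_max hw, conv_eq_sum]
    push_cast
    rfl
  have h1 : (fun x => (fib x : ℝ)) = fun x => emp x + fne x := by
    funext x; exact fib_eq x
  rw [h0, h1, conv_add_left, conv_emp_left, conv_add_right]
  have h2 : conv fne emp w = Fac 1 w := rfl
  have h3 : conv fne fne w = Fac 2 w := by
    have : Fac 1 = fne := by funext x; exact Fac_one x
    rw [Fac, this]
  rw [h2, h3, ← Fac_one w]
  unfold tF
  simp only [Nat.sub_self]
  rw [show Fac 0 w = emp w from rfl]
  ring

theorem conv_fne_tF (j : ℕ) (hj : 1 ≤ j) (w : List ℕ) : conv fne (tF j) w = tF (j + 1) w := by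
  have h1 : tF j = fun x => (Fac (j - 1) x + 2 * Fac j x) + Fac (j + 1) x := rfl
  rw [h1, conv_add_right, conv_add_right, conv_smul_right]
  unfold tF
  have h2 : ∀ k, conv fne (Fac k) w = Fac (k + 1) w := fun k => rfl
  rw [h2, h2, h2]
  have h3 : j - 1 + 1 = j := by omega
  have h4 : j + 1 - 1 = j := by omega
  rw [h3, h4]

/-- Main recursion: the largest letter in the middle. -/
theorem Fac_split {n : ℕ} (p : ℕ) : ∀ (L R : List ℕ), (∀ x ∈ L, x < n) → (∀ x ∈ R, x < n) →
    Fac p (L ++ n :: R) = ∑ j ∈ range p, tF (j + 1) L * Fac (p - 1 - j) R := by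
  induction p with
  | zero =>
    intro L R _ _
    rw [Fac_zero_of_ne (by simp)]
    simp
  | succ p ih =>
    intro L R hL hR
    rw [Fac, conv_middle]
    have h1 : conv (fun x => fne (L ++ n :: x)) (Fac p) R = tF 1 L * Fac p R := by
      have h2 : ∀ x : List ℕ, (∀ y ∈ x, y < n) → fne (L ++ n :: x) = tF 1 L * emp x := by
        intro x hx
        have hne : L ++ n :: x ≠ [] := by simp
        unfold fne
        rw [if_neg hne]
        by_cases h : x = []
        · subst h
          rw [fib_append_max' hL]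
          simp [emp]
        · rw [fib_eq_zero hL hx h]
          simp [emp, h]
      have h3 : conv (fun x => fne (L ++ n :: x)) (Fac p) R =
          conv (fun x => tF 1 L * emp x) (Fac p) R := by
        apply conv_congr
        · intro i
          exact h2 _ (fun y hy => hR y (List.mem_of_mem_take hy))
        · intro i; rfl
      rw [h3, conv_smul_left, conv_emp_left]
    have h4 : conv fne (fun y => Fac p (y ++ n :: R)) L =
        conv fne (fun y => ∑ j ∈ range p, Fac (p - 1 - j) R * tF (j + 1) y) L := by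
      apply conv_congr
      · intro i; rfl
      · intro i
        rw [ih _ _ (fun y hy => hL y (List.mem_of_mem_drop hy)) hR]
        exact Finset.sum_congr rfl (fun j _ => mul_comm _ _)
    rw [h1, h4, conv_sum_right, Finset.sum_range_succ']
    congr 1
    refine Finset.sum_congr rfl (fun j hj => ?_)
    rw [conv_smul_right, conv_fne_tF _ (by omega)]
    have h5 : p + 1 - 1 - (j + 1) = p - 1 - j := by omega
    rw [h5]
    ring

end Pool.Agent.H97.SS
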