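import Mathlib

/-!
Stack-sorting map and its degree of noninvertibility: definitions.
-/

namespace Pool.Agent.H97.SS

/-- The largest entry of a word (`0` for the empty word). -/
def maxEntry (w : List ℕ) : ℕ := w.foldr max 0

theorem le_maxEntry {w : List ℕ} {x : ℕ} (hx : x ∈ w) : x ≤ maxEntry w := by
  induction w with
  | nil => simp at hx
  | cons a w ih =>
    simp only [maxEntry, List.foldr_cons] at ih ⊢
    rcases List.mem_cons.1 hx with h | h
    · exact h ▸ le_max_left _ _
    · exact le_trans (ih h) (le_max_right _ _)

theorem maxEntry_mem {w : List ℕ} (hw : w ≠ []) : maxEntry w ∈ w := by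
  induction w with
  | nil => exact absurd rfl hw
  | cons a w ih =>
    by_cases h : w = []
    · subst h; simp [maxEntry]
    · have h1 := ih h
      simp only [maxEntry, List.foldr_cons] at h1 ⊢
      rcases max_choice a (w.foldr max 0) with h2 | h2
      · rw [h2]; exact List.mem_cons_self
      · rw [h2]; exact List.mem_cons_of_mem _ h1

theorem takeWhile_length_lt {w : List ℕ} {m : ℕ} (hm : m ∈ w) :
    (w.takeWhile (fun x => decide (x ≠ m))).length < w.length := by
  induction w with
  | nil => simp at hm
  | cons a w ih =>
    by_cases h : a = m
    · subst h; simp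
    · have h2 : m ∈ w := by
        rcases List.mem_cons.1 hm with h3 | h3
        · exact absurd h3.symm h
        · exact h3
      have h4 : decide (a ≠ m) = true := by simp [h]
      rw [List.takeWhile_cons, if_pos h4]
      simpa using ih h2

theorem dropWhile_tail_length_lt {w : List ℕ} {m : ℕ} (hw : w ≠ []) :
    ((w.dropWhile (fun x => decide (x ≠ m))).tail).length < w.length := by
  have h1 : (w.dropWhile (fun x => decide (x ≠ m))).length ≤ w.length :=
    (List.dropWhile_suffix _).length_le
  have h2 : 0 < w.length := List.length_pos_iff.2 hw
  rw [List.length_tail]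
  omega

/-- The stack-sorting map: it sends the empty word to itself, and `L m R`, with `m` the largest
entry, to `s(L) s(R) m`.  (`L` is the part of the word before the first occurrence of the
largest entry and `R` the part after it.) -/
def stackSort : List ℕ → List ℕ
  | [] => []
  | a :: w =>
    stackSort ((a :: w).takeWhile (fun x => decide (x ≠ maxEntry (a :: w)))) ++
      stackSort (((a :: w).dropWhile (fun x => decide (x ≠ maxEntry (a :: w)))).tail) ++
        [maxEntry (a :: w)]
termination_by w => w.length
decreasing_by
  · exact takeWhile_length_lt (maxEntry_mem (by simp))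
  · exact dropWhile_tail_length_lt (by simp)

/-- The permutations of `1, …, n`, as words. -/
def perms (n : ℕ) : Finset (List ℕ) := (List.range' 1 n).permutations.toFinset

/-- The degree of noninvertibility of `stackSort` on `perms n`: the mean squared fibre size. -/
noncomputable def deg (n : ℕ) : ℝ :=
  (∑ π ∈ perms n, (((perms n).filter (fun σ => stackSort σ = π)).card : ℝ) ^ 2) /
    (n.factorial : ℝ)

end Pool.Agent.H97.SS
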