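import Mathlib

/-!
Digits in base `2 ^ w` and packed arithmetic.
-/

namespace Pool.Agent.H97.SS

open Polynomial

/-- The `i`-th digit of `N` in base `2 ^ w`. -/
def dg (w N i : ℕ) : ℕ := N / 2 ^ (w * i) % 2 ^ w

theorem dg_lt (w N i : ℕ) : dg w N i < 2 ^ w := Nat.mod_lt _ (by positivity)

theorem dg_zero (w N : ℕ) : dg w N 0 = N % 2 ^ w := by simp [dg]

theorem dg_succ (w N i : ℕ) : dg w N (i + 1) = dg w (N / 2 ^ w) i := by
  unfold dg
  rw [Nat.div_div_eq_div_mul, ← pow_add]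
  have : w * (i + 1) = w + w * i := by ring
  rw [this]

theorem dg_of_zero (w i : ℕ) : dg w 0 i = 0 := by simp [dg]

theorem testBit_dg (w N i j : ℕ) :
    (dg w N i).testBit j = (decide (j < w) && N.testBit (w * i + j)) := by
  unfold dg
  rw [Nat.testBit_mod_two_pow, Nat.testBit_div_two_pow]
  rw [add_comm]

theorem dg_add {w a b : ℕ} (h : ∀ i, dg w a i + dg w b i < 2 ^ w) (i : ℕ) :
    dg w (a + b) i = dg w a i + dg w b i := by
  induction i generalizing a b with
  | zero =>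
    have h0 := h 0
    rw [dg_zero, dg_zero] at h0
    rw [dg_zero, dg_zero, dg_zero, Nat.add_mod, Nat.mod_eq_of_lt h0]
  | succ i ih =>
    have h0 := h 0
    rw [dg_zero, dg_zero] at h0
    rw [dg_succ, dg_succ, dg_succ, Nat.add_div (by positivity), if_neg (by omega), add_zero]
    refine ih (fun j => ?_)
    have := h (j + 1)
    rwa [dg_succ, dg_succ] at this

theorem dg_smul {w n a : ℕ} (h : ∀ i, n * dg w a i < 2 ^ w) (i : ℕ) :
    dg w (n * a) i = n * dg w a i := by
  induction i generalizing a with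
  | zero =>
    have h0 := h 0
    rw [dg_zero] at h0
    rw [dg_zero, dg_zero]
    conv_lhs => rw [← Nat.div_add_mod a (2 ^ w), mul_add]
    rw [show n * (2 ^ w * (a / 2 ^ w)) = 2 ^ w * (n * (a / 2 ^ w)) by ring,
      Nat.mul_add_mod, Nat.mod_eq_of_lt h0]
  | succ i ih =>
    have h0 := h 0
    rw [dg_zero] at h0
    rw [dg_succ, dg_succ]
    have e : n * a / 2 ^ w = n * (a / 2 ^ w) := by
      conv_lhs => rw [← Nat.div_add_mod a (2 ^ w), mul_add]
      rw [show n * (2 ^ w * (a / 2 ^ w)) = 2 ^ w * (n * (a / 2 ^ w)) by ring,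
        Nat.mul_add_div (by positivity), Nat.div_eq_of_lt h0, add_zero]
    rw [e]
    refine ih (fun j => ?_)
    have := h (j + 1)
    rwa [dg_succ] at this

theorem dg_land (w a b i : ℕ) : dg w (a &&& b) i = dg w a i &&& dg w b i := by
  apply Nat.eq_of_testBit_eq
  intro j
  rw [testBit_dg, Nat.testBit_land, Nat.testBit_land, testBit_dg, testBit_dg]
  cases decide (j < w) <;> simp

theorem dg_shift_land {w s a m i : ℕ} (hm : dg w m i < 2 ^ (w - s)) :
    dg w ((a >>> s) &&& m) i = (dg w a i / 2 ^ s) &&& dg w m i := by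
  rw [dg_land]
  apply Nat.eq_of_testBit_eq
  intro j
  rw [Nat.testBit_land, Nat.testBit_land, testBit_dg, Nat.testBit_shiftRight,
    Nat.testBit_div_two_pow]
  by_cases hj : j + s < w
  · rw [testBit_dg, testBit_dg]
    have h1 : j < w := by omega
    have e : s + (w * i + j) = w * i + (j + s) := by ring
    rw [e]
    simp [hj, h1]
  · have h2 : (dg w m i).testBit j = false := by
      apply Nat.testBit_lt_two_pow
      exact hm.trans_le (Nat.pow_le_pow_right (by norm_num) (by omega))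
    rw [h2]; simp

theorem dg_shiftRight (w N k i : ℕ) : dg w (N >>> (w * k)) i = dg w N (i + k) := by
  apply Nat.eq_of_testBit_eq
  intro j
  rw [testBit_dg, testBit_dg, Nat.testBit_shiftRight]
  have e : w * k + (w * i + j) = w * (i + k) + j := by ring
  rw [e]

theorem dg_shiftLeft (w N k i : ℕ) : dg w (N * 2 ^ (w * k)) i = if k ≤ i then dg w N (i - k) else 0 := by
  split_ifs with h
  · obtain ⟨j, rfl⟩ := Nat.exists_eq_add_of_le' h
    rw [Nat.add_sub_cancel, ← dg_shiftRight, Nat.shiftRight_eq_div_pow,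
      Nat.mul_div_cancel _ (by positivity)]
  · unfold dg
    obtain ⟨j, rfl⟩ : ∃ j, k = i + 1 + j := ⟨k - (i + 1), by omega⟩
    have e : N * 2 ^ (w * (i + 1 + j)) = (N * 2 ^ (w * j) * 2 ^ w) * 2 ^ (w * i) := by
      rw [mul_assoc, mul_assoc, ← pow_add, ← pow_add]
      congr 2; ring
    rw [e, Nat.mul_div_cancel _ (by positivity), Nat.mul_mod_left]

theorem dg_nest {w W0 N p q : ℕ} (hq : q < W0) :
    dg w (dg (w * W0) N p) q = dg w N (W0 * p + q) := by
  apply Nat.eq_of_testBit_eq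
  intro j
  rw [testBit_dg, testBit_dg, testBit_dg]
  by_cases hj : j < w
  · have h1 : w * q + j < w * W0 := by
      calc w * q + j < w * q + w := by omega
        _ = w * (q + 1) := by ring
        _ ≤ w * W0 := Nat.mul_le_mul_left _ hq
    have e : w * W0 * p + (w * q + j) = w * (W0 * p + q) + j := by ring
    simp [hj, h1, e]
  · simp [hj]

theorem sum_dg (w N K : ℕ) :
    ∑ i ∈ Finset.range K, dg w N i * 2 ^ (w * i) = N % 2 ^ (w * K) := by
  induction K with
  | zero => simp [Nat.mod_one]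
  | succ K ih =>
    rw [Finset.sum_range_succ, ih]
    unfold dg
    have e : w * (K + 1) = w * K + w := by ring
    rw [e, pow_add, Nat.mod_mul]
    ring

theorem eq_of_dg {w a b : ℕ} (hw : 0 < w) (h : ∀ i, dg w a i = dg w b i) : a = b := by
  obtain ⟨K, hK⟩ : ∃ K, a < 2 ^ (w * K) ∧ b < 2 ^ (w * K) := by
    refine ⟨a + b, ?_, ?_⟩
    · calc a < 2 ^ a := Nat.lt_two_pow_self
        _ ≤ 2 ^ (w * (a + b)) := Nat.pow_le_pow_right (by norm_num) (by nlinarith)
    · calc b < 2 ^ b := Nat.lt_two_pow_self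
        _ ≤ 2 ^ (w * (a + b)) := Nat.pow_le_pow_right (by norm_num) (by nlinarith)
  rw [← Nat.mod_eq_of_lt hK.1, ← Nat.mod_eq_of_lt hK.2, ← sum_dg, ← sum_dg]
  exact Finset.sum_congr rfl (fun i _ => by rw [h])

/-! ### Evaluating polynomials at powers of two -/

theorem eval_divX (P : ℕ[X]) (x : ℕ) : P.eval x = x * (divX P).eval x + P.coeff 0 := by
  conv_lhs => rw [← divX_mul_X_add P]
  rw [eval_add, eval_mul, eval_X, eval_C, mul_comm]

theorem dg_eval {w : ℕ} {P : ℕ[X]} (h : ∀ i, P.coeff i < 2 ^ w) (i : ℕ) :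
    dg w (P.eval (2 ^ w)) i = P.coeff i := by
  induction i generalizing P with
  | zero =>
    rw [dg_zero, eval_divX, Nat.mul_add_mod, Nat.mod_eq_of_lt (h 0)]
  | succ i ih =>
    rw [dg_succ, eval_divX, Nat.mul_add_div (by positivity), Nat.div_eq_of_lt (h 0), add_zero,
      ih (fun j => by rw [coeff_divX]; exact h _), coeff_divX]

theorem eval_lt {w : ℕ} {P : ℕ[X]} (h : ∀ i, P.coeff i < 2 ^ w) (K : ℕ)
    (hK : ∀ i, K ≤ i → P.coeff i = 0) : P.eval (2 ^ w) < 2 ^ (w * K) := by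
  induction K generalizing P with
  | zero =>
    have : P = 0 := by
      ext i; rw [hK i (Nat.zero_le _)]; simp
    simp [this]
  | succ K ih =>
    rw [eval_divX]
    have h1 := ih (P := divX P) (fun j => by rw [coeff_divX]; exact h _)
      (fun j hj => by rw [coeff_divX]; exact hK _ (by omega))
    have h2 := h 0
    have e : w * (K + 1) = w + w * K := by ring
    rw [e, pow_add]
    calc 2 ^ w * eval (2 ^ w) P.divX + P.coeff 0 < 2 ^ w * eval (2 ^ w) P.divX + 2 ^ w := by omega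
      _ = 2 ^ w * (eval (2 ^ w) P.divX + 1) := by ring
      _ ≤ 2 ^ w * 2 ^ (w * K) := Nat.mul_le_mul_left _ h1

/-! ### Bivariate polynomials -/

/-- The coefficient of `y ^ p x ^ q`. -/
noncomputable def pcf (P : ℕ[X][X]) (p q : ℕ) : ℕ := (P.coeff p).coeff q

/-- Evaluation at `x = 2 ^ w`, `y = 2 ^ (w * W0)`. -/
noncomputable def ev (w W0 : ℕ) : ℕ[X][X] →+* ℕ :=
  (evalRingHom (2 ^ (w * W0))).comp (mapRingHom (evalRingHom (2 ^ w)))

/-- Evaluation at `x = y = 1`. -/
noncomputable def ev1 : ℕ[X][X] →+* ℕ :=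
  (evalRingHom 1).comp (mapRingHom (evalRingHom 1))

theorem dg_ev {w W0 : ℕ} {P : ℕ[X][X]} (hd : ∀ p q, W0 ≤ q → pcf P p q = 0)
    (hc : ∀ p q, pcf P p q < 2 ^ w) {p q : ℕ} (hq : q < W0) :
    dg w (ev w W0 P) (W0 * p + q) = pcf P p q := by
  rw [← dg_nest hq]
  have h1 : dg (w * W0) (ev w W0 P) p = (P.coeff p).eval (2 ^ w) := by
    unfold ev
    rw [RingHom.comp_apply, coe_evalRingHom, coe_mapRingHom, dg_eval]
    · rw [coeff_map, coe_evalRingHom]
    · intro i
      rw [coeff_map, coe_evalRingHom]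
      exact eval_lt (fun j => hc i j) W0 (fun j hj => hd i j hj)
  rw [h1, dg_eval (fun j => hc p j)]
  rfl

theorem coeff_le_eval_one (P : ℕ[X]) (i : ℕ) : P.coeff i ≤ P.eval 1 := by
  rw [eval_eq_sum_range' (n := P.natDegree + 1 + i) (by omega)]
  simp only [one_pow, mul_one]
  exact Finset.single_le_sum (f := fun i => P.coeff i) (fun _ _ => Nat.zero_le _)
    (Finset.mem_range.2 (by omega))

theorem pcf_le_ev1 (P : ℕ[X][X]) (p q : ℕ) : pcf P p q ≤ ev1 P := by
  unfold ev1 pcf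
  rw [RingHom.comp_apply, coe_evalRingHom, coe_mapRingHom]
  refine (coeff_le_eval_one (P.coeff p) q).trans ?_
  have := coeff_le_eval_one (P.map (evalRingHom 1)) p
  rwa [coeff_map, coe_evalRingHom] at this

/-- A monomial. -/
noncomputable def mo (p q a : ℕ) : ℕ[X][X] := monomial p (monomial q a)

theorem ev_mo (w W0 p q a : ℕ) : ev w W0 (mo p q a) = a * 2 ^ (w * (W0 * p + q)) := by
  unfold ev mo
  rw [RingHom.comp_apply, coe_evalRingHom, coe_mapRingHom, map_monomial, eval_monomial,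
    coe_evalRingHom, eval_monomial, ← pow_mul, ← pow_mul, mul_assoc, ← pow_add]
  congr 2; ring

theorem ev1_mo (p q a : ℕ) : ev1 (mo p q a) = a := by
  unfold ev1 mo
  rw [RingHom.comp_apply, coe_evalRingHom, coe_mapRingHom, map_monomial, eval_monomial,
    coe_evalRingHom, eval_monomial]
  simp

theorem pcf_mo (p q a i j : ℕ) : pcf (mo p q a) i j = if p = i ∧ q = j then a else 0 := by
  unfold pcf mo
  rw [coeff_monomial]
  by_cases h : p = i
  · subst h
    simp [coeff_monomial]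
  · simp [h]

theorem pcf_add (P Q : ℕ[X][X]) (p q : ℕ) : pcf (P + Q) p q = pcf P p q + pcf Q p q := by
  simp [pcf]

theorem pcf_sum {ι : Type} (s : Finset ι) (f : ι → ℕ[X][X]) (p q : ℕ) :
    pcf (∑ i ∈ s, f i) p q = ∑ i ∈ s, pcf (f i) p q := by
  simp [pcf]

theorem pcf_mul (P Q : ℕ[X][X]) (p q : ℕ) :
    pcf (P * Q) p q = ∑ a ∈ Finset.HasAntidiagonal.antidiagonal p, ∑ b ∈ Finset.HasAntidiagonal.antidiagonal q,
      pcf P a.1 b.1 * pcf Q a.2 b.2 := by
  unfold pcf
  rw [coeff_mul, finsetSum_coeff]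
  refine Finset.sum_congr rfl (fun a _ => ?_)
  rw [coeff_mul]

theorem pcf_mo_mul (a i j : ℕ) (P : ℕ[X][X]) (p q : ℕ) :
    pcf (mo i j a * P) p q = if i ≤ p ∧ j ≤ q then a * pcf P (p - i) (q - j) else 0 := by
  unfold pcf mo
  rw [← C_mul_X_pow_eq_monomial, mul_assoc, coeff_C_mul, coeff_X_pow_mul']
  by_cases h1 : i ≤ p
  · rw [if_pos h1, ← C_mul_X_pow_eq_monomial, mul_assoc, coeff_C_mul, coeff_X_pow_mul']
    by_cases h2 : j ≤ q
    · rw [if_pos h2, if_pos ⟨h1, h2⟩]
    · rw [if_neg h2, if_neg (by tauto)]; simp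
  · rw [if_neg h1, if_neg (by tauto)]; simp

/-- The polynomial of a packed number. -/
noncomputable def toP (w W0 P0 N : ℕ) : ℕ[X][X] :=
  ∑ p ∈ Finset.range P0, ∑ q ∈ Finset.range W0, mo p q (dg w N (W0 * p + q))

theorem pcf_toP (w W0 P0 N p q : ℕ) :
    pcf (toP w W0 P0 N) p q = if p < P0 ∧ q < W0 then dg w N (W0 * p + q) else 0 := by
  unfold toP
  rw [pcf_sum]
  simp only [pcf_sum, pcf_mo]
  by_cases h : p < P0
  · rw [Finset.sum_eq_single p]
    · by_cases h2 : q < W0
      · rw [Finset.sum_eq_single q, if_pos ⟨rfl, rfl⟩, if_pos ⟨h, h2⟩]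
        · intro j _ hj; rw [if_neg (by tauto)]
        · intro hj; exact absurd (Finset.mem_range.2 h2) hj
      · rw [if_neg (by tauto)]
        refine Finset.sum_eq_zero (fun j hj => ?_)
        rw [if_neg]; rintro ⟨-, rfl⟩; exact h2 (Finset.mem_range.1 hj)
    · intro j _ hj
      exact Finset.sum_eq_zero (fun j hj => by rw [if_neg (by tauto)])
    · intro hj; exact absurd (Finset.mem_range.2 h) hj
  · rw [if_neg (by tauto)]
    refine Finset.sum_eq_zero (fun i hi => Finset.sum_eq_zero (fun j _ => ?_))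
    rw [if_neg]; rintro ⟨rfl, -⟩; exact h (Finset.mem_range.1 hi)

theorem ev_toP {w W0 P0 N : ℕ} (hN : N < 2 ^ (w * W0 * P0)) : ev w W0 (toP w W0 P0 N) = N := by
  unfold toP
  rw [map_sum]
  have e : ∀ p ∈ Finset.range P0, ev w W0 (∑ q ∈ Finset.range W0, mo p q (dg w N (W0 * p + q))) =
      dg (w * W0) N p * 2 ^ (w * W0 * p) := by
    intro p _
    rw [map_sum]
    have h1 : ∀ q ∈ Finset.range W0, ev w W0 (mo p q (dg w N (W0 * p + q))) =
        (dg w (dg (w * W0) N p) q * 2 ^ (w * q)) * 2 ^ (w * W0 * p) := by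
      intro q hq
      rw [ev_mo, dg_nest (Finset.mem_range.1 hq), mul_assoc, ← pow_add]
      congr 2; ring
    rw [Finset.sum_congr rfl h1, ← Finset.sum_mul, sum_dg, Nat.mod_eq_of_lt (dg_lt _ _ _)]
  rw [Finset.sum_congr rfl e, sum_dg, Nat.mod_eq_of_lt hN]

theorem ev1_toP_le {w W0 P0 N B : ℕ} (h : ∀ i, dg w N i ≤ B) :
    ev1 (toP w W0 P0 N) ≤ P0 * W0 * B := by
  unfold toP
  rw [map_sum]
  calc ∑ p ∈ Finset.range P0, ev1 (∑ q ∈ Finset.range W0, mo p q (dg w N (W0 * p + q)))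
      ≤ ∑ _p ∈ Finset.range P0, W0 * B := by
        refine Finset.sum_le_sum (fun p _ => ?_)
        rw [map_sum]
        calc ∑ q ∈ Finset.range W0, ev1 (mo p q (dg w N (W0 * p + q)))
            ≤ ∑ _q ∈ Finset.range W0, B := by
              refine Finset.sum_le_sum (fun q _ => ?_)
              rw [ev1_mo]; exact h _
          _ = W0 * B := by simp
    _ = P0 * W0 * B := by simp [mul_assoc]

end Pool.Agent.H97.SS
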