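import Pool.Agent.H97.SS.Upper

/-!
Lower bounds for the series `∑ av n p q y^n` (with values in `[0, ∞]`).
-/

namespace Pool.Agent.H97.SS

open Finset NNReal ENNReal

theorem lin_map {K L : Type} [CommSemiring K] [CommSemiring L] (f : K →+* L) (G : ℕ → ℕ → K)
    (p q : ℕ) : f (lin G p q) = lin (fun i j => f (G i j)) p q := by
  unfold lin
  simp only [map_add, map_mul, map_ofNat]

theorem tv_map {K L : Type} [CommSemiring K] [CommSemiring L] (f : K →+* L) (G : ℕ → ℕ → K)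
    (j : ℕ) : f (tv G j) = tv (fun i j => f (G i j)) j := by
  unfold tv
  simp only [map_add, map_mul, map_ofNat]

theorem tu_map {K L : Type} [CommSemiring K] [CommSemiring L] (f : K →+* L) (G : ℕ → ℕ → K)
    (j : ℕ) : f (tu G j) = tu (fun i j => f (G i j)) j := by
  unfold tu
  simp only [map_add, map_mul, map_ofNat]

theorem bil_map {K L : Type} [CommSemiring K] [CommSemiring L] (f : K →+* L) (G H : ℕ → ℕ → K)
    (p q : ℕ) : f (bil G H p q) = bil (fun i j => f (G i j)) (fun i j => f (H i j)) p q := by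
  unfold bil
  simp only [map_add, map_mul, map_sum, tv_map, tu_map]

theorem VF_map {K L : Type} [CommSemiring K] [CommSemiring L] (f : K →+* L) (G : ℕ → ℕ → K)
    (p q : ℕ) : f (VF G p q) = VF (fun i j => f (G i j)) p q := by
  unfold VF
  rw [map_add, map_add, lin_map, bil_map]
  congr 2
  split_ifs <;> simp

/-- The coefficients as nonnegative reals. -/
noncomputable def avN (n p q : ℕ) : ℝ≥0 := ⟨av n p q, av_nonneg n p q⟩

theorem avN_zero (n p q : ℕ) (h : n = 0 ∨ q = 0 ∨ p = 0) : avN n p q = 0 := by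
  apply NNReal.coe_injective
  exact av_zero n p q h

theorem avN_rec (n p q : ℕ) : ((n : ℝ≥0) + 1) * avN (n + 1) (p + 1) (q + 1) =
    (if n = 0 ∧ p = 0 ∧ q = 0 then 1 else 0) + lin (avN n) (p + 1) (q + 1) +
    ∑ a ∈ antidiagonal n, bil (avN a.1) (avN a.2) (p + 1) (q + 1) := by
  apply NNReal.coe_injective
  have h := av_rec n p q
  have e1 : ((lin (avN n) (p + 1) (q + 1) : ℝ≥0) : ℝ) = lin (av n) (p + 1) (q + 1) :=
    lin_map NNReal.toRealHom (avN n) (p + 1) (q + 1)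
  have e2 : ∀ a : ℕ × ℕ, ((bil (avN a.1) (avN a.2) (p + 1) (q + 1) : ℝ≥0) : ℝ) =
      bil (av a.1) (av a.2) (p + 1) (q + 1) := fun a =>
    bil_map NNReal.toRealHom (avN a.1) (avN a.2) (p + 1) (q + 1)
  push_cast
  rw [e1, Finset.sum_congr rfl (fun a _ => e2 a)]
  refine h.trans ?_
  congr 2
  split_ifs <;> simp

/-- The sum of the series. -/
noncomputable def AE (y : ℝ≥0) (p q : ℕ) : ℝ≥0∞ := ∑' n, (avN n p q : ℝ≥0∞) * (y : ℝ≥0∞) ^ n

/-- The sum of the differentiated series. -/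
noncomputable def AD (y : ℝ≥0) (p q : ℕ) : ℝ≥0∞ :=
  ∑' n : ℕ, (((n : ℝ≥0) + 1) * avN (n + 1) p q : ℝ≥0) * (y : ℝ≥0∞) ^ n

theorem ennreal_cauchy (x w : ℕ → ℝ≥0∞) :
    (∑' i, x i) * (∑' j, w j) = ∑' n, ∑ a ∈ antidiagonal n, x a.1 * w a.2 := by
  have h1 : (∑' i, x i) * (∑' j, w j) = ∑' p : ℕ × ℕ, x p.1 * w p.2 := by
    rw [ENNReal.tsum_prod (f := fun i j => x i * w j), ← ENNReal.tsum_mul_right]
    refine tsum_congr (fun i => ?_)
    rw [ENNReal.tsum_mul_left]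
  have h2 := (Finset.HasAntidiagonal.sigmaAntidiagonalEquivProd (A := ℕ)).tsum_eq
    (fun a : ℕ × ℕ => x a.1 * w a.2)
  rw [h1, ← h2, ENNReal.tsum_sigma']
  refine tsum_congr (fun n => ?_)
  exact Finset.tsum_subtype (antidiagonal n) (fun a : ℕ × ℕ => x a.1 * w a.2)

theorem ennreal_cauchy_pow (x w : ℕ → ℝ≥0∞) (y : ℝ≥0∞) :
    (∑' i, x i * y ^ i) * (∑' j, w j * y ^ j) =
      ∑' n, (∑ a ∈ antidiagonal n, x a.1 * w a.2) * y ^ n := by
  rw [ennreal_cauchy]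
  refine tsum_congr (fun n => ?_)
  rw [Finset.sum_mul]
  refine Finset.sum_congr rfl (fun a ha => ?_)
  have ha' := HasAntidiagonal.mem_antidiagonal.1 ha
  rw [← ha', pow_add]; ring

theorem lin_AE (y : ℝ≥0) (p q : ℕ) :
    lin (AE y) p q = ∑' n, ((lin (avN n) p q : ℝ≥0) : ℝ≥0∞) * (y : ℝ≥0∞) ^ n := by
  unfold lin AE
  simp only [← ENNReal.tsum_mul_left, ← ENNReal.tsum_add]
  refine tsum_congr (fun n => ?_)
  push_cast
  ring

theorem tv_AE (y : ℝ≥0) (j : ℕ) :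
    tv (AE y) j = ∑' n, ((tv (avN n) j : ℝ≥0) : ℝ≥0∞) * (y : ℝ≥0∞) ^ n := by
  unfold tv AE
  simp only [← ENNReal.tsum_mul_left, ← ENNReal.tsum_add]
  refine tsum_congr (fun n => ?_)
  push_cast
  ring

theorem tu_AE (y : ℝ≥0) (j : ℕ) :
    tu (AE y) j = ∑' n, ((tu (avN n) j : ℝ≥0) : ℝ≥0∞) * (y : ℝ≥0∞) ^ n := by
  unfold tu AE
  simp only [← ENNReal.tsum_mul_left, ← ENNReal.tsum_add]
  refine tsum_congr (fun n => ?_)
  push_cast
  ring

theorem AD_eq (y : ℝ≥0) (p q : ℕ) : AD y (p + 1) (q + 1) = VF (AE y) (p + 1) (q + 1) := by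
  unfold AD
  have h1 : ∀ n : ℕ, ((((n : ℝ≥0) + 1) * avN (n + 1) (p + 1) (q + 1) : ℝ≥0) : ℝ≥0∞) *
      (y : ℝ≥0∞) ^ n =
      ((if n = 0 ∧ p = 0 ∧ q = 0 then (1 : ℝ≥0∞) else 0) * (y : ℝ≥0∞) ^ n +
      ((lin (avN n) (p + 1) (q + 1) : ℝ≥0) : ℝ≥0∞) * (y : ℝ≥0∞) ^ n) +
      (∑ a ∈ antidiagonal n, ((bil (avN a.1) (avN a.2) (p + 1) (q + 1) : ℝ≥0) : ℝ≥0∞)) *
        (y : ℝ≥0∞) ^ n := by
    intro n
    rw [avN_rec]
    push_cast
    rw [add_mul, add_mul]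
    congr 3
    split_ifs <;> simp
  rw [tsum_congr h1, ENNReal.tsum_add, ENNReal.tsum_add, ← lin_AE]
  unfold VF
  congr 1
  · congr 1
    rw [tsum_eq_single 0]
    · have h3 : (0 = 0 ∧ p = 0 ∧ q = 0) ↔ (p + 1 = 1 ∧ q + 1 = 1) := by omega
      rw [pow_zero, mul_one]
      exact if_congr h3 rfl rfl
    · intro n hn
      rw [if_neg (by tauto), zero_mul]
  · have h4 : ∀ n : ℕ,
        (∑ a ∈ antidiagonal n, ((bil (avN a.1) (avN a.2) (p + 1) (q + 1) : ℝ≥0) : ℝ≥0∞)) *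
          (y : ℝ≥0∞) ^ n =
        ((∑ a ∈ antidiagonal n, (avN a.1 1 1 : ℝ≥0∞) * avN a.2 (p + 1) (q + 1)) *
          (y : ℝ≥0∞) ^ n +
        ∑ j ∈ range q, (∑ a ∈ antidiagonal n, ((tv (avN a.1) (j + 1) : ℝ≥0) : ℝ≥0∞) *
          avN a.2 (p + 1) (q - j)) * (y : ℝ≥0∞) ^ n) +
        ∑ j ∈ range p, (∑ a ∈ antidiagonal n, ((tu (avN a.1) (j + 1) : ℝ≥0) : ℝ≥0∞) *
          avN a.2 (p - j) (q + 1)) * (y : ℝ≥0∞) ^ n := by
      intro n
      unfold bil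
      simp only [Nat.add_sub_cancel]
      push_cast
      rw [Finset.sum_add_distrib, Finset.sum_add_distrib, add_mul, add_mul]
      congr 1
      · congr 1
        rw [Finset.sum_comm, Finset.sum_mul]
      · rw [Finset.sum_comm, Finset.sum_mul]
    rw [tsum_congr h4, ENNReal.tsum_add, ENNReal.tsum_add]
    unfold bil
    simp only [Nat.add_sub_cancel]
    congr 1
    · congr 1
      · unfold AE
        rw [ennreal_cauchy_pow]
      · have hs : ∑' n : ℕ, ∑ j ∈ range q, (∑ a ∈ antidiagonal n,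
            ((tv (avN a.1) (j + 1) : ℝ≥0) : ℝ≥0∞) *
            avN a.2 (p + 1) (q - j)) * (y : ℝ≥0∞) ^ n =
            ∑ j ∈ range q, ∑' n : ℕ, (∑ a ∈ antidiagonal n,
            ((tv (avN a.1) (j + 1) : ℝ≥0) : ℝ≥0∞) *
            avN a.2 (p + 1) (q - j)) * (y : ℝ≥0∞) ^ n :=
          Summable.tsum_finsetSum (fun _ _ => ENNReal.summable)
        rw [hs]
        refine Finset.sum_congr rfl (fun j _ => ?_)
        rw [tv_AE]
        unfold AE
        rw [ennreal_cauchy_pow]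
    · have hs : ∑' n : ℕ, ∑ j ∈ range p, (∑ a ∈ antidiagonal n,
          ((tu (avN a.1) (j + 1) : ℝ≥0) : ℝ≥0∞) *
          avN a.2 (p - j) (q + 1)) * (y : ℝ≥0∞) ^ n =
          ∑ j ∈ range p, ∑' n : ℕ, (∑ a ∈ antidiagonal n,
          ((tu (avN a.1) (j + 1) : ℝ≥0) : ℝ≥0∞) *
          avN a.2 (p - j) (q + 1)) * (y : ℝ≥0∞) ^ n :=
        Summable.tsum_finsetSum (fun _ _ => ENNReal.summable)
      rw [hs]
      refine Finset.sum_congr rfl (fun j _ => ?_)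
      rw [tu_AE]
      unfold AE
      rw [ennreal_cauchy_pow]

theorem mid_aux {m t : ℝ} (ht : 0 ≤ t) (hm : t ≤ m) (n : ℕ) :
    2 * t * ((n : ℝ) + 1) * m ^ n ≤ (m + t) ^ (n + 1) - (m - t) ^ (n + 1) ∧
      2 * m ^ n ≤ (m + t) ^ n + (m - t) ^ n := by
  have hm0 : 0 ≤ m := ht.trans hm
  induction n with
  | zero => constructor <;> norm_num; linarith
  | succ n ih =>
    obtain ⟨h1, h2⟩ := ih
    have hd : 0 ≤ (m + t) ^ (n + 1) - (m - t) ^ (n + 1) :=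
      le_trans (by positivity) h1
    have h4 : 2 * m ^ (n + 1) ≤ (m + t) ^ (n + 1) + (m - t) ^ (n + 1) := by
      have e : (m + t) ^ (n + 1) + (m - t) ^ (n + 1) = m * ((m + t) ^ n + (m - t) ^ n) +
        t * ((m + t) ^ n - (m - t) ^ n) := by ring
      have h5 : 0 ≤ (m + t) ^ n - (m - t) ^ n :=
        sub_nonneg.2 (pow_le_pow_left₀ (by linarith) (by linarith) n)
      have h6 := mul_le_mul_of_nonneg_left h2 hm0
      have h7 := mul_nonneg ht h5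
      rw [e, pow_succ]; linarith
    refine ⟨?_, h4⟩
    have e : (m + t) ^ (n + 1 + 1) - (m - t) ^ (n + 1 + 1) =
        m * ((m + t) ^ (n + 1) - (m - t) ^ (n + 1)) +
        t * ((m + t) ^ (n + 1) + (m - t) ^ (n + 1)) := by ring
    have h6 := mul_le_mul_of_nonneg_left h1 hm0
    have h7 := mul_le_mul_of_nonneg_left h4 ht
    rw [e]
    push_cast
    have e2 : 2 * t * ((n : ℝ) + 1 + 1) * m ^ (n + 1) =
        m * (2 * t * ((n : ℝ) + 1) * m ^ n) + t * (2 * m ^ (n + 1)) := by ring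
    linarith

theorem pow_mid (y t : ℝ≥0) (n : ℕ) :
    y ^ (n + 1) + 2 * t * (((n : ℝ≥0) + 1) * (y + t) ^ n) ≤ (y + 2 * t) ^ (n + 1) := by
  rw [← NNReal.coe_le_coe]
  push_cast
  have h := (mid_aux (m := (y : ℝ) + t) (t := (t : ℝ)) t.coe_nonneg
    (by linarith [y.coe_nonneg]) n).1
  have e1 : (y : ℝ) + t + t = y + 2 * t := by ring
  have e2 : (y : ℝ) + t - t = y := by ring
  rw [e1, e2] at h
  linarith

theorem pow_euler (y t : ℝ≥0) (n : ℕ) :
    y ^ (n + 1) + t * (((n : ℝ≥0) + 1) * y ^ n) ≤ (y + t) ^ (n + 1) := by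
  rw [← NNReal.coe_le_coe]
  push_cast
  have hy := y.coe_nonneg
  have ht := t.coe_nonneg
  induction n with
  | zero => norm_num
  | succ n ih =>
    have h1 : ((y : ℝ) ^ (n + 1) + t * (((n : ℝ) + 1) * (y : ℝ) ^ n)) * (y + t) ≤
        ((y : ℝ) + t) ^ (n + 1) * (y + t) := mul_le_mul_of_nonneg_right ih (by positivity)
    rw [pow_succ ((y : ℝ) + t) (n + 1)]
    refine le_trans ?_ h1
    push_cast
    have h2 : 0 ≤ (t : ℝ) ^ 2 * (((n : ℝ) + 1) * (y : ℝ) ^ n) := by positivity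
    have e : ((y : ℝ) ^ (n + 1) + t * (((n : ℝ) + 1) * (y : ℝ) ^ n)) * (y + t) =
        (y : ℝ) ^ (n + 1 + 1) + t * (((n : ℝ) + 1 + 1) * (y : ℝ) ^ (n + 1)) +
        (t : ℝ) ^ 2 * (((n : ℝ) + 1) * (y : ℝ) ^ n) := by ring
    rw [e]; linarith

theorem AE_succ (y : ℝ≥0) (p q : ℕ) :
    AE y p q = ∑' n, (avN (n + 1) p q : ℝ≥0∞) * (y : ℝ≥0∞) ^ (n + 1) := by
  unfold AE
  rw [tsum_eq_zero_add' ENNReal.summable, avN_zero _ _ _ (Or.inl rfl)]
  simp

theorem AE_mid (y t : ℝ≥0) (p q : ℕ) :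
    AE y p q + 2 * t * AD (y + t) p q ≤ AE (y + 2 * t) p q := by
  rw [AE_succ, AE_succ]
  unfold AD
  rw [← ENNReal.tsum_mul_left, ← ENNReal.tsum_add]
  refine ENNReal.tsum_le_tsum (fun n => ?_)
  have h := pow_mid y t n
  have h2 : (avN (n + 1) p q) * (y ^ (n + 1) + 2 * t * (((n : ℝ≥0) + 1) * (y + t) ^ n)) ≤
      (avN (n + 1) p q) * (y + 2 * t) ^ (n + 1) := mul_le_mul_right h _
  have h3 := ENNReal.coe_le_coe.2 h2
  push_cast at h3 ⊢
  refine le_trans (le_of_eq ?_) h3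
  ring

theorem AE_euler (y t : ℝ≥0) (p q : ℕ) :
    AE y p q + t * AD y p q ≤ AE (y + t) p q := by
  rw [AE_succ, AE_succ]
  unfold AD
  rw [← ENNReal.tsum_mul_left, ← ENNReal.tsum_add]
  refine ENNReal.tsum_le_tsum (fun n => ?_)
  have h := pow_euler y t n
  have h2 : (avN (n + 1) p q) * (y ^ (n + 1) + t * (((n : ℝ≥0) + 1) * y ^ n)) ≤
      (avN (n + 1) p q) * (y + t) ^ (n + 1) := mul_le_mul_right h _
  have h3 := ENNReal.coe_le_coe.2 h2
  push_cast at h3 ⊢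
  refine le_trans (le_of_eq ?_) h3
  ring

theorem AE_mono {y y' : ℝ≥0} (h : y ≤ y') (p q : ℕ) : AE y p q ≤ AE y' p q := by
  unfold AE
  refine ENNReal.tsum_le_tsum (fun n => ?_)
  gcongr

theorem VF_mono_ennreal {G G' : ℕ → ℕ → ℝ≥0∞} (h : ∀ p q, G p q ≤ G' p q) (p q : ℕ) :
    VF G p q ≤ VF G' p q := by
  have htv : ∀ j, tv G j ≤ tv G' j := fun j => by
    unfold tv; gcongr <;> exact h _ _
  have htu : ∀ j, tu G j ≤ tu G' j := fun j => by
    unfold tu; gcongr <;> exact h _ _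
  unfold VF lin bil
  gcongr
  all_goals first | exact h _ _ | exact htv _ | exact htu _

/-- One midpoint step for lower bounds. -/
theorem low_step (y t : ℝ≥0) (l m l' : ℕ → ℕ → ℝ≥0)
    (hl : ∀ p q, (l p q : ℝ≥0∞) ≤ AE y p q)
    (hm0 : ∀ p q, p = 0 ∨ q = 0 → m p q = 0)
    (hm : ∀ p q, m (p + 1) (q + 1) ≤ l (p + 1) (q + 1) + t * VF l (p + 1) (q + 1))
    (hl0 : ∀ p q, p = 0 ∨ q = 0 → l' p q = 0)
    (hl' : ∀ p q, l' (p + 1) (q + 1) ≤ l (p + 1) (q + 1) + 2 * t * VF m (p + 1) (q + 1)) :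
    ∀ p q, (l' p q : ℝ≥0∞) ≤ AE (y + 2 * t) p q := by
  have hmE : ∀ p q, (m p q : ℝ≥0∞) ≤ AE (y + t) p q := by
    intro p q
    rcases p with _ | p
    · rw [hm0 _ _ (Or.inl rfl)]; simp
    rcases q with _ | q
    · rw [hm0 _ _ (Or.inr rfl)]; simp
    refine le_trans ?_ (AE_euler y t (p + 1) (q + 1))
    rw [AD_eq]
    have h1 := ENNReal.coe_le_coe.2 (hm p q)
    have h2 : ((VF l (p + 1) (q + 1) : ℝ≥0) : ℝ≥0∞) = VF (fun i j => (l i j : ℝ≥0∞)) (p + 1) (q + 1) :=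
      VF_map ENNReal.ofNNRealHom l (p + 1) (q + 1)
    push_cast at h1
    rw [h2] at h1
    refine h1.trans ?_
    have h3 := VF_mono_ennreal hl (p + 1) (q + 1)
    have h4 := hl (p + 1) (q + 1)
    gcongr
  intro p q
  rcases p with _ | p
  · rw [hl0 _ _ (Or.inl rfl)]; simp
  rcases q with _ | q
  · rw [hl0 _ _ (Or.inr rfl)]; simp
  refine le_trans ?_ (AE_mid y t (p + 1) (q + 1))
  rw [AD_eq]
  have h1 := ENNReal.coe_le_coe.2 (hl' p q)
  have h2 : ((VF m (p + 1) (q + 1) : ℝ≥0) : ℝ≥0∞) = VF (fun i j => (m i j : ℝ≥0∞)) (p + 1) (q + 1) :=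
    VF_map ENNReal.ofNNRealHom m (p + 1) (q + 1)
  push_cast at h1
  rw [h2] at h1
  refine h1.trans ?_
  have h3 := VF_mono_ennreal hmE (p + 1) (q + 1)
  have h4 := hl (p + 1) (q + 1)
  gcongr

/-- Blow-up. -/
theorem AE_top {y a Y : ℝ≥0} (ha : 0 < a) (h : (a : ℝ≥0∞) ≤ AE y 1 1)
    (hY : y + 11 / 10 / a ≤ Y) : AE Y 1 1 = ∞ := by
  -- θ = 1/10
  have hstep : ∀ (y a : ℝ≥0), 0 < a → (a : ℝ≥0∞) ≤ AE y 1 1 →
      ((a * (11 / 10) : ℝ≥0) : ℝ≥0∞) ≤ AE (y + 1 / 10 / a) 1 1 := by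
    intro y a ha h
    refine le_trans ?_ (AE_euler y (1 / 10 / a) 1 1)
    have h1 : (a : ℝ≥0∞) * a ≤ AD y 1 1 := by
      rw [show AD y 1 1 = VF (AE y) 1 1 from AD_eq y 0 0]
      unfold VF bil
      simp only [Nat.sub_self, Finset.range_zero, Finset.sum_empty, add_zero]
      refine le_trans ?_ le_add_self
      gcongr
    have h2 : ((a * (11 / 10) : ℝ≥0) : ℝ≥0∞) = a + ((1 / 10 / a : ℝ≥0) : ℝ≥0∞) * ((a : ℝ≥0∞) * a) := by
      rw [← ENNReal.coe_mul, ← ENNReal.coe_mul, ← ENNReal.coe_add]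
      congr 1
      have : a ≠ 0 := ha.ne'
      apply NNReal.coe_injective
      push_cast
      have h3 : (a : ℝ) ≠ 0 := by exact_mod_cast this
      field_simp
      ring
    rw [h2]
    gcongr
  have hiter : ∀ k : ℕ, ∃ yk : ℝ≥0, yk + 11 / 10 / (a * (11 / 10) ^ k) ≤ y + 11 / 10 / a ∧
      ((a * (11 / 10) ^ k : ℝ≥0) : ℝ≥0∞) ≤ AE yk 1 1 := by
    intro k
    induction k with
    | zero => exact ⟨y, by simp, by simpa using h⟩
    | succ k ih =>
      obtain ⟨yk, h1, h2⟩ := ih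
      have hak : 0 < a * (11 / 10) ^ k := by positivity
      refine ⟨yk + 1 / 10 / (a * (11 / 10) ^ k), ?_, ?_⟩
      · refine le_trans (le_of_eq ?_) h1
        apply NNReal.coe_injective
        push_cast
        have h3 : (a : ℝ) ≠ 0 := by exact_mod_cast ha.ne'
        field_simp
        ring
      · have h3 := hstep yk _ hak h2
        rw [pow_succ, ← mul_assoc]
        exact h3
  refine ENNReal.eq_top_of_forall_nnreal_le (fun r => ?_)
  obtain ⟨k, hk⟩ := pow_unbounded_of_one_lt (r / a) (show (1 : ℝ≥0) < 11 / 10 by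
    rw [← NNReal.coe_lt_coe]; norm_num)
  obtain ⟨yk, h1, h2⟩ := hiter k
  have h3 : yk ≤ Y := le_trans (le_trans le_self_add h1) hY
  refine le_trans ?_ (h2.trans (AE_mono h3 1 1))
  rw [ENNReal.coe_le_coe]
  rw [div_lt_iff₀ ha] at hk
  rw [mul_comm]; exact hk.le

theorem not_summable_of_top {Y : ℝ≥0} (h : AE Y 1 1 = ∞) :
    ¬ Summable (fun n => av n 1 1 * (Y : ℝ) ^ n) := by
  intro hs
  have h1 : Summable (fun n => avN n 1 1 * Y ^ n) := by
    rw [← NNReal.summable_coe]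
    refine hs.congr (fun n => ?_)
    push_cast
    rfl
  have h2 : ∑' n, ((avN n 1 1 * Y ^ n : ℝ≥0) : ℝ≥0∞) ≠ ∞ := ENNReal.tsum_coe_ne_top_iff_summable.2 h1
  apply h2
  rw [← h]
  unfold AE
  refine tsum_congr (fun n => ?_)
  push_cast
  rfl

end Pool.Agent.H97.SS
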