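import Pool.Agent.H97.SS.URun
import Pool.Agent.H97.SS.Lower

/-!
Soundness of the lower run.
-/

namespace Pool.Agent.H97.SS

open Finset
open scoped NNReal ENNReal

/-- The nonnegative real function of a packed number. -/
noncomputable def Gl (w W0 D s N : ℕ) (p q : ℕ) : ℝ≥0 := (gb w W0 D N p q : ℝ≥0) / 2 ^ s

/-- The invariant of the lower scheme. -/
structure LInv (w W0 D s b : ℕ) (yn a : ℕ) : Prop where
  bk : Bk w W0 D b a
  le : ∀ p q, (Gl w W0 D s a p q : ℝ≥0∞) ≤ AE ((yn : ℝ≥0) / 2 ^ 40) p q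

section

variable {w W0 D s b wR BM RM CM AM E1 E2 BL BB : ℕ}

theorem ext_zero (w W0 D a : ℕ) : ext w W0 D a 0 0 = gb w W0 D a := by
  funext p q
  unfold ext gb
  split_ifs <;> first | rfl | omega

theorem VF_Gl (a p q : ℕ) :
    ((VF (Gl w W0 D s a) p q : ℝ≥0) : ℝ) = (Rs s (gb w W0 D a) p q : ℝ) / 2 ^ (2 * s) := by
  have h := VF_map NNReal.toRealHom (Gl w W0 D s a) p q
  rw [NNReal.coe_toRealHom] at h
  rw [h, ← Rs_cast]
  congr 1

theorem lstep_digit (hc : Cst w W0 D BM RM CM AM E1 E2) (hp : Par w W0 D s b wR)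
    (hBL : ∀ i, dg w BL i = if blk W0 D i then 2 ^ (w - (s + 40)) - 1 else 0)
    (hBB : ∀ i, dg w BB i = if blk W0 D i then 2 ^ b - 1 else 0)
    {a c N : ℕ} (ha : Bk w W0 D b a) (hcb : Bk w W0 D b c) (hN : N ≤ 34359738367) :
    Bk w W0 D b ((a + ((N * Rf w W0 s c 0 0 BM RM CM AM E1 E2) >>> (s + 40) &&& BL)) &&& BB) ∧
    ∀ p q, 1 ≤ p → 1 ≤ q → p + q ≤ D →
      dg w ((a + ((N * Rf w W0 s c 0 0 BM RM CM AM E1 E2) >>> (s + 40) &&& BL)) &&& BB)
        (W0 * p + q) ≤ dg w a (W0 * p + q) + N * Rs s (gb w W0 D c) p q / 2 ^ (s + 40) := by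
  have hw := hp.hw
  have hb := hp.hb
  have hD := hp.hD
  have hD2 := hp.hD2
  have hD3 := hp.hD3
  have hwR := hp.hwR
  have hws := hp.hws
  have hpb : 0 < 2 ^ b := by positivity
  set R := Rf w W0 s c 0 0 BM RM CM AM E1 E2 with hR
  have hbR : Bk w W0 D wR R := Bk_Rf hc hw (by omega) hD hD2 hD3 hcb hpb hpb hp.hB (by omega)
  have hwR1 : 2 ^ wR * 2 ^ 35 ≤ 2 ^ w := by
    rw [← pow_add]; exact Nat.pow_le_pow_right (by norm_num) (by omega)
  have hX : ∀ i, dg w (N * R) i = N * dg w R i := by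
    intro i
    refine dg_smul (fun j => ?_) i
    have h1 := hbR.lt j
    calc N * dg w R j ≤ 34359738367 * 2 ^ wR := Nat.mul_le_mul hN (by omega)
      _ < 2 ^ wR * 2 ^ 35 := by
          have : 0 < 2 ^ wR := by positivity
          omega
      _ ≤ 2 ^ w := hwR1
  have hpos : 0 < 2 ^ (w - (s + 40)) := by positivity
  have hinc : ∀ i, dg w ((N * R) >>> (s + 40) &&& BL) i ≤ N * dg w R i / 2 ^ (s + 40) := by
    intro i
    rw [dg_shift_land (by rw [hBL]; split_ifs <;> omega), hX]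
    exact Nat.and_le_left
  have hinclt : ∀ i, dg w ((N * R) >>> (s + 40) &&& BL) i < 2 ^ (w - 2) := by
    intro i
    rw [dg_shift_land (by rw [hBL]; split_ifs <;> omega)]
    refine lt_of_le_of_lt Nat.and_le_right ?_
    rw [hBL]
    have : 2 ^ (w - (s + 40)) ≤ 2 ^ (w - 2) := Nat.pow_le_pow_right (by norm_num) (by omega)
    split_ifs <;> omega
  have hw2 : 2 ^ w = 4 * 2 ^ (w - 2) := by
    have : w = w - 2 + 2 := by omega
    conv_lhs => rw [this, pow_add]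
    ring
  have hbw : 2 ^ b ≤ 2 ^ (w - 2) := Nat.pow_le_pow_right (by norm_num) (by omega)
  have hsum : ∀ i, dg w (a + ((N * R) >>> (s + 40) &&& BL)) i =
      dg w a i + dg w ((N * R) >>> (s + 40) &&& BL) i := by
    intro i
    refine dg_add (fun j => ?_) i
    have := ha.lt j
    have := hinclt j
    omega
  constructor
  · refine ⟨fun i hi => ?_, fun i => ?_⟩
    · rw [dg_land, hBB, if_neg hi, Nat.and_zero]
    · rw [dg_land]
      refine lt_of_le_of_lt Nat.and_le_right ?_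
      rw [hBB]; split_ifs <;> omega
  · intro p q h1 h2 h3
    rw [dg_land]
    refine Nat.and_le_left.trans ?_
    rw [hsum]
    refine Nat.add_le_add_left ((hinc _).trans ?_) _
    rw [hR, dg_Rf hc hw (by omega) hD hD2 hD3 hcb hpb hpb
      (hp.hB.trans_le (Nat.pow_le_pow_right (by norm_num) (by omega))) h1 h2 h3, ext_zero]

theorem lstep_nn {a c x N p q : ℕ}
    (h1 : 1 ≤ p) (h2 : 1 ≤ q)
    (h : p + q ≤ D → dg w x (W0 * p + q) ≤
      dg w a (W0 * p + q) + N * Rs s (gb w W0 D c) p q / 2 ^ (s + 40)) :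
    Gl w W0 D s x p q ≤ Gl w W0 D s a p q + (N : ℝ≥0) / 2 ^ 40 * VF (Gl w W0 D s c) p q := by
  by_cases h3 : p + q ≤ D
  · have h4 := h h3
    rw [← NNReal.coe_le_coe]
    rw [NNReal.coe_add, NNReal.coe_mul, VF_Gl]
    have ex : gb w W0 D x p q = dg w x (W0 * p + q) := by unfold gb; rw [if_pos ⟨h1, h2, h3⟩]
    have ea : gb w W0 D a p q = dg w a (W0 * p + q) := by unfold gb; rw [if_pos ⟨h1, h2, h3⟩]
    unfold Gl
    rw [ex, ea]
    push_cast
    set R := Rs s (gb w W0 D c) p q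
    have h5 : dg w x (W0 * p + q) * 2 ^ (s + 40) ≤ dg w a (W0 * p + q) * 2 ^ (s + 40) + N * R := by
      calc dg w x (W0 * p + q) * 2 ^ (s + 40)
          ≤ (dg w a (W0 * p + q) + N * R / 2 ^ (s + 40)) * 2 ^ (s + 40) :=
            Nat.mul_le_mul_right _ h4
        _ = dg w a (W0 * p + q) * 2 ^ (s + 40) + N * R / 2 ^ (s + 40) * 2 ^ (s + 40) := by ring
        _ ≤ _ := Nat.add_le_add_left (Nat.div_mul_le_self _ _) _
    have h6 : (dg w x (W0 * p + q) : ℝ) * 2 ^ (s + 40) ≤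
        dg w a (W0 * p + q) * 2 ^ (s + 40) + N * R := by exact_mod_cast h5
    have hS : (0 : ℝ) < 2 ^ s := by positivity
    have e5 : (dg w a (W0 * p + q) : ℝ) / 2 ^ s + (N : ℝ) / 2 ^ 40 * ((R : ℝ) / 2 ^ (2 * s)) =
        (dg w a (W0 * p + q) * 2 ^ (s + 40) + N * R) / (2 ^ s * 2 ^ (s + 40)) := by
      have : (2 : ℝ) ^ (2 * s) = 2 ^ s * 2 ^ s := by rw [← pow_add]; ring_nf
      rw [this, pow_add]
      field_simp
    rw [e5, div_le_div_iff₀ hS (by positivity)]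
    calc (dg w x (W0 * p + q) : ℝ) * (2 ^ s * 2 ^ (s + 40))
        = (dg w x (W0 * p + q) : ℝ) * 2 ^ (s + 40) * 2 ^ s := by ring
      _ ≤ _ := mul_le_mul_of_nonneg_right h6 hS.le
  · have : Gl w W0 D s x p q = 0 := by
      unfold Gl gb
      rw [if_neg (by omega)]; simp
    rw [this]
    simp

theorem lstep_sound (hc : Cst w W0 D BM RM CM AM E1 E2) (hp : Par w W0 D s b wR)
    (hBL : ∀ i, dg w BL i = if blk W0 D i then 2 ^ (w - (s + 40)) - 1 else 0)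
    (hBB : ∀ i, dg w BB i = if blk W0 D i then 2 ^ b - 1 else 0)
    {a n yn m a' : ℕ} (hn : n ≤ 17179869183) (hi : LInv w W0 D s b yn a)
    (hm : m = (a + ((n * Rf w W0 s a 0 0 BM RM CM AM E1 E2) >>> (s + 40) &&& BL)) &&& BB)
    (ha' : a' = (a + (((2 * n) * Rf w W0 s m 0 0 BM RM CM AM E1 E2) >>> (s + 40) &&& BL)) &&& BB) :
    LInv w W0 D s b (yn + 2 * n) a' := by
  obtain ⟨m1, m2⟩ := lstep_digit hc hp hBL hBB hi.bk hi.bk (N := n) (by omega)
  rw [← hm] at m1 m2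
  obtain ⟨a1, a2⟩ := lstep_digit hc hp hBL hBB hi.bk m1 (N := 2 * n) (by omega)
  rw [← ha'] at a1 a2
  refine ⟨a1, ?_⟩
  have e0 : ((yn + 2 * n : ℕ) : ℝ≥0) / 2 ^ 40 = (yn : ℝ≥0) / 2 ^ 40 + 2 * ((n : ℝ≥0) / 2 ^ 40) := by
    push_cast; ring
  rw [e0]
  have hz : ∀ N p q, p = 0 ∨ q = 0 → Gl w W0 D s N p q = 0 := by
    intro N p q h
    unfold Gl gb
    rw [if_neg (by omega)]; simp
  refine low_step _ _ (Gl w W0 D s a) (Gl w W0 D s m) (Gl w W0 D s a') hi.le (hz m) ?_ (hz a') ?_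
  · intro p q
    exact lstep_nn (by omega) (by omega) (fun h => m2 _ _ (by omega) (by omega) h)
  · intro p q
    have := lstep_nn (w := w) (W0 := W0) (D := D) (s := s) (a := a) (c := m) (x := a')
      (N := 2 * n) (p := p + 1) (q := q + 1) (by omega) (by omega)
      (fun h => a2 _ _ (by omega) (by omega) h)
    refine this.trans (le_of_eq ?_)
    push_cast
    ring

theorem RlK_eq (c : ℕ) : RlK (2 ^ (2 * s) * 2 ^ (w * (2 * W0 + 2))) (2 ^ s * Kn w W0)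
    (K1n w) (K2n w W0) (K3n w W0) (w * (W0 + 1)) BM RM CM AM c =
      Rf w W0 s c 0 0 BM RM CM AM E1 E2 := by
  unfold Rf
  rw [Nat.zero_mul, Nat.zero_mul, Nat.add_zero, Nat.add_zero]
  rfl

theorem lsteps_succ (s40 S2 SK K1 K2 K3 sw BM RM CM AM BL BB dn ds : ℕ) (k : ℕ → ℕ → Bool)
    (cnt n y a : ℕ) : lsteps s40 S2 SK K1 K2 K3 sw BM RM CM AM BL BB dn ds k (cnt + 1) n y a =
      (force (Nat.land (Nat.add a (Nat.land (Nat.shiftRight (Nat.mul n
        (RlK S2 SK K1 K2 K3 sw BM RM CM AM a)) s40) BL)) BB) fun m =>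
      force (Nat.land (Nat.add a (Nat.land (Nat.shiftRight (Nat.mul (Nat.mul 2 n)
        (RlK S2 SK K1 K2 K3 sw BM RM CM AM m)) s40) BL)) BB) fun a' =>
      chk (Nat.ble n 17179869183) <|
      force (Nat.sub (Nat.add n dn) ds) fun n' => force (Nat.add y (Nat.mul 2 n)) fun y' =>
        lsteps s40 S2 SK K1 K2 K3 sw BM RM CM AM BL BB dn ds k cnt n' y' a') := rfl

theorem lsteps_sound (hc : Cst w W0 D BM RM CM AM E1 E2) (hp : Par w W0 D s b wR)
    (hBL : ∀ i, dg w BL i = if blk W0 D i then 2 ^ (w - (s + 40)) - 1 else 0)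
    (hBB : ∀ i, dg w BB i = if blk W0 D i then 2 ^ b - 1 else 0)
    {dn ds : ℕ} {k : ℕ → ℕ → Bool} (cnt : ℕ) {n y a : ℕ} (hi : LInv w W0 D s b y a)
    (h : lsteps (s + 40) (2 ^ (2 * s) * 2 ^ (w * (2 * W0 + 2))) (2 ^ s * Kn w W0)
      (K1n w) (K2n w W0) (K3n w W0) (w * (W0 + 1)) BM RM CM AM BL BB dn ds k cnt n y a = true) :
    ∃ y' a', k y' a' = true ∧ LInv w W0 D s b y' a' := by
  induction cnt generalizing n y a with
  | zero => exact ⟨y, a, h, hi⟩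
  | succ cnt ih =>
    rw [lsteps_succ] at h
    obtain ⟨m, hm, h⟩ := force_elim h
    obtain ⟨a', ha', h⟩ := force_elim h
    obtain ⟨hn, h⟩ := chk_elim h
    obtain ⟨n', -, h⟩ := force_elim h
    obtain ⟨y', hy', h⟩ := force_elim h
    have hn' : n ≤ 17179869183 := Nat.le_of_ble_eq_true hn
    rw [RlK_eq (E1 := E1) (E2 := E2)] at hm ha'
    have hi' := lstep_sound hc hp hBL hBB hn' hi hm ha'
    have hy'' : y' = y + 2 * n := hy'
    rw [← hy''] at hi'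
    exact ih hi' h

theorem lall_sound (hc : Cst w W0 D BM RM CM AM E1 E2) (hp : Par w W0 D s b wR)
    (hBL : ∀ i, dg w BL i = if blk W0 D i then 2 ^ (w - (s + 40)) - 1 else 0)
    (hBB : ∀ i, dg w BB i = if blk W0 D i then 2 ^ b - 1 else 0)
    {k : ℕ → ℕ → Bool} (l : Lsched) {y a : ℕ} (hi : LInv w W0 D s b y a)
    (h : lall (s + 40) (2 ^ (2 * s) * 2 ^ (w * (2 * W0 + 2))) (2 ^ s * Kn w W0)
      (K1n w) (K2n w W0) (K3n w W0) (w * (W0 + 1)) BM RM CM AM BL BB k l y a = true) :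
    ∃ y' a', k y' a' = true ∧ LInv w W0 D s b y' a' := by
  induction l generalizing y a with
  | nil => exact ⟨y, a, h, hi⟩
  | cons cnt n dn ds tl ih =>
    obtain ⟨y', a', h1, hi'⟩ := lsteps_sound hc hp hBL hBB cnt hi h
    exact ih hi' h1

end

/-- A segment of the lower run. -/
noncomputable def lseg (w W0 D s b : ℕ) (l : Lsched) (y a0 y' a' : ℕ) : Bool :=
  force a0 fun a =>
  force (Nat.pred (Nat.pow 2 w)) fun dm =>
  force (Nat.mul (Nat.pow 2 (Nat.mul 2 s)) (Nat.pow 2 (Nat.mul w (Nat.add (Nat.mul 2 W0) 2)))) fun S2 =>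
  force (Nat.mul (Nat.pow 2 s) (Kn w W0)) fun SK =>
  force (K1n w) fun K1 =>
  force (K2n w W0) fun K2 =>
  force (K3n w W0) fun K3 =>
  force (Nat.mul w (Nat.succ W0)) fun sw =>
  force (mBlk w W0 D dm) fun BM =>
  force (mRow w W0 D dm) fun RM =>
  force (mCol w W0 D dm) fun CM =>
  force (mCor w W0 D dm) fun AM =>
  force (mBlk w W0 D (Nat.pred (Nat.pow 2 (Nat.sub w (Nat.add s 40))))) fun BL =>
  force (mBlk w W0 D (Nat.pred (Nat.pow 2 b))) fun BB =>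
  lall (Nat.add s 40) S2 SK K1 K2 K3 sw BM RM CM AM BL BB
    (fun y1 a1 => chk (Nat.beq y1 y') (Nat.beq a1 a')) l y a

theorem lseg_sound {w W0 D s b wR : ℕ} (hp : Par w W0 D s b wR) {l : Lsched}
    {y a y' a' : ℕ} (hi : LInv w W0 D s b y a)
    (h : lseg w W0 D s b l y a y' a' = true) : LInv w W0 D s b y' a' := by
  have hD := hp.hD
  have hb := hp.hb
  have hws := hp.hws
  unfold lseg at h
  obtain ⟨a2, ha2, h⟩ := force_elim h
  rw [← ha2] at hi
  obtain ⟨dm, hdm, h⟩ := force_elim h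
  obtain ⟨S2, hS2, h⟩ := force_elim h
  obtain ⟨SK, hSK, h⟩ := force_elim h
  obtain ⟨K1, hK1, h⟩ := force_elim h
  obtain ⟨K2, hK2, h⟩ := force_elim h
  obtain ⟨K3, hK3, h⟩ := force_elim h
  obtain ⟨sw, hsw, h⟩ := force_elim h
  obtain ⟨BM, hBM, h⟩ := force_elim h
  obtain ⟨RM, hRM, h⟩ := force_elim h
  obtain ⟨CM, hCM, h⟩ := force_elim h
  obtain ⟨AM, hAM, h⟩ := force_elim h
  obtain ⟨BL, hBL, h⟩ := force_elim h
  obtain ⟨BB, hBB, h⟩ := force_elim h
  have hdm' : dm = 2 ^ w - 1 := hdm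
  have hc : Cst w W0 D BM RM CM AM (mAnt w W0 D (D + 1)) (mAnt w W0 D (D + 2)) := by
    rw [hBM, hRM, hCM, hAM, hdm']
    exact cst_spec hp.hw (by omega)
  have h0 : ∀ k, k ≤ w → 2 ^ k - 1 < 2 ^ w := by
    intro k hk
    have h1 : 2 ^ k ≤ 2 ^ w := Nat.pow_le_pow_right (by norm_num) hk
    have h2 : 0 < 2 ^ k := by positivity
    omega
  have hBL' : ∀ i, dg w BL i = if blk W0 D i then 2 ^ (w - (s + 40)) - 1 else 0 := by
    rw [hBL]; exact dg_mBlk W0 D (h0 _ (Nat.sub_le _ _))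
  have hBB' : ∀ i, dg w BB i = if blk W0 D i then 2 ^ b - 1 else 0 := by
    rw [hBB]; exact dg_mBlk W0 D (h0 _ (by omega))
  have e4 : S2 = 2 ^ (2 * s) * 2 ^ (w * (2 * W0 + 2)) := hS2
  have e5 : SK = 2 ^ s * Kn w W0 := hSK
  have e6 : sw = w * (W0 + 1) := hsw
  rw [e4, e5, hK1, hK2, hK3, e6] at h
  obtain ⟨y1, a1, h1, hi'⟩ := lall_sound hc hp hBL' hBB' l hi h
  obtain ⟨q1, q2⟩ := chk_elim h1
  rw [← Nat.eq_of_beq_eq_true q1, ← Nat.eq_of_beq_eq_true q2]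
  exact hi'

/-- The initial state of the lower run. -/
theorem linv_zero (w W0 D s b : ℕ) : LInv w W0 D s b 0 0 := by
  refine ⟨⟨fun i _ => dg_of_zero w i, fun i => by rw [dg_of_zero]; positivity⟩, fun p q => ?_⟩
  have : Gl w W0 D s 0 p q = 0 := by
    unfold Gl gb
    rw [dg_of_zero]; simp
  rw [this]; simp

end Pool.Agent.H97.SS
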