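import Pool.Agent.H97.SS.Limit
import Pool.Agent.H97.SS.LRun

/-!
The growth rate: existence and bounds from the two runs.
-/

namespace Pool.Agent.H97.SS

open Finset Filter Topology
open scoped NNReal ENNReal

theorem lin_nonneg' {G : ℕ → ℕ → ℝ} (hG : ∀ p q, 0 ≤ G p q) (p q : ℕ) : 0 ≤ lin G p q :=
  lin_nonneg hG p q

theorem av_pos (n : ℕ) : 0 < av (n + 1) 1 1 := by
  induction n with
  | zero =>
    have h := av_rec 0 0 0
    have h0 : av 0 = fun _ _ => 0 := by
      funext p q; exact av_zero 0 p q (Or.inl rfl)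
    simp only [zero_add, h0] at h
    have h1 : lin (fun _ _ : ℕ => (0 : ℝ)) 1 1 = 0 := by unfold lin; simp
    rw [h1] at h
    have h2 : ∑ a ∈ antidiagonal 0, bil (av a.1) (av a.2) 1 1 = 0 := by
      rw [Finset.Nat.antidiagonal_zero, sum_singleton]
      simp only [h0]
      unfold bil; simp
    rw [h2] at h
    simp at h
    rw [h]; exact one_pos
  | succ n ih =>
    have h := av_rec (n + 1) 0 0
    have h1 : 0 ≤ ∑ a ∈ antidiagonal (n + 1), bil (av a.1) (av a.2) (0 + 1) (0 + 1) :=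
      sum_nonneg (fun a _ => bil_nonneg (fun p q => av_nonneg _ _ _) (fun p q => av_nonneg _ _ _) _ _)
    have h2 : 4 * av (n + 1) 1 1 ≤ lin (av (n + 1)) (0 + 1) (0 + 1) := by
      unfold lin
      have k1 := av_nonneg (n + 1) (0 + 1 + 1) (0 + 1)
      have k2 := av_nonneg (n + 1) (0 + 1) (0 + 1 + 1)
      have k3 := av_nonneg (n + 1) (0 + 1 - 1) (0 + 1)
      have k4 := av_nonneg (n + 1) (0 + 1) (0 + 1 - 1)
      have k5 := av_nonneg (n + 1) (0 + 1 + 1) (0 + 1 + 1)
      have k6 := av_nonneg (n + 1) (0 + 1 + 1) (0 + 1 - 1)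
      have k7 := av_nonneg (n + 1) (0 + 1 - 1) (0 + 1 + 1)
      have k8 : av (n + 1) (0 + 1) (0 + 1) = av (n + 1) 1 1 := rfl
      linarith
    rw [if_neg (by omega), zero_add] at h
    have h3 : 0 < (((n + 1 : ℕ) : ℝ) + 1) * av (n + 1 + 1) (0 + 1) (0 + 1) := by
      rw [h]; linarith
    have h4 : (0 : ℝ) < ((n + 1 : ℕ) : ℝ) + 1 := by positivity
    exact (pos_iff_pos_of_mul_pos h3).1 h4

theorem av_sup (m n : ℕ) (hm : 2 ≤ m) (hn : 2 ≤ n) :
    av (m - 1) 1 1 * av (n - 1) 1 1 ≤ (m + n : ℕ) * av (m + n - 1) 1 1 := by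
  obtain ⟨m, rfl⟩ := Nat.exists_eq_add_of_le' hm
  obtain ⟨n, rfl⟩ := Nat.exists_eq_add_of_le' hn
  have h := av_rec (m + n + 2) 0 0
  have e1 : m + 2 + (n + 2) - 1 = m + n + 2 + 1 := by omega
  rw [e1]
  have e2 : m + 2 - 1 = m + 1 := by omega
  have e3 : n + 2 - 1 = n + 1 := by omega
  rw [e2, e3]
  have h1 : av (m + 1) 1 1 * av (n + 1) 1 1 ≤
      ∑ a ∈ antidiagonal (m + n + 2), bil (av a.1) (av a.2) (0 + 1) (0 + 1) := by
    have h2 := single_le_sum (f := fun a : ℕ × ℕ => bil (av a.1) (av a.2) (0 + 1) (0 + 1))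
      (s := antidiagonal (m + n + 2))
      (fun a _ => bil_nonneg (fun p q => av_nonneg _ _ _) (fun p q => av_nonneg _ _ _) _ _)
      (a := (m + 1, n + 1)) (HasAntidiagonal.mem_antidiagonal.2 (by omega))
    refine le_trans (le_of_eq ?_) h2
    unfold bil; simp
  have h3 : 0 ≤ lin (av (m + n + 2)) (0 + 1) (0 + 1) := lin_nonneg (fun p q => av_nonneg _ _ _) _ _
  rw [if_neg (by omega)] at h
  have h4 := (av_pos (m + n + 2)).le
  have h5 : ((m + n + 2 : ℕ) : ℝ) + 1 ≤ ((m + 2 + (n + 2) : ℕ) : ℝ) := by push_cast; linarith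
  calc av (m + 1) 1 1 * av (n + 1) 1 1
      ≤ (((m + n + 2 : ℕ) : ℝ) + 1) * av (m + n + 2 + 1) 1 1 := by
        have : (((m + n + 2 : ℕ) : ℝ) + 1) * av (m + n + 2 + 1) 1 1 =
          lin (av (m + n + 2)) (0 + 1) (0 + 1) +
            ∑ a ∈ antidiagonal (m + n + 2), bil (av a.1) (av a.2) (0 + 1) (0 + 1) :=
          h.trans (by ring)
        rw [this]; linarith
    _ ≤ _ := mul_le_mul_of_nonneg_right h5 h4

theorem upper_of_uinv {w W0 D s b wR z g R0 C r v : ℕ} (hi : UInv w W0 D s b wR z g R0 C r)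
    (hD : 2 ≤ D) (hv : Nat.beq (dg w g (W0 + 1)) v = true) (N : ℕ) :
    av N 1 1 * ((z : ℝ) / 2 ^ 40) ^ N ≤ (v : ℝ) / 2 ^ s := by
  rw [← Nat.eq_of_beq_eq_true hv]
  have h := hi.ps N 1 1
  have h1 : full D (Gr w W0 s g) ((C : ℝ) / 2 ^ s) ((r : ℝ) / 2 ^ s) 1 1 =
      (dg w g (W0 + 1) : ℝ) / 2 ^ s := by
    unfold full
    rw [if_neg (by omega), if_pos (by omega)]
    unfold Gr
    rw [mul_one]
  rw [h1] at h
  refine le_trans ?_ h
  unfold PS
  exact single_le_sum (f := fun n => av n 1 1 * ((z : ℝ) / 2 ^ 40) ^ n)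
    (fun n _ => mul_nonneg (av_nonneg n 1 1) (by positivity)) (mem_range.2 (Nat.lt_succ_self N))

theorem lower_of_linv {w W0 D s b y a v : ℕ} (hi : LInv w W0 D s b y a) (hD : 2 ≤ D)
    (hv' : Nat.beq (dg w a (W0 + 1)) v = true) (hv0 : 0 < v) {Y : ℝ≥0}
    (hY : (y : ℝ≥0) / 2 ^ 40 + 11 / 10 / ((v : ℝ≥0) / 2 ^ s) ≤ Y) :
    ¬ Summable (fun n => av n 1 1 * (Y : ℝ) ^ n) := by
  have hv := Nat.eq_of_beq_eq_true hv'
  apply not_summable_of_top
  have h1 : Gl w W0 D s a 1 1 = (v : ℝ≥0) / 2 ^ s := by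
    unfold Gl gb
    rw [if_pos (by omega), mul_one, hv]
  have h := hi.le 1 1
  rw [h1] at h
  exact AE_top (by positivity) h hY

/-- The growth rate. -/
theorem growth {z B : ℝ} (hz : 0 < z) (hup : ∀ N, av N 1 1 * z ^ N ≤ B) {Y : ℝ} (hY : 0 < Y)
    (hlow : ¬ Summable (fun n => av n 1 1 * Y ^ n)) :
    ∃ L : ℝ, Tendsto (fun n : ℕ => deg n ^ ((1 : ℝ) / n)) atTop (𝓝 L) ∧ 1 / Y ≤ L ∧ L ≤ 1 / z := by
  have hB : 0 < B := by
    have h1 := hup 1
    have h2 := av_pos 0
    have h3 : 0 < av (0 + 1) 1 1 * z ^ 1 := by positivity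
    linarith
  set x : ℕ → ℝ := fun n => av (n - 1) 1 1 with hx
  have hpos : ∀ n, 2 ≤ n → 0 < x n := by
    intro n hn
    obtain ⟨m, rfl⟩ := Nat.exists_eq_add_of_le' hn
    exact av_pos m
  have hxup : ∀ n : ℕ, 1 ≤ n → x (n + 1) ≤ B * (1 / z) ^ n := by
    intro n _
    have h1 := hup n
    simp only [hx, Nat.add_sub_cancel]
    rw [one_div, inv_pow, ← div_eq_mul_inv, le_div_iff₀ (by positivity)]
    exact h1
  -- upper bound for logarithms
  have hlog : ∀ n : ℕ, 1 ≤ n → Real.log (x (n + 1)) ≤ Real.log B + n * Real.log (1 / z) := by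
    intro n hn
    have h1 := Real.log_le_log (hpos (n + 1) (by omega)) (hxup n hn)
    rwa [Real.log_mul hB.ne' (by positivity), Real.log_pow] at h1
  obtain ⟨Λ, hΛ⟩ := exists_lim x hpos (fun m n hm hn => av_sup m n hm hn)
    (B := |Real.log B| + |Real.log (1 / z)|) (by
      intro n hn
      obtain ⟨m, rfl⟩ := Nat.exists_eq_add_of_le' (show 1 ≤ n by omega)
      have h1 := hlog m (by omega)
      have hm0 : (0 : ℝ) < ((m + 1 : ℕ) : ℝ) := by positivity
      rw [div_le_iff₀ hm0]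
      have h2 := le_abs_self (Real.log B)
      have h3 := le_abs_self (Real.log (1 / z))
      have h4 := abs_nonneg (Real.log B)
      have h5 := abs_nonneg (Real.log (1 / z))
      have h6 : (0 : ℝ) ≤ m := by positivity
      push_cast
      nlinarith [mul_le_mul_of_nonneg_left h3 h6, mul_nonneg h6 h4])
  have hdeg : ∀ n : ℕ, 1 ≤ n → deg n = x (n + 1) := by
    intro n hn
    obtain ⟨m, rfl⟩ := Nat.exists_eq_add_of_le' hn
    rw [deg_eq_av]
    rfl
  have hn1 : Tendsto (fun n : ℕ => ((n : ℝ) + 1) / n) atTop (𝓝 1) := by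
    have h1 : Tendsto (fun n : ℕ => 1 + 1 / (n : ℝ)) atTop (𝓝 (1 + 0)) :=
      tendsto_const_nhds.add (tendsto_const_nhds.div_atTop tendsto_natCast_atTop_atTop)
    rw [add_zero] at h1
    refine h1.congr' ?_
    filter_upwards [eventually_gt_atTop 0] with n hn
    have hn0 : (n : ℝ) ≠ 0 := by exact_mod_cast hn.ne'
    field_simp
  have hlim : Tendsto (fun n : ℕ => Real.log (deg n) / n) atTop (𝓝 Λ) := by
    have h1 := ((tendsto_add_atTop_iff_nat 1).2 hΛ).mul hn1
    rw [mul_one] at h1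
    refine h1.congr' ?_
    filter_upwards [eventually_gt_atTop 0] with n hn
    have hn0 : (n : ℝ) ≠ 0 := by exact_mod_cast hn.ne'
    have hn1 : ((n : ℝ) + 1) ≠ 0 := by positivity
    rw [hdeg n hn]
    push_cast
    field_simp
  have hL : Tendsto (fun n : ℕ => deg n ^ ((1 : ℝ) / n)) atTop (𝓝 (Real.exp Λ)) := by
    refine ((Real.continuous_exp.tendsto Λ).comp hlim).congr' ?_
    filter_upwards [eventually_gt_atTop 0] with n hn
    have hd : 0 < deg n := by rw [hdeg n hn]; exact hpos _ (by omega)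
    rw [Function.comp_apply, Real.rpow_def_of_pos hd]
    congr 1
    ring
  refine ⟨Real.exp Λ, hL, ?_, ?_⟩
  · -- lower bound
    by_contra hcon
    push Not at hcon
    apply hlow
    obtain ⟨c, hc1, hc2⟩ := exists_between hcon
    have hc0 : 0 < c := (Real.exp_pos Λ).trans hc1
    have hev := hL.eventually (gt_mem_nhds hc1)
    have hcY : c * Y < 1 := by
      rw [lt_div_iff₀ hY] at hc2; exact hc2
    refine summable_of_isBigO_nat (summable_geometric_of_lt_one (by positivity) hcY) ?_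
    refine Asymptotics.IsBigO.of_bound 1 ?_
    filter_upwards [hev, eventually_gt_atTop 0] with n hn hn0
    have hd : 0 < deg n := by rw [hdeg n hn0]; exact hpos _ (by omega)
    have h1 : deg n ≤ c ^ n := by
      have h2 : (deg n ^ ((1 : ℝ) / n)) ^ n ≤ c ^ n :=
        pow_le_pow_left₀ (by positivity) hn.le n
      rw [← Real.rpow_natCast, ← Real.rpow_mul hd.le, one_div,
        inv_mul_cancel₀ (by exact_mod_cast hn0.ne'), Real.rpow_one] at h2
      exact h2
    have h3 : av n 1 1 = deg n := by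
      rw [hdeg n hn0]
      rfl
    rw [h3, one_mul, Real.norm_of_nonneg (by positivity), Real.norm_of_nonneg (by positivity),
      mul_pow]
    exact mul_le_mul_of_nonneg_right h1 (by positivity)
  · -- upper bound
    have h1 : Λ ≤ Real.log (1 / z) := by
      have h2 : Tendsto (fun n : ℕ => Real.log B / n + Real.log (1 / z)) atTop
          (𝓝 (0 + Real.log (1 / z))) :=
        (tendsto_const_nhds.div_atTop tendsto_natCast_atTop_atTop).add tendsto_const_nhds
      rw [zero_add] at h2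
      refine le_of_tendsto_of_tendsto hlim h2 ?_
      filter_upwards [eventually_gt_atTop 0] with n hn
      have hn0 : (0 : ℝ) < n := by exact_mod_cast hn
      rw [hdeg n hn, div_add' _ _ _ hn0.ne']
      refine div_le_div_of_nonneg_right ?_ hn0.le
      have := hlog n hn
      linarith
    calc Real.exp Λ ≤ Real.exp (Real.log (1 / z)) := Real.exp_le_exp.2 h1
      _ = 1 / z := Real.exp_log (by positivity)

end Pool.Agent.H97.SS
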