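import Pool.Agent.H97.SS.LRun
import Pool.Agent.H97.SS.LAStates

/-!
Segments of the lower run.
-/

namespace Pool.Agent.H97.SS.LA

/-- all segments of this file, checked one after the other -/
theorem runs1 :
    (lseg 512 30 14 64 226 (Lsched.cons 25 122881415 0 80863 (Lsched.cons 25 120875891 0 80203 (Lsched.cons 25 118886864 0 79543 (Lsched.cons 25 116914335 0 78883 Lsched.nil)))) 312888264970 a10 336674495020 a11 = true) ∧
    (lseg 512 30 14 64 226 (Lsched.cons 25 114958305 0 78223 (Lsched.cons 25 113018774 0 77563 (Lsched.cons 25 111095742 0 76903 (Lsched.cons 25 109189209 0 76244 Lsched.nil)))) 336674495020 a11 358902236720 a12 = true) ∧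
    (lseg 512 30 14 64 226 (Lsched.cons 25 107299175 0 75584 (Lsched.cons 25 105425640 0 74924 (Lsched.cons 25 103568605 0 74264 (Lsched.cons 25 101728069 0 73604 Lsched.nil)))) 358902236720 a12 379624285570 a13 = true) ∧
    (lseg 512 30 14 64 226 (Lsched.cons 25 99904033 0 72944 (Lsched.cons 25 98096497 0 72284 (Lsched.cons 25 96305460 0 71624 (Lsched.cons 25 94530922 0 70964 Lsched.nil)))) 379624285570 a13 398893441570 a14 = true) ∧
    (lseg 512 30 14 64 226 (Lsched.cons 25 92772885 0 70304 (Lsched.cons 25 91031347 0 69644 (Lsched.cons 25 89306309 0 68985 (Lsched.cons 25 87597771 0 68325 Lsched.nil)))) 398893441570 a14 416762502370 a15 = true) ∧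
    (lseg 512 30 14 64 226 (Lsched.cons 25 85905732 0 67665 (Lsched.cons 25 84230194 0 67005 (Lsched.cons 25 82571155 0 66345 (Lsched.cons 25 80928617 0 65685 Lsched.nil)))) 416762502370 a15 433284267270 a16 = true) ∧
    (lseg 512 30 14 64 226 (Lsched.cons 25 79302578 0 65025 (Lsched.cons 25 77693039 0 64365 (Lsched.cons 25 76100000 0 63705 (Lsched.cons 25 74523461 0 63045 Lsched.nil)))) 433284267270 a16 448511537170 a17 = true) ∧
    (lseg 512 30 14 64 226 (Lsched.cons 25 72963423 0 62386 (Lsched.cons 25 71419884 0 61726 (Lsched.cons 25 69892846 0 61066 (Lsched.cons 25 68382308 0 60406 Lsched.nil)))) 448511537170 a17 462497109820 a18 = true) ∧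
    (lseg 512 30 14 64 226 (Lsched.cons 25 66888270 0 59746 (Lsched.cons 25 65410732 0 59086 (Lsched.cons 25 63949694 0 58426 (Lsched.cons 25 62505156 0 57766 Lsched.nil)))) 462497109820 a18 475293788020 a19 = true) ∧
    (lseg 512 30 14 64 226 (Lsched.cons 25 61077119 0 57106 (Lsched.cons 25 59665582 0 56447 (Lsched.cons 25 58270546 0 55787 (Lsched.cons 25 56892010 0 55127 Lsched.nil)))) 475293788020 a19 486954370670 a20 = true) := by
  refine ⟨?_, ?_, ?_, ?_, ?_, ?_, ?_, ?_, ?_, ?_⟩
  · decide +kernel
  · decide +kernel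
  · decide +kernel
  · decide +kernel
  · decide +kernel
  · decide +kernel
  · decide +kernel
  · decide +kernel
  · decide +kernel
  · decide +kernel

theorem run10 : lseg 512 30 14 64 226 (Lsched.cons 25 122881415 0 80863 (Lsched.cons 25 120875891 0 80203 (Lsched.cons 25 118886864 0 79543 (Lsched.cons 25 116914335 0 78883 Lsched.nil)))) 312888264970 a10 336674495020 a11 = true :=
  runs1.1

theorem run11 : lseg 512 30 14 64 226 (Lsched.cons 25 114958305 0 78223 (Lsched.cons 25 113018774 0 77563 (Lsched.cons 25 111095742 0 76903 (Lsched.cons 25 109189209 0 76244 Lsched.nil)))) 336674495020 a11 358902236720 a12 = true :=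
  runs1.2.1

theorem run12 : lseg 512 30 14 64 226 (Lsched.cons 25 107299175 0 75584 (Lsched.cons 25 105425640 0 74924 (Lsched.cons 25 103568605 0 74264 (Lsched.cons 25 101728069 0 73604 Lsched.nil)))) 358902236720 a12 379624285570 a13 = true :=
  runs1.2.2.1

theorem run13 : lseg 512 30 14 64 226 (Lsched.cons 25 99904033 0 72944 (Lsched.cons 25 98096497 0 72284 (Lsched.cons 25 96305460 0 71624 (Lsched.cons 25 94530922 0 70964 Lsched.nil)))) 379624285570 a13 398893441570 a14 = true :=
  runs1.2.2.2.1

theorem run14 : lseg 512 30 14 64 226 (Lsched.cons 25 92772885 0 70304 (Lsched.cons 25 91031347 0 69644 (Lsched.cons 25 89306309 0 68985 (Lsched.cons 25 87597771 0 68325 Lsched.nil)))) 398893441570 a14 416762502370 a15 = true :=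
  runs1.2.2.2.2.1

theorem run15 : lseg 512 30 14 64 226 (Lsched.cons 25 85905732 0 67665 (Lsched.cons 25 84230194 0 67005 (Lsched.cons 25 82571155 0 66345 (Lsched.cons 25 80928617 0 65685 Lsched.nil)))) 416762502370 a15 433284267270 a16 = true :=
  runs1.2.2.2.2.2.1

theorem run16 : lseg 512 30 14 64 226 (Lsched.cons 25 79302578 0 65025 (Lsched.cons 25 77693039 0 64365 (Lsched.cons 25 76100000 0 63705 (Lsched.cons 25 74523461 0 63045 Lsched.nil)))) 433284267270 a16 448511537170 a17 = true :=
  runs1.2.2.2.2.2.2.1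

theorem run17 : lseg 512 30 14 64 226 (Lsched.cons 25 72963423 0 62386 (Lsched.cons 25 71419884 0 61726 (Lsched.cons 25 69892846 0 61066 (Lsched.cons 25 68382308 0 60406 Lsched.nil)))) 448511537170 a17 462497109820 a18 = true :=
  runs1.2.2.2.2.2.2.2.1

theorem run18 : lseg 512 30 14 64 226 (Lsched.cons 25 66888270 0 59746 (Lsched.cons 25 65410732 0 59086 (Lsched.cons 25 63949694 0 58426 (Lsched.cons 25 62505156 0 57766 Lsched.nil)))) 462497109820 a18 475293788020 a19 = true :=
  runs1.2.2.2.2.2.2.2.2.1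

theorem run19 : lseg 512 30 14 64 226 (Lsched.cons 25 61077119 0 57106 (Lsched.cons 25 59665582 0 56447 (Lsched.cons 25 58270546 0 55787 (Lsched.cons 25 56892010 0 55127 Lsched.nil)))) 475293788020 a19 486954370670 a20 = true :=
  runs1.2.2.2.2.2.2.2.2.2

end Pool.Agent.H97.SS.LA
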