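import Pool.Agent.H97.SS.LRun
import Pool.Agent.H97.SS.LAStates

/-!
Segments of the lower run.
-/

namespace Pool.Agent.H97.SS.LA

/-- all segments of this file, checked one after the other -/
theorem runs2 :
    (lseg 512 30 14 64 226 (Lsched.cons 25 55529974 0 54467 (Lsched.cons 25 54184439 0 53807 (Lsched.cons 25 52855404 0 53147 (Lsched.cons 25 51542870 0 52487 Lsched.nil)))) 486954370670 a20 497531660220 a21 = true) ∧
    (lseg 512 30 14 64 226 (Lsched.cons 25 50246836 0 51827 (Lsched.cons 25 48967303 0 51168 (Lsched.cons 25 47704271 0 50508 (Lsched.cons 25 46457739 0 49848 Lsched.nil)))) 497531660220 a21 507078457070 a22 = true) ∧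
    (lseg 512 30 14 64 226 (Lsched.cons 25 45227709 0 49188 (Lsched.cons 25 44014179 0 48528 (Lsched.cons 25 42817150 0 47868 (Lsched.cons 25 41636622 0 47208 Lsched.nil)))) 507078457070 a22 515647564870 a23 = true) ∧
    (lseg 512 30 14 64 226 (Lsched.cons 25 40472595 0 46549 (Lsched.cons 25 39325069 0 45889 (Lsched.cons 25 38194044 0 45229 (Lsched.cons 25 37079521 0 44569 Lsched.nil)))) 515647564870 a23 523291784720 a24 = true) ∧
    (lseg 512 30 14 64 226 (Lsched.cons 25 35981499 0 43909 (Lsched.cons 25 34899978 0 43249 (Lsched.cons 25 33834958 0 42590 (Lsched.cons 25 32786441 0 41930 Lsched.nil)))) 523291784720 a24 530063921720 a25 = true) ∧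
    (lseg 512 30 14 64 226 (Lsched.cons 25 31754425 0 41270 (Lsched.cons 25 30738910 0 40610 (Lsched.cons 25 29739898 0 39950 (Lsched.cons 25 28757387 0 39291 Lsched.nil)))) 530063921720 a25 536016780120 a26 = true) ∧
    (lseg 512 30 14 64 226 (Lsched.cons 25 27791379 0 38631 (Lsched.cons 25 26841873 0 37971 (Lsched.cons 25 25908868 0 37311 (Lsched.cons 25 24992367 0 36651 Lsched.nil)))) 536016780120 a26 541203166070 a27 = true) ∧
    (lseg 512 30 14 64 226 (Lsched.cons 25 24092367 0 35992 (Lsched.cons 25 23208871 0 35332 (Lsched.cons 25 22341878 0 34672 (Lsched.cons 25 21491387 0 34012 Lsched.nil)))) 541203166070 a27 545675886420 a28 = true) ∧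
    (lseg 512 30 14 64 226 (Lsched.cons 25 20657399 0 33353 (Lsched.cons 25 19839915 0 32693 (Lsched.cons 25 19038935 0 32033 (Lsched.cons 25 18254458 0 31374 Lsched.nil)))) 545675886420 a28 549487749970 a29 = true) ∧
    (lseg 512 30 14 64 226 (Lsched.cons 25 17486485 0 30714 (Lsched.cons 25 16735016 0 30054 (Lsched.cons 25 16000051 0 29394 (Lsched.cons 25 15281591 0 28735 Lsched.nil)))) 549487749970 a29 552691568920 a30 = true) := by
  refine ⟨?_, ?_, ?_, ?_, ?_, ?_, ?_, ?_, ?_, ?_⟩
  · decide +kernel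
  · decide +kernel
  · decide +kernel
  · decide +kernel
  · decide +kernel
  · decide +kernel
  · decide +kernel
  · decide +kernel
  · decide +kernel
  · decide +kernel

theorem run20 : lseg 512 30 14 64 226 (Lsched.cons 25 55529974 0 54467 (Lsched.cons 25 54184439 0 53807 (Lsched.cons 25 52855404 0 53147 (Lsched.cons 25 51542870 0 52487 Lsched.nil)))) 486954370670 a20 497531660220 a21 = true :=
  runs2.1

theorem run21 : lseg 512 30 14 64 226 (Lsched.cons 25 50246836 0 51827 (Lsched.cons 25 48967303 0 51168 (Lsched.cons 25 47704271 0 50508 (Lsched.cons 25 46457739 0 49848 Lsched.nil)))) 497531660220 a21 507078457070 a22 = true :=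
  runs2.2.1

theorem run22 : lseg 512 30 14 64 226 (Lsched.cons 25 45227709 0 49188 (Lsched.cons 25 44014179 0 48528 (Lsched.cons 25 42817150 0 47868 (Lsched.cons 25 41636622 0 47208 Lsched.nil)))) 507078457070 a22 515647564870 a23 = true :=
  runs2.2.2.1

theorem run23 : lseg 512 30 14 64 226 (Lsched.cons 25 40472595 0 46549 (Lsched.cons 25 39325069 0 45889 (Lsched.cons 25 38194044 0 45229 (Lsched.cons 25 37079521 0 44569 Lsched.nil)))) 515647564870 a23 523291784720 a24 = true :=
  runs2.2.2.2.1

theorem run24 : lseg 512 30 14 64 226 (Lsched.cons 25 35981499 0 43909 (Lsched.cons 25 34899978 0 43249 (Lsched.cons 25 33834958 0 42590 (Lsched.cons 25 32786441 0 41930 Lsched.nil)))) 523291784720 a24 530063921720 a25 = true :=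
  runs2.2.2.2.2.1

theorem run25 : lseg 512 30 14 64 226 (Lsched.cons 25 31754425 0 41270 (Lsched.cons 25 30738910 0 40610 (Lsched.cons 25 29739898 0 39950 (Lsched.cons 25 28757387 0 39291 Lsched.nil)))) 530063921720 a25 536016780120 a26 = true :=
  runs2.2.2.2.2.2.1

theorem run26 : lseg 512 30 14 64 226 (Lsched.cons 25 27791379 0 38631 (Lsched.cons 25 26841873 0 37971 (Lsched.cons 25 25908868 0 37311 (Lsched.cons 25 24992367 0 36651 Lsched.nil)))) 536016780120 a26 541203166070 a27 = true :=
  runs2.2.2.2.2.2.2.1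

theorem run27 : lseg 512 30 14 64 226 (Lsched.cons 25 24092367 0 35992 (Lsched.cons 25 23208871 0 35332 (Lsched.cons 25 22341878 0 34672 (Lsched.cons 25 21491387 0 34012 Lsched.nil)))) 541203166070 a27 545675886420 a28 = true :=
  runs2.2.2.2.2.2.2.2.1

theorem run28 : lseg 512 30 14 64 226 (Lsched.cons 25 20657399 0 33353 (Lsched.cons 25 19839915 0 32693 (Lsched.cons 25 19038935 0 32033 (Lsched.cons 25 18254458 0 31374 Lsched.nil)))) 545675886420 a28 549487749970 a29 = true :=
  runs2.2.2.2.2.2.2.2.2.1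

theorem run29 : lseg 512 30 14 64 226 (Lsched.cons 25 17486485 0 30714 (Lsched.cons 25 16735016 0 30054 (Lsched.cons 25 16000051 0 29394 (Lsched.cons 25 15281591 0 28735 Lsched.nil)))) 549487749970 a29 552691568920 a30 = true :=
  runs2.2.2.2.2.2.2.2.2.2

end Pool.Agent.H97.SS.LA
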