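import Pool.Agent.H97.SS.LRun
import Pool.Agent.H97.SS.LAStates

/-!
Segments of the lower run.
-/

namespace Pool.Agent.H97.SS.LA

/-- all segments of this file, checked one after the other -/
theorem runs3 :
    (lseg 512 30 14 64 226 (Lsched.cons 25 14579636 0 28075 (Lsched.cons 25 13894186 0 27416 (Lsched.cons 25 14570954 0 28067 (Lsched.cons 25 13717638 0 27243 Lsched.nil)))) 552691568920 a30 555463209020 a31 = true) ∧
    (lseg 512 30 14 64 226 (Lsched.cons 25 12898181 0 26427 (Lsched.cons 25 12111545 0 25620 (Lsched.cons 25 11356744 0 24820 (Lsched.cons 25 10632843 0 24027 Lsched.nil)))) 555463209020 a31 557752638270 a32 = true) ∧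
    (lseg 512 30 14 64 226 (Lsched.cons 25 9938952 0 23242 (Lsched.cons 25 9274230 0 22463 (Lsched.cons 25 8637872 0 21691 (Lsched.cons 25 8029117 0 20926 Lsched.nil)))) 557752638270 a32 559493653620 a33 = true) ∧
    (lseg 512 30 14 64 226 (Lsched.cons 25 7447242 0 20166 (Lsched.cons 25 6891556 0 19413 (Lsched.cons 25 6361406 0 18666 (Lsched.cons 25 5856168 0 17924 Lsched.nil)))) 559493653620 a33 560775770820 a34 = true) ∧
    (lseg 512 30 14 64 226 (Lsched.cons 25 5375251 0 17187 (Lsched.cons 25 4918089 0 16456 (Lsched.cons 25 4484148 0 15730 (Lsched.cons 25 4072919 0 15009 Lsched.nil)))) 560775770820 a34 561679661970 a35 = true) ∧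
    (lseg 512 30 14 64 226 (Lsched.cons 25 3683918 0 14292 (Lsched.cons 25 3316685 0 13581 (Lsched.cons 24 2970783 0 12858 (Lsched.cons 23 2658385 0 12168 Lsched.nil)))) 561679661970 a35 562264596990 a36 = true) ∧
    (lseg 512 30 14 64 226 (Lsched.cons 22 2376744 0 11509 (Lsched.cons 21 2123312 0 10881 (Lsched.cons 19 1895724 0 10268 (Lsched.cons 18 1701667 0 9729 (Lsched.cons 18 1528091 0 9233 Lsched.nil))))) 562264596990 a36 562627460424 a37 = true) ∧
    (lseg 512 30 14 64 226 (Lsched.cons 17 1364408 0 8725 (Lsched.cons 16 1218774 0 11158 (Lsched.cons 16 1047738 0 10478 (Lsched.cons 16 888048 0 8881 (Lsched.cons 16 753016 0 7531 (Lsched.cons 15 638766 0 6388 Lsched.nil)))))) 562627460424 a37 562805209508 a38 = true) ∧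
    (lseg 512 30 14 64 226 (Lsched.cons 15 547593 0 5476 (Lsched.cons 16 469568 0 4696 (Lsched.cons 16 398700 0 3987 (Lsched.cons 16 338622 0 3387 (Lsched.cons 16 287671 0 2877 (Lsched.cons 16 244443 0 2445 Lsched.nil)))))) 562805209508 a38 562871961386 a39 = true) ∧
    (lseg 512 30 14 64 226 (Lsched.cons 15 207756 0 2078 (Lsched.cons 16 178398 0 1784 (Lsched.cons 16 151679 0 1517 (Lsched.cons 15 128983 0 1290 (Lsched.cons 15 110807 0 1109 (Lsched.cons 16 95206 0 953 Lsched.nil)))))) 562871961386 a39 562897035692 a40 = true) := by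
  refine ⟨?_, ?_, ?_, ?_, ?_, ?_, ?_, ?_, ?_, ?_⟩
  · decide +kernel
  · decide +kernel
  · decide +kernel
  · decide +kernel
  · decide +kernel
  · decide +kernel
  · decide +kernel
  · decide +kernel
  · decide +kernel
  · decide +kernel

theorem run30 : lseg 512 30 14 64 226 (Lsched.cons 25 14579636 0 28075 (Lsched.cons 25 13894186 0 27416 (Lsched.cons 25 14570954 0 28067 (Lsched.cons 25 13717638 0 27243 Lsched.nil)))) 552691568920 a30 555463209020 a31 = true :=
  runs3.1

theorem run31 : lseg 512 30 14 64 226 (Lsched.cons 25 12898181 0 26427 (Lsched.cons 25 12111545 0 25620 (Lsched.cons 25 11356744 0 24820 (Lsched.cons 25 10632843 0 24027 Lsched.nil)))) 555463209020 a31 557752638270 a32 = true :=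
  runs3.2.1

theorem run32 : lseg 512 30 14 64 226 (Lsched.cons 25 9938952 0 23242 (Lsched.cons 25 9274230 0 22463 (Lsched.cons 25 8637872 0 21691 (Lsched.cons 25 8029117 0 20926 Lsched.nil)))) 557752638270 a32 559493653620 a33 = true :=
  runs3.2.2.1

theorem run33 : lseg 512 30 14 64 226 (Lsched.cons 25 7447242 0 20166 (Lsched.cons 25 6891556 0 19413 (Lsched.cons 25 6361406 0 18666 (Lsched.cons 25 5856168 0 17924 Lsched.nil)))) 559493653620 a33 560775770820 a34 = true :=
  runs3.2.2.2.1

theorem run34 : lseg 512 30 14 64 226 (Lsched.cons 25 5375251 0 17187 (Lsched.cons 25 4918089 0 16456 (Lsched.cons 25 4484148 0 15730 (Lsched.cons 25 4072919 0 15009 Lsched.nil)))) 560775770820 a34 561679661970 a35 = true :=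
  runs3.2.2.2.2.1

theorem run35 : lseg 512 30 14 64 226 (Lsched.cons 25 3683918 0 14292 (Lsched.cons 25 3316685 0 13581 (Lsched.cons 24 2970783 0 12858 (Lsched.cons 23 2658385 0 12168 Lsched.nil)))) 561679661970 a35 562264596990 a36 = true :=
  runs3.2.2.2.2.2.1

theorem run36 : lseg 512 30 14 64 226 (Lsched.cons 22 2376744 0 11509 (Lsched.cons 21 2123312 0 10881 (Lsched.cons 19 1895724 0 10268 (Lsched.cons 18 1701667 0 9729 (Lsched.cons 18 1528091 0 9233 Lsched.nil))))) 562264596990 a36 562627460424 a37 = true :=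
  runs3.2.2.2.2.2.2.1

theorem run37 : lseg 512 30 14 64 226 (Lsched.cons 17 1364408 0 8725 (Lsched.cons 16 1218774 0 11158 (Lsched.cons 16 1047738 0 10478 (Lsched.cons 16 888048 0 8881 (Lsched.cons 16 753016 0 7531 (Lsched.cons 15 638766 0 6388 Lsched.nil)))))) 562627460424 a37 562805209508 a38 = true :=
  runs3.2.2.2.2.2.2.2.1

theorem run38 : lseg 512 30 14 64 226 (Lsched.cons 15 547593 0 5476 (Lsched.cons 16 469568 0 4696 (Lsched.cons 16 398700 0 3987 (Lsched.cons 16 338622 0 3387 (Lsched.cons 16 287671 0 2877 (Lsched.cons 16 244443 0 2445 Lsched.nil)))))) 562805209508 a38 562871961386 a39 = true :=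
  runs3.2.2.2.2.2.2.2.2.1

theorem run39 : lseg 512 30 14 64 226 (Lsched.cons 15 207756 0 2078 (Lsched.cons 16 178398 0 1784 (Lsched.cons 16 151679 0 1517 (Lsched.cons 15 128983 0 1290 (Lsched.cons 15 110807 0 1109 (Lsched.cons 16 95206 0 953 Lsched.nil)))))) 562871961386 a39 562897035692 a40 = true :=
  runs3.2.2.2.2.2.2.2.2.2

end Pool.Agent.H97.SS.LA
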