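import Pool.Agent.H97.SS.LRun
import Pool.Agent.H97.SS.LAStates

/-!
Segments of the lower run.
-/

namespace Pool.Agent.H97.SS.LA

/-- all segments of this file, checked one after the other -/
theorem runs4 :
    (lseg 512 30 14 64 226 (Lsched.cons 16 80995 0 810 (Lsched.cons 15 68912 0 690 (Lsched.cons 15 59229 0 593 (Lsched.cons 16 50912 0 510 (Lsched.cons 16 43331 0 434 (Lsched.cons 15 36882 0 369 Lsched.nil)))))) 562897035692 a40 562906826118 a41 = true) ∧
    (lseg 512 30 14 64 226 (Lsched.cons 15 31710 0 318 (Lsched.cons 16 27266 0 273 (Lsched.cons 16 23213 0 233 (Lsched.cons 15 19765 0 198 (Lsched.cons 15 16997 0 170 (Lsched.cons 15 14618 0 147 Lsched.nil)))))) 562906826118 a41 562910637776 a42 = true) ∧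
    (lseg 512 30 14 64 226 (Lsched.cons 15 12573 0 126 (Lsched.cons 15 10815 0 109 (Lsched.cons 16 9303 0 94 (Lsched.cons 15 7924 0 80 (Lsched.cons 15 6816 0 69 (Lsched.cons 15 5865 0 59 Lsched.nil)))))) 562910637776 a42 562912139672 a43 = true) ∧
    (lseg 512 30 14 64 226 (Lsched.cons 16 5045 0 51 (Lsched.cons 16 4298 0 43 (Lsched.cons 13 3661 0 37 Lsched.nil))) 562912139672 a43 562912505502 a44 = true) := by
  refine ⟨?_, ?_, ?_, ?_⟩
  · decide +kernel
  · decide +kernel
  · decide +kernel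
  · decide +kernel

theorem run40 : lseg 512 30 14 64 226 (Lsched.cons 16 80995 0 810 (Lsched.cons 15 68912 0 690 (Lsched.cons 15 59229 0 593 (Lsched.cons 16 50912 0 510 (Lsched.cons 16 43331 0 434 (Lsched.cons 15 36882 0 369 Lsched.nil)))))) 562897035692 a40 562906826118 a41 = true :=
  runs4.1

theorem run41 : lseg 512 30 14 64 226 (Lsched.cons 15 31710 0 318 (Lsched.cons 16 27266 0 273 (Lsched.cons 16 23213 0 233 (Lsched.cons 15 19765 0 198 (Lsched.cons 15 16997 0 170 (Lsched.cons 15 14618 0 147 Lsched.nil)))))) 562906826118 a41 562910637776 a42 = true :=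
  runs4.2.1

theorem run42 : lseg 512 30 14 64 226 (Lsched.cons 15 12573 0 126 (Lsched.cons 15 10815 0 109 (Lsched.cons 16 9303 0 94 (Lsched.cons 15 7924 0 80 (Lsched.cons 15 6816 0 69 (Lsched.cons 15 5865 0 59 Lsched.nil)))))) 562910637776 a42 562912139672 a43 = true :=
  runs4.2.2.1

theorem run43 : lseg 512 30 14 64 226 (Lsched.cons 16 5045 0 51 (Lsched.cons 16 4298 0 43 (Lsched.cons 13 3661 0 37 Lsched.nil))) 562912139672 a43 562912505502 a44 = true :=
  runs4.2.2.2

end Pool.Agent.H97.SS.LA
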