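import Pool.Agent.H97.SS.LRun
import Pool.Agent.H97.SS.LARun0
import Pool.Agent.H97.SS.LARun1
import Pool.Agent.H97.SS.LARun2
import Pool.Agent.H97.SS.LARun3
import Pool.Agent.H97.SS.LARun4

/-!
The lower run: conclusion.
-/

namespace Pool.Agent.H97.SS.LA

theorem par : Par 512 30 14 64 226 476 :=
  ⟨by norm_num, by norm_num, by norm_num, by norm_num, by norm_num, by decide +kernel, by norm_num,
    by norm_num⟩

theorem inv0 : LInv 512 30 14 64 226 0 a0 := linv_zero 512 30 14 64 226

theorem inv1 : LInv 512 30 14 64 226 26547009910 a1 :=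
  lseg_sound par inv0 run0

theorem inv2 : LInv 512 30 14 64 226 66036333540 a2 :=
  lseg_sound par inv1 run1

theorem inv3 : LInv 512 30 14 64 226 98318942870 a3 :=
  lseg_sound par inv2 run2

theorem inv4 : LInv 512 30 14 64 226 134487873520 a4 :=
  lseg_sound par inv3 run3

theorem inv5 : LInv 512 30 14 64 226 168732490870 a5 :=
  lseg_sound par inv4 run4

theorem inv6 : LInv 512 30 14 64 226 201102715870 a6 :=
  lseg_sound par inv5 run5

theorem inv7 : LInv 512 30 14 64 226 231650733270 a7 :=
  lseg_sound par inv6 run6

theorem inv8 : LInv 512 30 14 64 226 260429165420 a8 :=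
  lseg_sound par inv7 run7

theorem inv9 : LInv 512 30 14 64 226 287490750820 a9 :=
  lseg_sound par inv8 run8

theorem inv10 : LInv 512 30 14 64 226 312888264970 a10 :=
  lseg_sound par inv9 run9

theorem inv11 : LInv 512 30 14 64 226 336674495020 a11 :=
  lseg_sound par inv10 run10

theorem inv12 : LInv 512 30 14 64 226 358902236720 a12 :=
  lseg_sound par inv11 run11

theorem inv13 : LInv 512 30 14 64 226 379624285570 a13 :=
  lseg_sound par inv12 run12

theorem inv14 : LInv 512 30 14 64 226 398893441570 a14 :=
  lseg_sound par inv13 run13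

theorem inv15 : LInv 512 30 14 64 226 416762502370 a15 :=
  lseg_sound par inv14 run14

theorem inv16 : LInv 512 30 14 64 226 433284267270 a16 :=
  lseg_sound par inv15 run15

theorem inv17 : LInv 512 30 14 64 226 448511537170 a17 :=
  lseg_sound par inv16 run16

theorem inv18 : LInv 512 30 14 64 226 462497109820 a18 :=
  lseg_sound par inv17 run17

theorem inv19 : LInv 512 30 14 64 226 475293788020 a19 :=
  lseg_sound par inv18 run18

theorem inv20 : LInv 512 30 14 64 226 486954370670 a20 :=
  lseg_sound par inv19 run19

theorem inv21 : LInv 512 30 14 64 226 497531660220 a21 :=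
  lseg_sound par inv20 run20

theorem inv22 : LInv 512 30 14 64 226 507078457070 a22 :=
  lseg_sound par inv21 run21

theorem inv23 : LInv 512 30 14 64 226 515647564870 a23 :=
  lseg_sound par inv22 run22

theorem inv24 : LInv 512 30 14 64 226 523291784720 a24 :=
  lseg_sound par inv23 run23

theorem inv25 : LInv 512 30 14 64 226 530063921720 a25 :=
  lseg_sound par inv24 run24

theorem inv26 : LInv 512 30 14 64 226 536016780120 a26 :=
  lseg_sound par inv25 run25

theorem inv27 : LInv 512 30 14 64 226 541203166070 a27 :=
  lseg_sound par inv26 run26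

theorem inv28 : LInv 512 30 14 64 226 545675886420 a28 :=
  lseg_sound par inv27 run27

theorem inv29 : LInv 512 30 14 64 226 549487749970 a29 :=
  lseg_sound par inv28 run28

theorem inv30 : LInv 512 30 14 64 226 552691568920 a30 :=
  lseg_sound par inv29 run29

theorem inv31 : LInv 512 30 14 64 226 555463209020 a31 :=
  lseg_sound par inv30 run30

theorem inv32 : LInv 512 30 14 64 226 557752638270 a32 :=
  lseg_sound par inv31 run31

theorem inv33 : LInv 512 30 14 64 226 559493653620 a33 :=
  lseg_sound par inv32 run32

theorem inv34 : LInv 512 30 14 64 226 560775770820 a34 :=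
  lseg_sound par inv33 run33

theorem inv35 : LInv 512 30 14 64 226 561679661970 a35 :=
  lseg_sound par inv34 run34

theorem inv36 : LInv 512 30 14 64 226 562264596990 a36 :=
  lseg_sound par inv35 run35

theorem inv37 : LInv 512 30 14 64 226 562627460424 a37 :=
  lseg_sound par inv36 run36

theorem inv38 : LInv 512 30 14 64 226 562805209508 a38 :=
  lseg_sound par inv37 run37

theorem inv39 : LInv 512 30 14 64 226 562871961386 a39 :=
  lseg_sound par inv38 run38

theorem inv40 : LInv 512 30 14 64 226 562897035692 a40 :=
  lseg_sound par inv39 run39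

theorem inv41 : LInv 512 30 14 64 226 562906826118 a41 :=
  lseg_sound par inv40 run40

theorem inv42 : LInv 512 30 14 64 226 562910637776 a42 :=
  lseg_sound par inv41 run41

theorem inv43 : LInv 512 30 14 64 226 562912139672 a43 :=
  lseg_sound par inv42 run42

theorem inv44 : LInv 512 30 14 64 226 562912505502 a44 :=
  lseg_sound par inv43 run43

theorem dig : Nat.beq (dg 512 a44 (30 + 1)) 15778512850760566509552505 = true := by
  decide +kernel

end Pool.Agent.H97.SS.LA
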