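import Mathlib

/-!
Existence of the growth rate of an almost supermultiplicative sequence.
-/

namespace Pool.Agent.H97.SS

open Filter Topology Finset

theorem half_step {q : ℕ} (hq : 2 ≤ q) : (q : ℝ) ^ 3 ≤ 18 * ((q / 2 : ℕ) : ℝ) ^ 2 * ((q - q / 2 : ℕ) : ℝ) ^ 2 := by
  have h1 : (q : ℝ) ≤ 3 * ((q / 2 : ℕ) : ℝ) := by
    have : q ≤ 3 * (q / 2) := by omega
    exact_mod_cast this
  have h2 : (q : ℝ) ≤ 2 * ((q - q / 2 : ℕ) : ℝ) := by
    have : q ≤ 2 * (q - q / 2) := by omega
    exact_mod_cast this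
  have h3 : (2 : ℝ) ≤ q := by exact_mod_cast hq
  set a := ((q / 2 : ℕ) : ℝ)
  set c := ((q - q / 2 : ℕ) : ℝ)
  have h4 : (q : ℝ) ^ 2 ≤ 9 * a ^ 2 := by nlinarith
  have h5 : (q : ℝ) ^ 2 ≤ 4 * c ^ 2 := by nlinarith
  have h6 : (q : ℝ) ^ 2 * (q : ℝ) ^ 2 ≤ (9 * a ^ 2) * (4 * c ^ 2) :=
    mul_le_mul h4 h5 (by positivity) (by positivity)
  have h7 : 2 * (q : ℝ) ^ 3 ≤ (q : ℝ) ^ 2 * (q : ℝ) ^ 2 := by
    have : (q : ℝ) ^ 2 * (q : ℝ) ^ 2 - 2 * (q : ℝ) ^ 3 = (q : ℝ) ^ 3 * (q - 2) := by ring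
    have h8 : 0 ≤ (q : ℝ) ^ 3 * (q - 2) := mul_nonneg (by positivity) (by linarith)
    linarith
  nlinarith

/-- Powers under almost supermultiplicativity. -/
theorem pow_bound (x : ℕ → ℝ) (hpos : ∀ n, 2 ≤ n → 0 < x n)
    (hsup : ∀ m n, 2 ≤ m → 2 ≤ n → x m * x n ≤ (m + n : ℕ) * x (m + n)) {m : ℕ} (hm : 2 ≤ m)
    (q : ℕ) (hq : 1 ≤ q) : (x m) ^ q * (q : ℝ) ^ 2 ≤ (18 * (m : ℝ)) ^ (q - 1) * x (q * m) := by
  induction q using Nat.strong_induction_on with
  | _ q ih =>
    rcases Nat.lt_or_ge q 2 with h | h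
    · have : q = 1 := by omega
      subst this
      simp
    · have ha := ih (q / 2) (by omega) (by omega)
      have hc := ih (q - q / 2) (by omega) (by omega)
      have hxm := hpos m hm
      have e1 : (q / 2) * m + (q - q / 2) * m = q * m := by
        rw [← add_mul]; congr 1; omega
      have hA : 2 ≤ (q / 2) * m := by nlinarith [Nat.div_pos h (by norm_num : 0 < 2)]
      have hC : 2 ≤ (q - q / 2) * m := by
        have : 1 ≤ q - q / 2 := by omega
        nlinarith
      have h1 := hsup _ _ hA hC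
      rw [e1] at h1
      have h2 := mul_le_mul ha hc (by positivity)
        (mul_nonneg (by positivity) (hpos _ hA).le)
      have h3 := half_step h
      set a := ((q / 2 : ℕ) : ℝ)
      set c := ((q - q / 2 : ℕ) : ℝ)
      have hq' : q / 2 + (q - q / 2) = q := by omega
      have e2 : x m ^ (q / 2) * a ^ 2 * (x m ^ (q - q / 2) * c ^ 2) =
          x m ^ q * (a ^ 2 * c ^ 2) := by
        rw [← hq', pow_add, hq']; ring
      have hq'' : (q / 2 - 1) + (q - q / 2 - 1) + 1 = q - 1 := by omega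
      have e3 : (18 * (m : ℝ)) ^ (q / 2 - 1) * x (q / 2 * m) *
          ((18 * (m : ℝ)) ^ (q - q / 2 - 1) * x ((q - q / 2) * m)) =
          (18 * (m : ℝ)) ^ ((q / 2 - 1) + (q - q / 2 - 1)) *
            (x (q / 2 * m) * x ((q - q / 2) * m)) := by
        rw [pow_add]; ring
      rw [e2, e3] at h2
      have hm0 : (0 : ℝ) < m := by
        have : 0 < m := by omega
        exact_mod_cast this
      have h4 : x m ^ q * (a ^ 2 * c ^ 2) ≤ (18 * (m : ℝ)) ^ ((q / 2 - 1) + (q - q / 2 - 1)) *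
          ((q * m : ℕ) * x (q * m)) :=
        h2.trans (mul_le_mul_of_nonneg_left h1 (by positivity))
      have hxq : 0 < x (q * m) := hpos _ (by nlinarith)
      have hq0 : (0 : ℝ) < q := by
        have : 0 < q := by omega
        exact_mod_cast this
      -- x^q q^3 ≤ 18 x^q a²c² ≤ 18 (18 m)^(q-2) q m x(qm)
      have h5 : x m ^ q * (q : ℝ) ^ 3 ≤ (18 * (m : ℝ)) ^ (q - 1) * x (q * m) * q := by
        calc x m ^ q * (q : ℝ) ^ 3 ≤ x m ^ q * (18 * a ^ 2 * c ^ 2) :=
              mul_le_mul_of_nonneg_left h3 (by positivity)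
          _ = 18 * (x m ^ q * (a ^ 2 * c ^ 2)) := by ring
          _ ≤ 18 * ((18 * (m : ℝ)) ^ ((q / 2 - 1) + (q - q / 2 - 1)) *
              ((q * m : ℕ) * x (q * m))) := by linarith
          _ = (18 * (m : ℝ)) ^ (q - 1) * x (q * m) * q := by
              rw [← hq'', pow_succ]; push_cast; ring
      have h6 : (x m ^ q * (q : ℝ) ^ 2) * q ≤ ((18 * (m : ℝ)) ^ (q - 1) * x (q * m)) * q := by
        calc (x m ^ q * (q : ℝ) ^ 2) * q = x m ^ q * (q : ℝ) ^ 3 := by ring
          _ ≤ _ := h5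
      exact le_of_mul_le_mul_right h6 hq0

theorem pow_bound' (x : ℕ → ℝ) (hpos : ∀ n, 2 ≤ n → 0 < x n)
    (hsup : ∀ m n, 2 ≤ m → 2 ≤ n → x m * x n ≤ (m + n : ℕ) * x (m + n)) {m : ℕ} (hm : 2 ≤ m)
    (q : ℕ) (hq : 1 ≤ q) : (x m / (18 * m)) ^ q ≤ x (q * m) := by
  have h1 := pow_bound x hpos hsup hm q hq
  have hm0 : (1 : ℝ) ≤ 18 * m := by
    have : (2 : ℝ) ≤ m := by exact_mod_cast hm
    linarith
  have hxq : 0 < x (q * m) := hpos _ (by nlinarith)
  have hxm := hpos m hm
  have hq0 : (1 : ℝ) ≤ (q : ℝ) ^ 2 := one_le_pow₀ (by exact_mod_cast hq)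
  rw [div_pow, div_le_iff₀ (by positivity)]
  calc x m ^ q = x m ^ q * 1 := by ring
    _ ≤ x m ^ q * (q : ℝ) ^ 2 := mul_le_mul_of_nonneg_left hq0 (by positivity)
    _ ≤ (18 * (m : ℝ)) ^ (q - 1) * x (q * m) := h1
    _ ≤ (18 * (m : ℝ)) ^ q * x (q * m) := by
        refine mul_le_mul_of_nonneg_right ?_ hxq.le
        exact pow_le_pow_right₀ hm0 (by omega)
    _ = x (q * m) * (18 * (m : ℝ)) ^ q := by ring

theorem log_div_tendsto_zero (c : ℝ) :
    Tendsto (fun n : ℕ => Real.log (c * n) / n) atTop (𝓝 0) := by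
  rcases eq_or_ne c 0 with rfl | hc
  · simp
  have h1 : Tendsto (fun n : ℕ => Real.log c / (n : ℝ) + Real.log n / (n : ℝ)) atTop (𝓝 (0 + 0)) := by
    refine Tendsto.add ?_ ?_
    · exact tendsto_const_nhds.div_atTop tendsto_natCast_atTop_atTop
    · have := (Real.isLittleO_log_id_atTop).tendsto_div_nhds_zero
      exact this.comp tendsto_natCast_atTop_atTop
  rw [add_zero] at h1
  refine h1.congr' ?_
  filter_upwards [eventually_gt_atTop 0] with n hn
  have hn' : (n : ℝ) ≠ 0 := by exact_mod_cast hn.ne'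
  rw [Real.log_mul hc hn', add_div]

/-- Existence of the limit. -/
theorem exists_lim (x : ℕ → ℝ) (hpos : ∀ n, 2 ≤ n → 0 < x n)
    (hsup : ∀ m n, 2 ≤ m → 2 ≤ n → x m * x n ≤ (m + n : ℕ) * x (m + n))
    {B : ℝ} (hB : ∀ n, 2 ≤ n → Real.log (x n) / n ≤ B) :
    ∃ Λ, Tendsto (fun n : ℕ => Real.log (x n) / n) atTop (𝓝 Λ) := by
  set l : ℕ → ℝ := fun m => Real.log (x m / (18 * m)) / m with hl
  have hlB : ∀ m, 2 ≤ m → l m ≤ B := by
    intro m hm
    refine le_trans ?_ (hB m hm)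
    have hm0 : (2 : ℝ) ≤ m := by exact_mod_cast hm
    have hx := hpos m hm
    simp only [hl]
    refine div_le_div_of_nonneg_right (Real.log_le_log (by positivity) ?_) (by positivity)
    exact div_le_self hx.le (by linarith)
  set S : Set ℝ := l '' {m | 2 ≤ m} with hS
  have hSne : S.Nonempty := ⟨l 2, 2, by simp, rfl⟩
  have hSbd : BddAbove S := ⟨B, by rintro _ ⟨m, hm, rfl⟩; exact hlB m hm⟩
  refine ⟨sSup S, ?_⟩
  rw [Metric.tendsto_atTop]
  intro ε hε
  -- lower index
  obtain ⟨_, ⟨m, hm, rfl⟩, hm2⟩ := exists_lt_of_lt_csSup hSne (by linarith : sSup S - ε / 2 < sSup S)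
  have hm' : 2 ≤ m := hm
  have hm0 : (2 : ℝ) ≤ m := by exact_mod_cast hm'
  -- constants
  obtain ⟨c, hc0, hc⟩ : ∃ c : ℝ, 0 < c ∧ ∀ r, 2 ≤ r → r ≤ m + 1 → c ≤ x r := by
    have hne : (Finset.Icc 2 (m + 1)).Nonempty := ⟨2, by simp; omega⟩
    refine ⟨(Finset.Icc 2 (m + 1)).inf' hne x, ?_, ?_⟩
    · rw [Finset.lt_inf'_iff]
      intro r hr
      exact hpos r (Finset.mem_Icc.1 hr).1
    · intro r h1 h2
      exact Finset.inf'_le _ (Finset.mem_Icc.2 ⟨h1, h2⟩)
  set y := x m / (18 * m) with hy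
  have hxm := hpos m hm'
  have hy0 : 0 < y := by positivity
  -- the limit of the lower bound
  have hlim : Tendsto (fun n : ℕ => (((n - 2) / m : ℕ) : ℝ) / n * Real.log y +
      Real.log c / n - Real.log (1 * n) / n) atTop (𝓝 (1 / m * Real.log y + 0 - 0)) := by
    refine Tendsto.sub (Tendsto.add (Tendsto.mul_const _ ?_) ?_) (log_div_tendsto_zero 1)
    · have h1 : Tendsto (fun n : ℕ => 1 / (m : ℝ) - 2 / (n : ℝ)) atTop (𝓝 (1 / m - 0)) :=
        tendsto_const_nhds.sub (tendsto_const_nhds.div_atTop tendsto_natCast_atTop_atTop)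
      rw [sub_zero] at h1
      refine tendsto_of_tendsto_of_tendsto_of_le_of_le' h1 (tendsto_const_nhds (x := 1 / (m : ℝ))) ?_ ?_
      · filter_upwards [eventually_gt_atTop 2] with n hn
        have hn0 : (0 : ℝ) < n := by
          have : 0 < n := by omega
          exact_mod_cast this
        have h2 : n ≤ m * ((n - 2) / m) + 2 * m := by
          have h3 := Nat.div_add_mod (n - 2) m
          have h4 := Nat.mod_lt (n - 2) (by omega : 0 < m)
          omega
        have h3 : (n : ℝ) ≤ m * (((n - 2) / m : ℕ) : ℝ) + 2 * m := by exact_mod_cast h2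
        rw [le_div_iff₀ hn0, sub_mul, div_mul_cancel₀ _ hn0.ne', sub_le_iff_le_add,
          div_mul_eq_mul_div, one_mul, div_le_iff₀ (by linarith)]
        linarith
      · filter_upwards [eventually_gt_atTop 2] with n hn
        have hn0 : (0 : ℝ) < n := by
          have : 0 < n := by omega
          exact_mod_cast this
        have h2 : (n - 2) / m * m ≤ n := (Nat.div_mul_le_self _ _).trans (by omega)
        have h3 : (((n - 2) / m : ℕ) : ℝ) * m ≤ n := by exact_mod_cast h2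
        rw [div_le_div_iff₀ hn0 (by linarith), one_mul]
        exact h3
    · exact tendsto_const_nhds.div_atTop tendsto_natCast_atTop_atTop
  have hlim' : (1 / (m : ℝ)) * Real.log y + 0 - 0 = l m := by
    simp only [hl]; rw [← hy]; ring
  rw [hlim'] at hlim
  have hev1 := hlim.eventually (lt_mem_nhds hm2)
  have hup : Tendsto (fun n : ℕ => sSup S + Real.log (18 * n) / n) atTop (𝓝 (sSup S + 0)) :=
    tendsto_const_nhds.add (log_div_tendsto_zero 18)
  rw [add_zero] at hup
  have hev2 := hup.eventually (gt_mem_nhds (by linarith : sSup S < sSup S + ε))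
  obtain ⟨N1, hN1⟩ := eventually_atTop.1 hev1
  obtain ⟨N2, hN2⟩ := eventually_atTop.1 hev2
  refine ⟨max (max N1 N2) (2 * m + 2), fun n hn => ?_⟩
  have hn1 : N1 ≤ n := (le_max_left _ _).trans ((le_max_left _ _).trans hn)
  have hn2 : N2 ≤ n := (le_max_right _ _).trans ((le_max_left _ _).trans hn)
  have hn3 : 2 * m + 2 ≤ n := (le_max_right _ _).trans hn
  have hn0 : (0 : ℝ) < n := by
    have : 0 < n := by omega
    exact_mod_cast this
  have hxn := hpos n (by omega)
  rw [Real.dist_eq, abs_lt]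
  constructor
  · -- lower bound
    have h1 := hN1 n hn1
    set q := (n - 2) / m with hq
    set r := n - q * m with hr
    have hq1 : 1 ≤ q := by
      rw [hq, Nat.one_le_div_iff (by omega)]; omega
    have hqm : q * m ≤ n - 2 := Nat.div_mul_le_self _ _
    have hr2 : 2 ≤ r := by omega
    have hrm : r ≤ m + 1 := by
      have h3 := Nat.div_add_mod (n - 2) m
      have h4 := Nat.mod_lt (n - 2) (by omega : 0 < m)
      have h5 : m * ((n - 2) / m) = q * m := by rw [hq, mul_comm]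
      omega
    have e1 : q * m + r = n := by omega
    have h2 := hsup (q * m) r (by nlinarith) hr2
    rw [e1] at h2
    have h3 := pow_bound' x hpos hsup hm' q hq1
    have h4 := hc r hr2 hrm
    have h5 : y ^ q * c ≤ n * x n := by
      calc y ^ q * c ≤ x (q * m) * x r := mul_le_mul h3 h4 hc0.le (hpos _ (by nlinarith)).le
        _ ≤ n * x n := h2
    have h6 := Real.log_le_log (by positivity) h5
    rw [Real.log_mul (by positivity) hc0.ne', Real.log_mul hn0.ne' hxn.ne', Real.log_pow] at h6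
    have h7 : (q : ℝ) / n * Real.log y + Real.log c / n - Real.log (1 * n) / n ≤
        Real.log (x n) / n := by
      rw [one_mul, div_mul_eq_mul_div, ← add_div, ← sub_div]
      exact div_le_div_of_nonneg_right (by linarith) hn0.le
    linarith
  · have h1 := hN2 n hn2
    have h2 : l n ≤ sSup S := le_csSup hSbd ⟨n, by simp only [Set.mem_setOf_eq]; omega, rfl⟩
    have h3 : Real.log (x n) / n = l n + Real.log (18 * n) / n := by
      simp only [hl]
      rw [Real.log_div hxn.ne' (by positivity), sub_div]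
      ring
    linarith

end Pool.Agent.H97.SS
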