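import Pool.Agent.H97.SS.UCheck

/-!
The masks.
-/

namespace Pool.Agent.H97.SS

open Finset

theorem dg_self {w x : ℕ} (hx : x < 2 ^ w) (i : ℕ) : dg w x i = if i = 0 then x else 0 := by
  rcases i with _ | i
  · rw [dg_zero, Nat.mod_eq_of_lt hx, if_pos rfl]
  · rw [dg_succ, Nat.div_eq_of_lt hx, dg_of_zero, if_neg (by omega)]

theorem mkN_succ (w : ℕ) (f : ℕ → ℕ) (K : ℕ) : mkN w f (K + 1) = mkN w f K + f K * 2 ^ (w * K) := rfl

theorem dg_mkN {w : ℕ} {f : ℕ → ℕ} (hf : ∀ k, f k < 2 ^ w) (K i : ℕ) :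
    dg w (mkN w f K) i = if i < K then f i else 0 := by
  induction K generalizing i with
  | zero => simp [mkN, dg_of_zero]
  | succ K ih =>
    have h1 : ∀ i, dg w (f K * 2 ^ (w * K)) i = if i = K then f K else 0 := by
      intro i
      rw [dg_shiftLeft]
      by_cases h : K ≤ i
      · rw [if_pos h, dg_self (hf K)]
        by_cases h2 : i = K
        · rw [if_pos (by omega), if_pos h2]
        · rw [if_neg (by omega), if_neg h2]
      · rw [if_neg h, if_neg (by omega)]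
    rw [mkN_succ, dg_add, ih, h1]
    · by_cases h : i = K
      · rw [if_neg (by omega), if_pos h, if_pos (by omega), h, zero_add]
      · rw [if_neg h, add_zero]
        by_cases h2 : i < K
        · rw [if_pos h2, if_pos (by omega)]
        · rw [if_neg h2, if_neg (by omega)]
    · intro j
      rw [ih, h1]
      by_cases h : j = K
      · rw [if_neg (by omega), if_pos h, zero_add]; exact hf K
      · rw [if_neg h, add_zero]
        split_ifs
        · exact hf j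
        · positivity

/-- Mask with the digit `x` where `f` holds. -/
noncomputable def bmask (w : ℕ) (f : ℕ → Bool) (x K : ℕ) : ℕ :=
  mkN w (fun i => @Bool.rec (fun _ => ℕ) 0 x (f i)) K

theorem dg_bmask {w x : ℕ} (f : ℕ → Bool) (hx : x < 2 ^ w) (K i : ℕ) :
    dg w (bmask w f x K) i = if i < K ∧ f i = true then x else 0 := by
  unfold bmask
  rw [dg_mkN]
  · by_cases h : i < K
    · cases hf : f i <;> simp [h]
    · simp [h]
  · intro k
    cases f k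
    · positivity
    · exact hx

/-- Boolean block test. -/
noncomputable def blkB (W0 D i : ℕ) : Bool :=
  and (Nat.ble 1 (Nat.div i W0)) (and (Nat.ble 1 (Nat.mod i W0))
    (Nat.ble (Nat.add (Nat.div i W0) (Nat.mod i W0)) D))

theorem blkB_iff (W0 D i : ℕ) : blkB W0 D i = true ↔ blk W0 D i := by
  unfold blkB blk
  rw [Bool.and_eq_true, Bool.and_eq_true, Nat.ble_eq, Nat.ble_eq, Nat.ble_eq]
  rfl

/-- Boolean antidiagonal test. -/
noncomputable def antB (W0 D i : ℕ) : Bool :=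
  and (Nat.ble 1 (Nat.div i W0)) (and (Nat.ble 1 (Nat.mod i W0))
    (Nat.beq (Nat.add (Nat.div i W0) (Nat.mod i W0)) D))

theorem antB_iff (W0 D i : ℕ) :
    antB W0 D i = true ↔ 1 ≤ i / W0 ∧ 1 ≤ i % W0 ∧ i / W0 + i % W0 = D := by
  unfold antB
  rw [Bool.and_eq_true, Bool.and_eq_true, Nat.ble_eq, Nat.ble_eq, Nat.beq_eq]
  rfl

noncomputable def mBlk (w W0 D x : ℕ) : ℕ := bmask w (blkB W0 D) x (Nat.mul W0 (Nat.add D 3))

noncomputable def mRow (w W0 D x : ℕ) : ℕ :=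
  bmask w (fun i => and (blkB W0 D i) (Nat.beq (Nat.div i W0) 1)) x (Nat.mul W0 (Nat.add D 3))

noncomputable def mCol (w W0 D x : ℕ) : ℕ :=
  bmask w (fun i => and (blkB W0 D i) (and (Nat.beq (Nat.mod i W0) 1)
    (not (Nat.beq (Nat.div i W0) 1)))) x (Nat.mul W0 (Nat.add D 3))

noncomputable def mCor (w W0 D x : ℕ) : ℕ :=
  bmask w (fun i => Nat.beq i (Nat.succ W0)) x (Nat.mul W0 (Nat.add D 3))

noncomputable def mAnt (w W0 D D' : ℕ) : ℕ := bmask w (antB W0 D') 1 (Nat.mul W0 (Nat.add D 3))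

noncomputable def mZ (w W0 D : ℕ) : ℕ :=
  bmask w (fun j => and (Nat.ble 2 j) (Nat.beq (Nat.mod (Nat.sub j 2) (Nat.pred W0)) 0)) 1
    (Nat.mul W0 D)

theorem blk_lt {W0 D i : ℕ} (h : blk W0 D i) : i < W0 * (D + 3) := by
  obtain ⟨h1, h2, h3⟩ := h
  have hW : 0 < W0 := by
    rcases Nat.eq_zero_or_pos W0 with h | h
    · rw [h, Nat.div_zero] at h1; omega
    · exact h
  have h4 : i / W0 < D + 3 := by omega
  rw [mul_comm]
  exact (Nat.div_lt_iff_lt_mul hW).1 h4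

theorem ant_lt {W0 D D' i : ℕ} (hD : D' ≤ D + 2)
    (h : 1 ≤ i / W0 ∧ 1 ≤ i % W0 ∧ i / W0 + i % W0 = D') : i < W0 * (D + 3) := by
  obtain ⟨h1, h2, h3⟩ := h
  have hW : 0 < W0 := by
    rcases Nat.eq_zero_or_pos W0 with h | h
    · rw [h, Nat.div_zero] at h1; omega
    · exact h
  have h4 : i / W0 < D + 3 := by omega
  rw [mul_comm]
  exact (Nat.div_lt_iff_lt_mul hW).1 h4

theorem dg_mBlk {w x : ℕ} (W0 D : ℕ) (hx : x < 2 ^ w) (i : ℕ) :
    dg w (mBlk w W0 D x) i = if blk W0 D i then x else 0 := by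
  unfold mBlk
  rw [dg_bmask _ hx]
  by_cases h : blk W0 D i
  · rw [if_pos h, if_pos ⟨blk_lt h, (blkB_iff _ _ _).2 h⟩]
  · rw [if_neg h, if_neg]
    rintro ⟨-, h2⟩
    exact h ((blkB_iff _ _ _).1 h2)

theorem dg_mRow {w x : ℕ} (W0 D : ℕ) (hx : x < 2 ^ w) (i : ℕ) :
    dg w (mRow w W0 D x) i = if blk W0 D i ∧ i / W0 = 1 then x else 0 := by
  unfold mRow
  rw [dg_bmask _ hx]
  by_cases h : blk W0 D i ∧ i / W0 = 1
  · rw [if_pos h, if_pos]
    refine ⟨blk_lt h.1, ?_⟩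
    rw [Bool.and_eq_true, blkB_iff, Nat.beq_eq]
    exact h
  · rw [if_neg h, if_neg]
    rintro ⟨-, h2⟩
    rw [Bool.and_eq_true, blkB_iff, Nat.beq_eq] at h2
    exact h h2

theorem dg_mCol {w x : ℕ} (W0 D : ℕ) (hx : x < 2 ^ w) (i : ℕ) :
    dg w (mCol w W0 D x) i = if blk W0 D i ∧ i % W0 = 1 ∧ i / W0 ≠ 1 then x else 0 := by
  unfold mCol
  rw [dg_bmask _ hx]
  have h3 : (and (blkB W0 D i) (and (Nat.beq (Nat.mod i W0) 1)
      (not (Nat.beq (Nat.div i W0) 1)))) = true ↔ blk W0 D i ∧ i % W0 = 1 ∧ i / W0 ≠ 1 := by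
    rw [Bool.and_eq_true, Bool.and_eq_true, blkB_iff, Nat.beq_eq, Bool.not_eq_true',
      ← Bool.not_eq_true, Nat.beq_eq]
    rfl
  by_cases h : blk W0 D i ∧ i % W0 = 1 ∧ i / W0 ≠ 1
  · rw [if_pos h, if_pos]
    exact ⟨blk_lt h.1, h3.2 h⟩
  · rw [if_neg h, if_neg]
    rintro ⟨-, h2⟩
    exact h (h3.1 h2)

theorem dg_mCor {w x : ℕ} (W0 D : ℕ) (hx : x < 2 ^ w) (hW : 2 ≤ W0) (i : ℕ) :
    dg w (mCor w W0 D x) i = if i = W0 + 1 then x else 0 := by
  unfold mCor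
  rw [dg_bmask _ hx]
  by_cases h : i = W0 + 1
  · rw [if_pos h, if_pos]
    refine ⟨?_, ?_⟩
    · subst h
      change W0 + 1 < W0 * (D + 3)
      nlinarith
    · rw [Nat.beq_eq]; exact h
  · rw [if_neg h, if_neg]
    rintro ⟨-, h2⟩
    rw [Nat.beq_eq] at h2
    exact h h2

theorem dg_mAnt {w : ℕ} (W0 D D' : ℕ) (hw : 0 < w) (hD : D' ≤ D + 2) (i : ℕ) :
    dg w (mAnt w W0 D D') i = if 1 ≤ i / W0 ∧ 1 ≤ i % W0 ∧ i / W0 + i % W0 = D' then 1 else 0 := by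
  unfold mAnt
  rw [dg_bmask _ (Nat.one_lt_two_pow (by omega))]
  by_cases h : 1 ≤ i / W0 ∧ 1 ≤ i % W0 ∧ i / W0 + i % W0 = D'
  · rw [if_pos h, if_pos ⟨ant_lt hD h, (antB_iff _ _ _).2 h⟩]
  · rw [if_neg h, if_neg]
    rintro ⟨-, h2⟩
    exact h ((antB_iff _ _ _).1 h2)

theorem cst_spec {w W0 D : ℕ} (hw : 0 < w) (hW : 2 ≤ W0) :
    Cst w W0 D (mBlk w W0 D (2 ^ w - 1)) (mRow w W0 D (2 ^ w - 1)) (mCol w W0 D (2 ^ w - 1))
      (mCor w W0 D (2 ^ w - 1)) (mAnt w W0 D (D + 1)) (mAnt w W0 D (D + 2)) := by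
  have h1 : 2 ^ w - 1 < 2 ^ w := by have : 0 < 2 ^ w := by positivity
                                    omega
  exact ⟨dg_mBlk W0 D h1, dg_mRow W0 D h1, dg_mCol W0 D h1, dg_mCor W0 D h1 hW,
    dg_mAnt W0 D (D + 1) hw (by omega), dg_mAnt W0 D (D + 2) hw (by omega)⟩

theorem msk_spec {w W0 D s b : ℕ} (hw : 0 < w) (hb : b ≤ w) :
    Msk w W0 D s b (mBlk w W0 D 1) (mZ w W0 D) (mBlk w W0 D (2 ^ (w - (s + 41)) - 1))
      (mBlk w W0 D (2 ^ (w - 1) - 1)) (mBlk w W0 D (2 ^ b - 1)) := by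
  have h0 : ∀ k, k ≤ w → 2 ^ k - 1 < 2 ^ w := by
    intro k hk
    have h1 : 2 ^ k ≤ 2 ^ w := Nat.pow_le_pow_right (by norm_num) hk
    have h2 : 0 < 2 ^ k := by positivity
    omega
  have h1 : 1 < 2 ^ w := Nat.one_lt_two_pow (by omega)
  refine ⟨dg_mBlk W0 D h1, dg_mBlk W0 D (h0 _ (by omega)), dg_mBlk W0 D (h0 _ (by omega)),
    dg_mBlk W0 D (h0 _ hb), ?_, ?_⟩
  · intro i
    unfold mZ
    rw [dg_bmask _ h1]
    split_ifs <;> omega
  · intro i hi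
    unfold mZ at hi
    rw [dg_bmask _ h1] at hi
    split_ifs at hi with h2
    · have h3 := h2.2
      rw [Bool.and_eq_true, Nat.ble_eq, Nat.beq_eq] at h3
      exact h3
    · exact absurd rfl hi

end Pool.Agent.H97.SS
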