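import Pool.Agent.H97.SS.Sum

/-!
Passage from the numbers `sv n p q` to the coefficients of `A = 1 - 1/S`, which satisfy a
recursion with nonnegative coefficients.
-/

namespace Pool.Agent.H97.SS

open Finset PowerSeries

/-- Coefficient ring: power series in `u`, then `v`. -/
abbrev KK := PowerSeries (PowerSeries ℝ)

/-- Coefficient of `z^n v^q u^p`. -/
noncomputable def cf (n q p : ℕ) (x : PowerSeries KK) : ℝ := coeff p (coeff q (coeff n x))

theorem cf_ext {x y : PowerSeries KK} (h : ∀ n q p, cf n q p x = cf n q p y) : x = y := by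
  ext n q p
  exact h n q p

theorem cf_add (n q p : ℕ) (x y : PowerSeries KK) : cf n q p (x + y) = cf n q p x + cf n q p y := by
  simp [cf]

theorem cf_sub (n q p : ℕ) (x y : PowerSeries KK) : cf n q p (x - y) = cf n q p x - cf n q p y := by
  simp [cf]

theorem cf_mul (n q p : ℕ) (x y : PowerSeries KK) : cf n q p (x * y) =
    ∑ a ∈ antidiagonal n, ∑ b ∈ antidiagonal q, ∑ c ∈ antidiagonal p,
      cf a.1 b.1 c.1 x * cf a.2 b.2 c.2 y := by
  unfold cf
  rw [coeff_mul, map_sum, map_sum]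
  refine Finset.sum_congr rfl (fun a _ => ?_)
  rw [coeff_mul, map_sum]
  refine Finset.sum_congr rfl (fun b _ => ?_)
  rw [coeff_mul]

/-- The variable `u`. -/
noncomputable def uu : PowerSeries KK := C (C X)

/-- The variable `v`. -/
noncomputable def vv : PowerSeries KK := C X

theorem cf_uu_zero (n q : ℕ) (x : PowerSeries KK) : cf n q 0 (uu * x) = 0 := by
  unfold cf uu
  rw [coeff_C_mul, coeff_C_mul, coeff_zero_X_mul]

theorem cf_uu_succ (n q p : ℕ) (x : PowerSeries KK) : cf n q (p + 1) (uu * x) = cf n q p x := by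
  unfold cf uu
  rw [coeff_C_mul, coeff_C_mul, coeff_succ_X_mul]

theorem cf_vv_zero (n p : ℕ) (x : PowerSeries KK) : cf n 0 p (vv * x) = 0 := by
  unfold cf vv
  rw [coeff_C_mul, coeff_zero_X_mul, map_zero]

theorem cf_vv_succ (n q p : ℕ) (x : PowerSeries KK) : cf n (q + 1) p (vv * x) = cf n q p x := by
  unfold cf vv
  rw [coeff_C_mul, coeff_succ_X_mul]

theorem cf_one (n q p : ℕ) : cf n q p 1 = if n = 0 ∧ q = 0 ∧ p = 0 then 1 else 0 := by
  unfold cf
  rw [coeff_one]
  by_cases hn : n = 0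
  · rw [if_pos hn, coeff_one]
    by_cases hq : q = 0
    · rw [if_pos hq, coeff_one]
      by_cases hp : p = 0
      · simp [hn, hq, hp]
      · simp [hp]
    · simp [hq]
  · simp [hn]

/-- A series constant in `u`. -/
noncomputable def mkV (β : ℕ → ℕ → ℝ) : PowerSeries KK := PowerSeries.mk fun n => PowerSeries.mk fun q => C (β n q)

/-- A series constant in `v`. -/
noncomputable def mkU (β : ℕ → ℕ → ℝ) : PowerSeries KK := PowerSeries.mk fun n => C (PowerSeries.mk fun p => β n p)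

/-- A series constant in `u` and `v`. -/
noncomputable def mkC (β : ℕ → ℝ) : PowerSeries KK := PowerSeries.mk fun n => C (C (β n))

theorem cf_mkV (β : ℕ → ℕ → ℝ) (n q p : ℕ) : cf n q p (mkV β) = if p = 0 then β n q else 0 := by
  unfold cf mkV
  rw [coeff_mk, coeff_mk, coeff_C]

theorem cf_mkU (β : ℕ → ℕ → ℝ) (n q p : ℕ) : cf n q p (mkU β) = if q = 0 then β n p else 0 := by
  unfold cf mkU
  rw [coeff_mk, coeff_C]
  split_ifs
  · rw [coeff_mk]
  · simp

theorem cf_mkC (β : ℕ → ℝ) (n q p : ℕ) :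
    cf n q p (mkC β) = if q = 0 ∧ p = 0 then β n else 0 := by
  unfold cf mkC
  rw [coeff_mk, coeff_C]
  by_cases hq : q = 0
  · rw [if_pos hq, coeff_C]; simp [hq]
  · simp [hq]

theorem sum_antidiagonal_right_zero (p : ℕ) (f : ℕ → ℝ) (g : ℕ → ℝ)
    (hg : ∀ k, k ≠ 0 → g k = 0) : ∑ c ∈ antidiagonal p, f c.1 * g c.2 = f p * g 0 := by
  rw [Finset.sum_eq_single (p, 0)]
  · rintro ⟨a, b⟩ hab hne
    rw [HasAntidiagonal.mem_antidiagonal] at hab
    have : b ≠ 0 := by
      rintro rfl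
      apply hne
      simp at hab
      rw [hab]
    rw [hg b this, mul_zero]
  · intro h
    exact absurd (HasAntidiagonal.mem_antidiagonal.2 (by simp)) h

theorem cf_mul_mkV (x : PowerSeries KK) (β : ℕ → ℕ → ℝ) (n q p : ℕ) : cf n q p (x * mkV β) =
    ∑ a ∈ antidiagonal n, ∑ b ∈ antidiagonal q, cf a.1 b.1 p x * β a.2 b.2 := by
  rw [cf_mul]
  refine Finset.sum_congr rfl (fun a _ => Finset.sum_congr rfl (fun b _ => ?_))
  have h := sum_antidiagonal_right_zero p (fun i => cf a.1 b.1 i x)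
    (fun i => cf a.2 b.2 i (mkV β)) (fun k hk => by simp [cf_mkV, hk])
  refine h.trans ?_
  rw [cf_mkV, if_pos rfl]

theorem cf_mul_mkU (x : PowerSeries KK) (β : ℕ → ℕ → ℝ) (n q p : ℕ) : cf n q p (x * mkU β) =
    ∑ a ∈ antidiagonal n, ∑ c ∈ antidiagonal p, cf a.1 q c.1 x * β a.2 c.2 := by
  rw [cf_mul]
  refine Finset.sum_congr rfl (fun a _ => ?_)
  rw [Finset.sum_comm]
  refine Finset.sum_congr rfl (fun c _ => ?_)
  have h := sum_antidiagonal_right_zero q (fun i => cf a.1 i c.1 x)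
    (fun i => cf a.2 i c.2 (mkU β)) (fun k hk => by simp [cf_mkU, hk])
  refine h.trans ?_
  rw [cf_mkU, if_pos rfl]

theorem cf_mul_mkC (x : PowerSeries KK) (β : ℕ → ℝ) (n q p : ℕ) : cf n q p (x * mkC β) =
    ∑ a ∈ antidiagonal n, cf a.1 q p x * β a.2 := by
  have h0 : mkC β = mkV (fun n q => if q = 0 then β n else 0) := by
    apply cf_ext
    intro n q p
    rw [cf_mkC, cf_mkV]
    by_cases hp : p = 0 <;> by_cases hq : q = 0 <;> simp [hp, hq]
  rw [h0, cf_mul_mkV]
  refine Finset.sum_congr rfl (fun a _ => ?_)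
  have h := sum_antidiagonal_right_zero q (fun i => cf a.1 i p x)
    (fun i => if i = 0 then β a.2 else 0) (fun k hk => by simp [hk])
  refine h.trans ?_
  rw [if_pos rfl]

/-- The series `S`. -/
noncomputable def Ser : PowerSeries KK := PowerSeries.mk fun n => PowerSeries.mk fun q =>
  PowerSeries.mk fun p => sv n p q

theorem cf_Ser (n q p : ℕ) : cf n q p Ser = sv n p q := by
  unfold cf Ser
  rw [coeff_mk, coeff_mk, coeff_mk]

/-- The series `Φ`. -/
noncomputable def Ph : PowerSeries KK := PowerSeries.mk fun n => PowerSeries.mk fun q =>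
  PowerSeries.mk fun p => if p = 0 ∨ q = 0 then 0 else comb (sv n) p q

theorem cf_Ph (n q p : ℕ) : cf n q p Ph = if p = 0 ∨ q = 0 then 0 else comb (sv n) p q := by
  unfold cf Ph
  rw [coeff_mk, coeff_mk, coeff_mk]

theorem sum_antidiagonal_shift (p : ℕ) (f : ℕ → ℕ → ℝ) (h0 : ∀ k, f 0 k = 0) :
    ∑ c ∈ antidiagonal p, f c.1 c.2 = ∑ j ∈ range p, f (j + 1) (p - 1 - j) := by
  rw [Finset.Nat.sum_antidiagonal_eq_sum_range_succ f p, Finset.sum_range_succ', h0, add_zero]
  refine Finset.sum_congr rfl (fun j _ => ?_)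
  congr 1
  omega

theorem deriv_Ser : PowerSeries.derivative KK Ser = Ser * Ph := by
  rw [mul_comm]
  apply cf_ext
  intro n q p
  have h1 : cf n q p (PowerSeries.derivative KK Ser) = ((n : ℝ) + 1) * sv (n + 1) p q := by
    unfold cf
    rw [coeff_derivative]
    have h2 : coeff (n + 1) Ser * ((n : KK) + 1) = C (C ((n : ℝ) + 1)) * coeff (n + 1) Ser := by
      rw [mul_comm]
      congr 1
      rw [map_add, map_add, map_one, map_one, map_natCast, map_natCast]
    rw [h2, coeff_C_mul, coeff_C_mul]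
    congr 1
    exact cf_Ser (n + 1) q p
  rw [h1, sv_rec, cf_mul]
  have h3 : ∀ a ∈ antidiagonal n, ∑ b ∈ antidiagonal q, ∑ c ∈ antidiagonal p,
      cf a.1 b.1 c.1 Ph * cf a.2 b.2 c.2 Ser = ∑ k ∈ range q, ∑ j ∈ range p,
      comb (sv a.1) (j + 1) (k + 1) * sv a.2 (p - 1 - j) (q - 1 - k) := by
    intro a _
    have h4 := sum_antidiagonal_shift q (fun b1 b2 => ∑ c ∈ antidiagonal p,
      cf a.1 b1 c.1 Ph * cf a.2 b2 c.2 Ser) (by
        intro k
        apply Finset.sum_eq_zero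
        intro c _
        rw [cf_Ph, if_pos (Or.inr rfl), zero_mul])
    rw [h4]
    refine Finset.sum_congr rfl (fun k _ => ?_)
    have h5 := sum_antidiagonal_shift p (fun c1 c2 =>
      cf a.1 (k + 1) c1 Ph * cf a.2 (q - 1 - k) c2 Ser) (by
        intro k
        rw [cf_Ph, if_pos (Or.inl rfl), zero_mul])
    rw [h5]
    refine Finset.sum_congr rfl (fun j _ => ?_)
    rw [cf_Ph, if_neg (by omega), cf_Ser]
  rw [Finset.sum_congr rfl h3]
  rw [Finset.Nat.sum_antidiagonal_eq_sum_range_succ (fun i i' => ∑ k ∈ range q, ∑ j ∈ range p,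
      comb (sv i) (j + 1) (k + 1) * sv i' (p - 1 - j) (q - 1 - k)) n]
  rw [Finset.sum_comm' (s := range p) (t := fun _ => range q) (t' := range q)
    (s' := fun _ => range p) (by intro x y; exact ⟨fun h => ⟨h.1, h.2⟩, fun h => ⟨h.1, h.2⟩⟩)]
  rw [Finset.sum_comm (s := range n.succ)]
  refine Finset.sum_congr rfl (fun k _ => ?_)
  rw [Finset.sum_comm (s := range n.succ)]

/-- Sequence `S_{1q}`. -/
noncomputable def aV : PowerSeries KK := mkV (fun n q => sv n 1 q)

/-- Sequence `S_{p1}`. -/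
noncomputable def aU : PowerSeries KK := mkU (fun n p => sv n p 1)

/-- Sequence `S_{11}`. -/
noncomputable def al : PowerSeries KK := mkC (fun n => sv n 1 1)

theorem uv_Ph : uu * (vv * Ph) =
    (Ser - 1) + (uu * (Ser - 1) + uu * (Ser - 1)) + uu * (uu * (Ser - 1)) +
    (vv * ((Ser - 1) + (uu * (Ser - 1) + uu * (Ser - 1)) + uu * (uu * (Ser - 1))) +
     vv * ((Ser - 1) + (uu * (Ser - 1) + uu * (Ser - 1)) + uu * (uu * (Ser - 1)))) +
    vv * (vv * ((Ser - 1) + (uu * (Ser - 1) + uu * (Ser - 1)) + uu * (uu * (Ser - 1)))) +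
    uu * (uu * (vv * (vv * 1))) - uu * (aV + (vv * aV + vv * aV) + vv * (vv * aV)) -
    vv * (aU + (uu * aU + uu * aU) + uu * (uu * aU)) + uu * (vv * al) := by
  apply cf_ext
  intro n q p
  have hz : ∀ q, sv n 0 q = if n = 0 ∧ q = 0 then 1 else 0 := by
    intro q
    rcases n with _ | n
    · simp [sv_zero]
    · simp [sv_succ_zero_left]
  have hz' : ∀ p, sv n p 0 = if n = 0 ∧ p = 0 then 1 else 0 := by
    intro p
    rcases n with _ | n
    · simp [sv_zero]
    · simp [sv_succ_zero_right]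
  rcases p with _ | _ | p <;> rcases q with _ | _ | q <;>
    simp only [cf_uu_zero, cf_uu_succ, cf_vv_zero, cf_vv_succ, cf_add, cf_sub, cf_Ser, cf_one,
      cf_Ph, aV, aU, al, cf_mkV, cf_mkU, cf_mkC, zero_add, hz, hz'] <;> simp [comb] <;> ring

/-- The inverse of `Ser`. -/
noncomputable def Inv : PowerSeries KK := invOfUnit Ser 1

theorem Ser_mul_Inv : Ser * Inv = 1 := by
  apply mul_invOfUnit
  have h : coeff 0 Ser = (1 : KK) := by
    ext q p
    have h1 := cf_Ser 0 q p
    unfold cf at h1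
    rw [h1, sv_zero, coeff_one]
    by_cases hq : q = 0 <;> by_cases hp : p = 0 <;> simp [hq, hp, coeff_one]
  rw [← coeff_zero_eq_constantCoeff_apply, h]
  simp

/-- The series `A = 1 - 1/S`. -/
noncomputable def Aser : PowerSeries KK := 1 - Inv

theorem Ser_mul_A : Ser * (1 - Aser) = 1 := by
  unfold Aser
  rw [sub_sub_cancel]; exact Ser_mul_Inv

theorem A_eq : Aser = (Ser - 1) - (Ser - 1) * Aser := by
  have h := Ser_mul_A
  have h2 : (Ser - 1) - (Ser - 1) * Aser = Ser * (1 - Aser) - 1 + Aser := by ring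
  rw [h2, h]; ring

/-- Coefficients of `A`. -/
noncomputable def av (n p q : ℕ) : ℝ := cf n q p Aser

theorem Ser_sub_one_cf (n q p : ℕ) (h : n = 0 ∨ q = 0 ∨ p = 0) : cf n q p (Ser - 1) = 0 := by
  rw [cf_sub, cf_Ser, cf_one]
  rcases n with _ | n
  · rw [sv_zero]
    by_cases hq : q = 0 <;> by_cases hp : p = 0 <;> simp [hq, hp]
  · rcases h with h | h | h
    · exact absurd h (by omega)
    · subst h; rw [sv_succ_zero_right]; simp
    · subst h; rw [sv_succ_zero_left]; simp

theorem cf_mul_eq_zero_of_left (n q p : ℕ) (x y : PowerSeries KK)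
    (h : ∀ n' q' p', n' ≤ n → q' ≤ q → p' ≤ p → cf n' q' p' x = 0) : cf n q p (x * y) = 0 := by
  rw [cf_mul]
  refine Finset.sum_eq_zero (fun a ha => Finset.sum_eq_zero (fun b hb =>
    Finset.sum_eq_zero (fun c hc => ?_)))
  have ha' := HasAntidiagonal.mem_antidiagonal.1 ha
  have hb' := HasAntidiagonal.mem_antidiagonal.1 hb
  have hc' := HasAntidiagonal.mem_antidiagonal.1 hc
  rw [h a.1 b.1 c.1 (by omega) (by omega) (by omega), zero_mul]

theorem av_zero (n p q : ℕ) (h : n = 0 ∨ q = 0 ∨ p = 0) : av n p q = 0 := by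
  unfold av
  rw [A_eq, cf_sub, Ser_sub_one_cf n q p h, cf_mul_eq_zero_of_left, sub_zero]
  intro n' q' p' hn hq hp
  apply Ser_sub_one_cf
  omega

theorem av_one_left (n q : ℕ) : av n 1 q = cf n q 1 (Ser - 1) := by
  unfold av
  rw [A_eq, cf_sub, cf_mul]
  rw [Finset.sum_eq_zero, sub_zero]
  intro a _
  refine Finset.sum_eq_zero (fun b _ => Finset.sum_eq_zero (fun c hc => ?_))
  have hc' := HasAntidiagonal.mem_antidiagonal.1 hc
  rcases Nat.eq_zero_or_pos c.1 with h | h
  · rw [Ser_sub_one_cf _ _ _ (Or.inr (Or.inr h)), zero_mul]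
  · have h2 : c.2 = 0 := by omega
    have h3 := av_zero a.2 c.2 b.2 (Or.inr (Or.inr h2))
    unfold av at h3
    rw [h3, mul_zero]

theorem av_one_right (n p : ℕ) : av n p 1 = cf n 1 p (Ser - 1) := by
  unfold av
  rw [A_eq, cf_sub, cf_mul]
  rw [Finset.sum_eq_zero, sub_zero]
  intro a _
  refine Finset.sum_eq_zero (fun b hb => Finset.sum_eq_zero (fun c _ => ?_))
  have hb' := HasAntidiagonal.mem_antidiagonal.1 hb
  rcases Nat.eq_zero_or_pos b.1 with h | h
  · rw [Ser_sub_one_cf _ _ _ (Or.inr (Or.inl h)), zero_mul]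
  · have h2 : b.2 = 0 := by omega
    have h3 := av_zero a.2 c.2 b.2 (Or.inr (Or.inl h2))
    unfold av at h3
    rw [h3, mul_zero]

theorem av_one_left' (n q : ℕ) : av n 1 q = sv n 1 q := by
  rw [av_one_left, cf_sub, cf_Ser, cf_one]; simp

theorem av_one_right' (n p : ℕ) : av n p 1 = sv n p 1 := by
  rw [av_one_right, cf_sub, cf_Ser, cf_one]; simp

theorem deriv_general {R : Type} [CommRing R] (S A P : PowerSeries R) (h : S * (1 - A) = 1)
    (hd : PowerSeries.derivative R S = S * P) :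
    PowerSeries.derivative R A = (1 - A) * P := by
  have h1 := congrArg (PowerSeries.derivative R) h
  rw [Derivation.leibniz, map_sub, Derivation.map_one_eq_zero, hd, smul_eq_mul, smul_eq_mul,
    zero_sub] at h1
  have h2 : PowerSeries.derivative R A * (S * (1 - A)) = (1 - A) * P * (S * (1 - A)) := by
    linear_combination (-(1 - A)) * h1
  rw [h, mul_one, mul_one] at h2
  exact h2

theorem deriv_A : PowerSeries.derivative KK Aser = (1 - Aser) * Ph :=
  deriv_general Ser Aser Ph Ser_mul_A deriv_Ser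

theorem cf_deriv (n q p : ℕ) (x : PowerSeries KK) :
    cf n q p (PowerSeries.derivative KK x) = ((n : ℝ) + 1) * cf (n + 1) q p x := by
  unfold cf
  rw [coeff_derivative]
  have h2 : coeff (n + 1) x * ((n : KK) + 1) = C (C ((n : ℝ) + 1)) * coeff (n + 1) x := by
    rw [mul_comm]
    congr 1
    rw [map_add, map_add, map_one, map_one, map_natCast, map_natCast]
  rw [h2, coeff_C_mul, coeff_C_mul]

/-- `(1+u)^2 (1+v)^2 x`, expanded. -/
noncomputable def quadr (x : PowerSeries KK) : PowerSeries KK :=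
  x + (uu * x + uu * x) + uu * (uu * x) +
    (vv * (x + (uu * x + uu * x) + uu * (uu * x)) + vv * (x + (uu * x + uu * x) + uu * (uu * x))) +
    vv * (vv * (x + (uu * x + uu * x) + uu * (uu * x)))

theorem uv_deriv_A : uu * (vv * PowerSeries.derivative KK Aser) =
    quadr Aser + uu * (uu * (vv * (vv * (1 - Aser)))) -
    (uu * (aV + (vv * aV + vv * aV) + vv * (vv * aV)) +
    vv * (aU + (uu * aU + uu * aU) + uu * (uu * aU)) - uu * (vv * al)) +
    (uu * ((Aser + (vv * Aser + vv * Aser) + vv * (vv * Aser)) * aV) +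
    vv * ((Aser + (uu * Aser + uu * Aser) + uu * (uu * Aser)) * aU) -
    uu * (vv * (Aser * al))) := by
  rw [deriv_A]
  have h1 : uu * (vv * ((1 - Aser) * Ph)) = (1 - Aser) * (uu * (vv * Ph)) := by ring
  rw [h1, uv_Ph]
  have h2 : (1 - Aser) * (Ser - 1) = Aser := by
    have := Ser_mul_A
    linear_combination this
  unfold quadr
  linear_combination ((1 + uu) ^ 2 * (1 + vv) ^ 2) * h2

/-- `G_{1,j-1} + 2 G_{1,j} + G_{1,j+1}`. -/
def tv {K : Type} [CommSemiring K] (G : ℕ → ℕ → K) (j : ℕ) : K := G 1 (j - 1) + 2 * G 1 j + G 1 (j + 1)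

/-- `G_{j-1,1} + 2 G_{j,1} + G_{j+1,1}`. -/
def tu {K : Type} [CommSemiring K] (G : ℕ → ℕ → K) (j : ℕ) : K := G (j - 1) 1 + 2 * G j 1 + G (j + 1) 1

/-- The linear part of the vector field. -/
def lin {K : Type} [CommSemiring K] (G : ℕ → ℕ → K) (p q : ℕ) : K :=
  4 * G p q + 2 * G (p + 1) q + 2 * G p (q + 1) + 2 * G (p - 1) q + 2 * G p (q - 1) +
    G (p + 1) (q + 1) + G (p + 1) (q - 1) + G (p - 1) (q + 1)

/-- The bilinear part of the vector field. -/
def bil {K : Type} [CommSemiring K] (G H : ℕ → ℕ → K) (p q : ℕ) : K :=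
  G 1 1 * H p q + ∑ j ∈ range (q - 1), tv G (j + 1) * H p (q - 1 - j) +
    ∑ j ∈ range (p - 1), tu G (j + 1) * H (p - 1 - j) q

theorem conv_identity (f g : ℕ → ℝ) (hf : f 0 = 0) (hg : g 0 = 0) (m : ℕ) :
    (∑ b ∈ antidiagonal (m + 2), f b.1 * g b.2) + 2 * (∑ b ∈ antidiagonal (m + 1), f b.1 * g b.2) +
      (∑ b ∈ antidiagonal m, f b.1 * g b.2) =
    g 1 * f (m + 1) + ∑ j ∈ range m, (g j + 2 * g (j + 1) + g (j + 2)) * f (m - j) := by
  have hC : ∀ k : ℕ, ∑ b ∈ antidiagonal k, f b.1 * g b.2 = ∑ j ∈ range k, g j * f (k - j) := by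
    intro k
    rw [← Finset.Nat.sum_antidiagonal_swap]
    have h1 := Finset.Nat.sum_antidiagonal_eq_sum_range_succ (fun i j => f j * g i) k
    refine h1.trans ?_
    rw [Finset.sum_range_succ, Nat.sub_self, hf, zero_mul, add_zero]
    exact Finset.sum_congr rfl (fun j _ => mul_comm _ _)
  rw [hC, hC, hC, Finset.sum_range_succ', Finset.sum_range_succ', Finset.sum_range_succ', hg]
  have h2 : ∀ j, m + 2 - (j + 1 + 1) = m - j := fun j => by omega
  have h3 : ∀ j, m + 1 - (j + 1) = m - j := fun j => by omega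
  simp only [h2, h3]
  have h4 : m + 2 - (0 + 1) = m + 1 := by omega
  rw [h4]
  have h5 : ∑ j ∈ range m, (g j + 2 * g (j + 1) + g (j + 2)) * f (m - j) =
      ∑ j ∈ range m, g (j + 1 + 1) * f (m - j) + 2 * ∑ j ∈ range m, g (j + 1) * f (m - j) +
      ∑ j ∈ range m, g j * f (m - j) := by
    rw [Finset.mul_sum, ← Finset.sum_add_distrib, ← Finset.sum_add_distrib]
    exact Finset.sum_congr rfl (fun j _ => by ring)
  rw [h5]
  ring

theorem av_rec_aux (n p q : ℕ) : ((n : ℝ) + 1) * av (n + 1) (p + 1) (q + 1) =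
    (if n = 0 ∧ q = 0 ∧ p = 0 then 1 else 0) + lin (av n) (p + 1) (q + 1) +
    ∑ a ∈ antidiagonal n, bil (av a.2) (av a.1) (p + 1) (q + 1) := by
  have h := congrArg (cf n (q + 2) (p + 2)) uv_deriv_A
  have e1 : cf n (q + 2) (p + 1) ((Aser + (vv * Aser + vv * Aser) + vv * (vv * Aser)) * aV) =
      ∑ a ∈ antidiagonal n, (av a.2 1 1 * av a.1 (p + 1) (q + 1) +
        ∑ j ∈ range q, tv (av a.2) (j + 1) * av a.1 (p + 1) (q - j)) := by
    unfold aV
    rw [cf_mul_mkV]
    refine Finset.sum_congr rfl (fun a _ => ?_)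
    have h1 := conv_identity (fun b => av a.1 (p + 1) b) (fun b => av a.2 1 b)
      (av_zero _ _ _ (Or.inr (Or.inl rfl))) (av_zero _ _ _ (Or.inr (Or.inl rfl))) q
    have h2 : ∑ b ∈ antidiagonal (q + 2), cf a.1 b.1 (p + 1)
        (Aser + (vv * Aser + vv * Aser) + vv * (vv * Aser)) * sv a.2 1 b.2 =
        (∑ b ∈ antidiagonal (q + 2), av a.1 (p + 1) b.1 * av a.2 1 b.2) +
        2 * (∑ b ∈ antidiagonal (q + 1), av a.1 (p + 1) b.1 * av a.2 1 b.2) +
        (∑ b ∈ antidiagonal q, av a.1 (p + 1) b.1 * av a.2 1 b.2) := by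
      have h3 : ∀ (k : ℕ) (x : PowerSeries KK), ∑ b ∈ antidiagonal (k + 1),
          cf a.1 b.1 (p + 1) (vv * x) * av a.2 1 b.2 =
          ∑ b ∈ antidiagonal k, cf a.1 b.1 (p + 1) x * av a.2 1 b.2 := by
        intro k x
        rw [Finset.Nat.sum_antidiagonal_succ, cf_vv_zero, zero_mul, zero_add]
        exact Finset.sum_congr rfl (fun b _ => by rw [cf_vv_succ])
      have h4 : ∀ b ∈ antidiagonal (q + 2), cf a.1 b.1 (p + 1)
          (Aser + (vv * Aser + vv * Aser) + vv * (vv * Aser)) * sv a.2 1 b.2 =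
          (cf a.1 b.1 (p + 1) Aser * av a.2 1 b.2 +
            2 * (cf a.1 b.1 (p + 1) (vv * Aser) * av a.2 1 b.2)) +
          cf a.1 b.1 (p + 1) (vv * (vv * Aser)) * av a.2 1 b.2 := by
        intro b _
        rw [cf_add, cf_add, cf_add, av_one_left']
        ring
      rw [Finset.sum_congr rfl h4, Finset.sum_add_distrib, Finset.sum_add_distrib,
        ← Finset.mul_sum, h3, h3, h3]
      rfl
    rw [h2]
    refine h1.trans ?_
    rfl
  have e2 : cf n (q + 1) (p + 2) ((Aser + (uu * Aser + uu * Aser) + uu * (uu * Aser)) * aU) =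
      ∑ a ∈ antidiagonal n, (av a.2 1 1 * av a.1 (p + 1) (q + 1) +
        ∑ j ∈ range p, tu (av a.2) (j + 1) * av a.1 (p - j) (q + 1)) := by
    unfold aU
    rw [cf_mul_mkU]
    refine Finset.sum_congr rfl (fun a _ => ?_)
    have h1 := conv_identity (fun b => av a.1 b (q + 1)) (fun b => av a.2 b 1)
      (av_zero _ _ _ (Or.inr (Or.inr rfl))) (av_zero _ _ _ (Or.inr (Or.inr rfl))) p
    have h2 : ∑ b ∈ antidiagonal (p + 2), cf a.1 (q + 1) b.1
        (Aser + (uu * Aser + uu * Aser) + uu * (uu * Aser)) * sv a.2 b.2 1 =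
        (∑ b ∈ antidiagonal (p + 2), av a.1 b.1 (q + 1) * av a.2 b.2 1) +
        2 * (∑ b ∈ antidiagonal (p + 1), av a.1 b.1 (q + 1) * av a.2 b.2 1) +
        (∑ b ∈ antidiagonal p, av a.1 b.1 (q + 1) * av a.2 b.2 1) := by
      have h3 : ∀ (k : ℕ) (x : PowerSeries KK), ∑ b ∈ antidiagonal (k + 1),
          cf a.1 (q + 1) b.1 (uu * x) * av a.2 b.2 1 =
          ∑ b ∈ antidiagonal k, cf a.1 (q + 1) b.1 x * av a.2 b.2 1 := by
        intro k x
        rw [Finset.Nat.sum_antidiagonal_succ, cf_uu_zero, zero_mul, zero_add]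
        exact Finset.sum_congr rfl (fun b _ => by rw [cf_uu_succ])
      have h4 : ∀ b ∈ antidiagonal (p + 2), cf a.1 (q + 1) b.1
          (Aser + (uu * Aser + uu * Aser) + uu * (uu * Aser)) * sv a.2 b.2 1 =
          (cf a.1 (q + 1) b.1 Aser * av a.2 b.2 1 +
            2 * (cf a.1 (q + 1) b.1 (uu * Aser) * av a.2 b.2 1)) +
          cf a.1 (q + 1) b.1 (uu * (uu * Aser)) * av a.2 b.2 1 := by
        intro b _
        rw [cf_add, cf_add, cf_add, av_one_right']
        ring
      rw [Finset.sum_congr rfl h4, Finset.sum_add_distrib, Finset.sum_add_distrib,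
        ← Finset.mul_sum, h3, h3, h3]
      rfl
    rw [h2]
    refine h1.trans ?_
    rfl
  have e3 : cf n (q + 1) (p + 1) (Aser * al) =
      ∑ a ∈ antidiagonal n, av a.2 1 1 * av a.1 (p + 1) (q + 1) := by
    unfold al
    rw [cf_mul_mkC]
    refine Finset.sum_congr rfl (fun a _ => ?_)
    rw [av_one_left', mul_comm]; rfl
  rw [cf_uu_succ, cf_vv_succ, cf_deriv] at h
  simp only [cf_add, cf_sub, quadr, cf_uu_succ, cf_vv_succ, e1, e2, e3, cf_one] at h
  have z1 : ∀ q', cf n q' (p + 1) aV = 0 := fun q' => by unfold aV; rw [cf_mkV, if_neg (by omega)]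
  have z2 : ∀ p', cf n (q + 1) p' aU = 0 := fun p' => by unfold aU; rw [cf_mkU, if_neg (by omega)]
  have z3 : cf n (q + 1) (p + 1) al = 0 := by unfold al; rw [cf_mkC, if_neg (by omega)]
  simp only [z1, z2, z3] at h
  have hb : ∑ a ∈ antidiagonal n, bil (av a.2) (av a.1) (p + 1) (q + 1) =
      ∑ a ∈ antidiagonal n, (av a.2 1 1 * av a.1 (p + 1) (q + 1) +
        ∑ j ∈ range q, tv (av a.2) (j + 1) * av a.1 (p + 1) (q - j)) +
      ∑ a ∈ antidiagonal n, (av a.2 1 1 * av a.1 (p + 1) (q + 1) +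
        ∑ j ∈ range p, tu (av a.2) (j + 1) * av a.1 (p - j) (q + 1)) -
      ∑ a ∈ antidiagonal n, av a.2 1 1 * av a.1 (p + 1) (q + 1) := by
    rw [← Finset.sum_add_distrib, ← Finset.sum_sub_distrib]
    refine Finset.sum_congr rfl (fun a _ => ?_)
    unfold bil
    simp only [Nat.add_sub_cancel]
    ring
  rw [hb]
  have hl : (av (n + 1) (p + 1) (q + 1)) = cf (n + 1) (q + 1) (p + 1) Aser := rfl
  rw [hl]
  refine h.trans ?_
  unfold lin
  simp only [Nat.add_sub_cancel]
  unfold av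
  ring

/-- The vector field. -/
def VF {K : Type} [CommSemiring K] (G : ℕ → ℕ → K) (p q : ℕ) : K :=
  (if p = 1 ∧ q = 1 then 1 else 0) + lin G p q + bil G G p q

theorem av_rec (n p q : ℕ) : ((n : ℝ) + 1) * av (n + 1) (p + 1) (q + 1) =
    (if n = 0 ∧ p = 0 ∧ q = 0 then 1 else 0) + lin (av n) (p + 1) (q + 1) +
    ∑ a ∈ antidiagonal n, bil (av a.1) (av a.2) (p + 1) (q + 1) := by
  rw [av_rec_aux, ← Finset.Nat.sum_antidiagonal_swap]
  have h : (n = 0 ∧ q = 0 ∧ p = 0) ↔ (n = 0 ∧ p = 0 ∧ q = 0) := by tauto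
  simp only [h, Prod.fst_swap, Prod.snd_swap]

theorem av_nonneg (n : ℕ) : ∀ p q, 0 ≤ av n p q := by
  induction n using Nat.strong_induction_on with
  | _ n ih =>
    intro p q
    rcases n with _ | n
    · rw [av_zero _ _ _ (Or.inl rfl)]
    · rcases p with _ | p
      · rw [av_zero _ _ _ (Or.inr (Or.inr rfl))]
      · rcases q with _ | q
        · rw [av_zero _ _ _ (Or.inr (Or.inl rfl))]
        · have h := av_rec n p q
          have hn : (0 : ℝ) < (n : ℝ) + 1 := by positivity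
          have h1 : 0 ≤ ((n : ℝ) + 1) * av (n + 1) (p + 1) (q + 1) := by
            rw [h]
            have i0 : ∀ p q, 0 ≤ av n p q := ih n (by omega)
            have h2 : 0 ≤ lin (av n) (p + 1) (q + 1) := by
              unfold lin
              have := i0
              have t := fun i j => i0 i j
              nlinarith [t (p + 1) (q + 1), t (p + 1 + 1) (q + 1), t (p + 1) (q + 1 + 1),
                t (p + 1 - 1) (q + 1), t (p + 1) (q + 1 - 1), t (p + 1 + 1) (q + 1 + 1),
                t (p + 1 + 1) (q + 1 - 1), t (p + 1 - 1) (q + 1 + 1)]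
            have h3 : 0 ≤ ∑ a ∈ antidiagonal n, bil (av a.1) (av a.2) (p + 1) (q + 1) := by
              refine Finset.sum_nonneg (fun a ha => ?_)
              have ha' := HasAntidiagonal.mem_antidiagonal.1 ha
              have i1 : ∀ p q, 0 ≤ av a.1 p q := ih a.1 (by omega)
              have i2 : ∀ p q, 0 ≤ av a.2 p q := ih a.2 (by omega)
              unfold bil
              refine add_nonneg (add_nonneg (mul_nonneg (i1 _ _) (i2 _ _)) ?_) ?_
              · refine Finset.sum_nonneg (fun j _ => mul_nonneg ?_ (i2 _ _))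
                unfold tv
                exact add_nonneg (add_nonneg (i1 _ _) (mul_nonneg (by norm_num) (i1 _ _))) (i1 _ _)
              · refine Finset.sum_nonneg (fun j _ => mul_nonneg ?_ (i2 _ _))
                unfold tu
                exact add_nonneg (add_nonneg (i1 _ _) (mul_nonneg (by norm_num) (i1 _ _))) (i1 _ _)
            split_ifs <;> linarith
          exact nonneg_of_mul_nonneg_right h1 hn

theorem deg_eq_av (n : ℕ) : deg (n + 1) = av (n + 1) 1 1 := by
  rw [deg_eq_sv, av_one_left']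

end Pool.Agent.H97.SS
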