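import Pool.Agent.H97.SS.Digits
import Pool.Agent.H97.SS.Series

/-!
The packed vector field.
-/

namespace Pool.Agent.H97.SS

open Polynomial

/-- The block: `1 ≤ p`, `1 ≤ q`, `p + q ≤ D` for the index `i = W0 * p + q`. -/
def blk (W0 D i : ℕ) : Prop := 1 ≤ i / W0 ∧ 1 ≤ i % W0 ∧ i / W0 + i % W0 ≤ D

instance (W0 D i : ℕ) : Decidable (blk W0 D i) := by unfold blk; infer_instance

theorem idx_div {W0 p q : ℕ} (hq : q < W0) : (W0 * p + q) / W0 = p := by
  rw [Nat.mul_add_div (by omega), Nat.div_eq_of_lt hq, add_zero]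

theorem idx_mod {W0 p q : ℕ} (hq : q < W0) : (W0 * p + q) % W0 = q := by
  rw [Nat.mul_add_mod, Nat.mod_eq_of_lt hq]

theorem blk_iff {W0 D p q : ℕ} (hq : q < W0) :
    blk W0 D (W0 * p + q) ↔ 1 ≤ p ∧ 1 ≤ q ∧ p + q ≤ D := by
  unfold blk; rw [idx_div hq, idx_mod hq]

/-- Numbers whose digits live on the block and are less than `2 ^ b`. -/
structure Bk (w W0 D b N : ℕ) : Prop where
  zero : ∀ i, ¬ blk W0 D i → dg w N i = 0
  lt : ∀ i, dg w N i < 2 ^ b

/-- The function on the block extended by `e1`, `e2` on the next two antidiagonals. -/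
def ext (w W0 D N e1 e2 p q : ℕ) : ℕ :=
  if p = 0 ∨ q = 0 then 0 else if p + q ≤ D then dg w N (W0 * p + q)
  else if p + q = D + 1 then e1 else if p + q = D + 2 then e2 else 0

/-- The constants of the packed vector field. -/
structure Cst (w W0 D : ℕ) (BM RM CM AM E1 E2 : ℕ) : Prop where
  bm : ∀ i, dg w BM i = if blk W0 D i then 2 ^ w - 1 else 0
  rm : ∀ i, dg w RM i = if blk W0 D i ∧ i / W0 = 1 then 2 ^ w - 1 else 0
  cm : ∀ i, dg w CM i = if blk W0 D i ∧ i % W0 = 1 ∧ i / W0 ≠ 1 then 2 ^ w - 1 else 0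
  am : ∀ i, dg w AM i = if i = W0 + 1 then 2 ^ w - 1 else 0
  e1 : ∀ i, dg w E1 i = if 1 ≤ i / W0 ∧ 1 ≤ i % W0 ∧ i / W0 + i % W0 = D + 1 then 1 else 0
  e2 : ∀ i, dg w E2 i = if 1 ≤ i / W0 ∧ 1 ≤ i % W0 ∧ i / W0 + i % W0 = D + 2 then 1 else 0

theorem and_mask {w x : ℕ} (h : x < 2 ^ w) : x &&& (2 ^ w - 1) = x := by
  rw [Nat.and_two_pow_sub_one_eq_mod, Nat.mod_eq_of_lt h]

theorem lt_of_dg_zero {w N K : ℕ} (hw : 0 < w) (h : ∀ i, K ≤ i → dg w N i = 0) :
    N < 2 ^ (w * K) := by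
  have h1 : N = N % 2 ^ (w * K) := by
    apply eq_of_dg hw
    intro i
    by_cases hi : K ≤ i
    · rw [h i hi]
      unfold dg
      rw [Nat.div_eq_of_lt, Nat.zero_mod]
      exact (Nat.mod_lt _ (by positivity)).trans_le
        (Nat.pow_le_pow_right (by norm_num) (Nat.mul_le_mul_left _ hi))
    · apply Nat.eq_of_testBit_eq
      intro j
      rw [testBit_dg, testBit_dg, Nat.testBit_mod_two_pow]
      by_cases hj : j < w
      · have h2 : w * i + j < w * K := by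
          calc w * i + j < w * i + w := by omega
            _ = w * (i + 1) := by ring
            _ ≤ w * K := Nat.mul_le_mul_left _ (by omega)
        simp [h2]
      · simp [hj]
  rw [h1]
  exact Nat.mod_lt _ (by positivity)

/-! ### The kernels -/

/-- Kernel of the linear part. -/
noncomputable def kap : ℕ[X][X] :=
  mo 0 0 1 + mo 0 1 2 + mo 0 2 1 + mo 1 0 2 + mo 1 1 4 + mo 1 2 2 + mo 2 0 1 + mo 2 1 2

/-- Kernel of the row. -/
noncomputable def kap1 : ℕ[X][X] := mo 0 0 1 + mo 0 1 2 + mo 0 2 1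

/-- Kernel of the column. -/
noncomputable def kap2 : ℕ[X][X] := mo 0 0 1 + mo 1 0 2 + mo 2 0 1

/-- Kernel of the corner. -/
noncomputable def kap3 : ℕ[X][X] := mo 1 0 2 + mo 2 0 1

/-- Values of the kernels. -/
def Kn (w W0 : ℕ) : ℕ := 1 + 2 * 2 ^ w + 2 ^ (w * 2) + 2 * 2 ^ (w * W0) + 4 * 2 ^ (w * (W0 + 1)) +
  2 * 2 ^ (w * (W0 + 2)) + 2 ^ (w * (2 * W0)) + 2 * 2 ^ (w * (2 * W0 + 1))

def K1n (w : ℕ) : ℕ := 1 + 2 * 2 ^ w + 2 ^ (w * 2)

def K2n (w W0 : ℕ) : ℕ := 1 + 2 * 2 ^ (w * W0) + 2 ^ (w * (2 * W0))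

def K3n (w W0 : ℕ) : ℕ := 2 * 2 ^ (w * W0) + 2 ^ (w * (2 * W0))

theorem ev_kap (w W0 : ℕ) : ev w W0 kap = Kn w W0 := by
  unfold kap Kn
  simp only [map_add, ev_mo]
  ring_nf

theorem ev_kap1 (w W0 : ℕ) : ev w W0 kap1 = K1n w := by
  unfold kap1 K1n
  simp only [map_add, ev_mo]
  ring_nf

theorem ev_kap2 (w W0 : ℕ) : ev w W0 kap2 = K2n w W0 := by
  unfold kap2 K2n
  simp only [map_add, ev_mo]
  ring_nf

theorem ev_kap3 (w W0 : ℕ) : ev w W0 kap3 = K3n w W0 := by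
  unfold kap3 K3n
  simp only [map_add, ev_mo]
  ring_nf

/-- The packed vector field before shifting. -/
def Rn (w W0 s g gx RM CM AM : ℕ) : ℕ :=
  2 ^ (2 * s) * 2 ^ (w * (2 * W0 + 2)) + 2 ^ s * Kn w W0 * gx +
    (K1n w * (g &&& RM) + K2n w W0 * (g &&& CM) + K3n w W0 * (g &&& AM)) * g

section

variable {w W0 D b s BM RM CM AM E1 E2 g gx e1 e2 : ℕ}

theorem dg_gx (hc : Cst w W0 D BM RM CM AM E1 E2) (hbw : b ≤ w) (hg : Bk w W0 D b g)
    (h1 : e1 < 2 ^ b) (h2 : e2 < 2 ^ b) {p q : ℕ} (hq : q < W0) :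
    dg w (g + e1 * E1 + e2 * E2) (W0 * p + q) = ext w W0 D g e1 e2 p q := by
  have hpw : 2 ^ b ≤ 2 ^ w := Nat.pow_le_pow_right (by norm_num) hbw
  have a1 : ∀ i, dg w (e1 * E1) i = e1 * dg w E1 i := by
    intro i
    refine dg_smul (fun j => ?_) i
    rw [hc.e1]; split_ifs <;> omega
  have a2 : ∀ i, dg w (e2 * E2) i = e2 * dg w E2 i := by
    intro i
    refine dg_smul (fun j => ?_) i
    rw [hc.e2]; split_ifs <;> omega
  have a3 : ∀ i, dg w (g + e1 * E1) i = dg w g i + e1 * dg w E1 i := by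
    intro i
    rw [dg_add, a1]
    intro j
    rw [a1, hc.e1]
    by_cases hb : blk W0 D j
    · rw [if_neg (by unfold blk at hb; omega)]; have := hg.lt j; omega
    · rw [hg.zero j hb]; split_ifs <;> omega
  have a4 : ∀ i, dg w (g + e1 * E1 + e2 * E2) i = dg w g i + e1 * dg w E1 i + e2 * dg w E2 i := by
    intro i
    rw [dg_add, a3, a2]
    intro j
    rw [a3, a2, hc.e1, hc.e2]
    by_cases hb : blk W0 D j
    · rw [if_neg (by unfold blk at hb; omega), if_neg (by unfold blk at hb; omega)]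
      have := hg.lt j; omega
    · rw [hg.zero j hb]
      split_ifs
      · omega
      · omega
      · omega
      · simp
  rw [a4, hc.e1, hc.e2, idx_div hq, idx_mod hq]
  unfold ext
  by_cases h0 : p = 0 ∨ q = 0
  · rw [if_pos h0, hg.zero _ (by rw [blk_iff hq]; omega), if_neg (by omega), if_neg (by omega)]
    simp
  · rw [if_neg h0]
    by_cases h3 : p + q ≤ D
    · rw [if_pos h3, if_neg (by omega), if_neg (by omega)]; simp
    · rw [if_neg h3, hg.zero _ (by rw [blk_iff hq]; omega)]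
      by_cases h4 : p + q = D + 1
      · rw [if_pos h4, if_pos (by omega), if_neg (by omega)]; simp
      · rw [if_neg h4, if_neg (by omega)]
        by_cases h5 : p + q = D + 2
        · rw [if_pos h5, if_pos (by omega)]; simp
        · rw [if_neg h5, if_neg (by omega)]; simp

theorem dg_row (hc : Cst w W0 D BM RM CM AM E1 E2) (i : ℕ) :
    dg w (g &&& RM) i = if blk W0 D i ∧ i / W0 = 1 then dg w g i else 0 := by
  rw [dg_land, hc.rm]
  split_ifs
  · exact and_mask (dg_lt _ _ _)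
  · simp

theorem dg_col (hc : Cst w W0 D BM RM CM AM E1 E2) (i : ℕ) :
    dg w (g &&& CM) i = if blk W0 D i ∧ i % W0 = 1 ∧ i / W0 ≠ 1 then dg w g i else 0 := by
  rw [dg_land, hc.cm]
  split_ifs
  · exact and_mask (dg_lt _ _ _)
  · simp

theorem dg_cor (hc : Cst w W0 D BM RM CM AM E1 E2) (i : ℕ) :
    dg w (g &&& AM) i = if i = W0 + 1 then dg w g i else 0 := by
  rw [dg_land, hc.am]
  split_ifs
  · exact and_mask (dg_lt _ _ _)
  · simp

/-! ### Coefficients -/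

theorem pcf_kap1_mul (P : ℕ[X][X]) (p q : ℕ) : pcf (kap1 * P) p q =
    pcf P p q + (if 1 ≤ q then 2 * pcf P p (q - 1) else 0) +
      (if 2 ≤ q then pcf P p (q - 2) else 0) := by
  unfold kap1
  simp only [add_mul, pcf_add, pcf_mo_mul, Nat.zero_le, true_and, if_true, Nat.sub_zero, one_mul]

theorem pcf_kap2_mul (P : ℕ[X][X]) (p q : ℕ) : pcf (kap2 * P) p q =
    pcf P p q + (if 1 ≤ p then 2 * pcf P (p - 1) q else 0) +
      (if 2 ≤ p then pcf P (p - 2) q else 0) := by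
  unfold kap2
  simp only [add_mul, pcf_add, pcf_mo_mul, Nat.zero_le, and_true, if_true, Nat.sub_zero, one_mul]

theorem pcf_kap3_mul (P : ℕ[X][X]) (p q : ℕ) : pcf (kap3 * P) p q =
    (if 1 ≤ p then 2 * pcf P (p - 1) q else 0) +
      (if 2 ≤ p then pcf P (p - 2) q else 0) := by
  unfold kap3
  simp only [add_mul, pcf_add, pcf_mo_mul, Nat.zero_le, and_true, Nat.sub_zero, one_mul]

theorem pcf_kap_mul (P : ℕ[X][X]) (p q : ℕ) :
    pcf (kap * P) (p + 2) (q + 2) = lin (pcf P) (p + 1) (q + 1) := by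
  unfold kap lin
  simp only [add_mul, pcf_add, pcf_mo_mul]
  simp
  ring

/-- The row-column polynomial. -/
noncomputable def PT (w W0 RM CM AM g : ℕ) : ℕ[X][X] :=
  kap1 * toP w W0 W0 (g &&& RM) + kap2 * toP w W0 W0 (g &&& CM) + kap3 * toP w W0 W0 (g &&& AM)

/-- The block function. -/
def gb (w W0 D N p q : ℕ) : ℕ :=
  if 1 ≤ p ∧ 1 ≤ q ∧ p + q ≤ D then dg w N (W0 * p + q) else 0

theorem pcf_toP_block (hD : D < W0) (hg : Bk w W0 D b g) (p q : ℕ) :
    pcf (toP w W0 W0 g) p q = gb w W0 D g p q := by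
  rw [pcf_toP]
  unfold gb
  by_cases h : 1 ≤ p ∧ 1 ≤ q ∧ p + q ≤ D
  · rw [if_pos h, if_pos (by omega)]
  · rw [if_neg h]
    split_ifs with h2
    · exact hg.zero _ (by rw [blk_iff h2.2]; exact h)
    · rfl

theorem pcf_row (hc : Cst w W0 D BM RM CM AM E1 E2) (hD : D < W0) (p q : ℕ) :
    pcf (toP w W0 W0 (g &&& RM)) p q = if p = 1 then gb w W0 D g p q else 0 := by
  rw [pcf_toP]
  unfold gb
  by_cases hq : q < W0
  · rw [dg_row hc]
    simp only [blk_iff hq, idx_div hq]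
    split_ifs <;> first | rfl | omega
  · split_ifs <;> first | rfl | omega

theorem pcf_col (hc : Cst w W0 D BM RM CM AM E1 E2) (hD : D < W0) (p q : ℕ) :
    pcf (toP w W0 W0 (g &&& CM)) p q = if q = 1 ∧ p ≠ 1 then gb w W0 D g p q else 0 := by
  rw [pcf_toP]
  unfold gb
  by_cases hq : q < W0
  · rw [dg_col hc]
    simp only [blk_iff hq, idx_div hq, idx_mod hq]
    split_ifs <;> first | rfl | omega
  · split_ifs <;> first | rfl | omega

theorem pcf_cor (hc : Cst w W0 D BM RM CM AM E1 E2) (hD : D < W0) (hD2 : 2 ≤ D) (p q : ℕ) :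
    pcf (toP w W0 W0 (g &&& AM)) p q = if p = 1 ∧ q = 1 then gb w W0 D g 1 1 else 0 := by
  rw [pcf_toP]
  unfold gb
  by_cases hq : q < W0
  · rw [dg_cor hc]
    by_cases h1 : p = 1 ∧ q = 1
    · obtain ⟨rfl, rfl⟩ := h1
      simp only [mul_one, if_true, and_self]
      rw [if_pos (by omega), if_pos (by omega)]
    · rw [if_neg h1]
      split_ifs with h2 h3
      · exfalso
        apply h1
        have e1 := idx_div (p := p) hq
        have e2 := idx_mod (p := p) hq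
        have e3 : W0 + 1 = W0 * 1 + 1 := by ring
        rw [h3, e3] at e1 e2
        rw [idx_div (by omega)] at e1
        rw [idx_mod (by omega)] at e2
        omega
      · rfl
      · rfl
  · split_ifs <;> first | rfl | omega

theorem gb_zero_left (w W0 D N q : ℕ) : gb w W0 D N 0 q = 0 := by simp [gb]

theorem gb_zero_right (w W0 D N p : ℕ) : gb w W0 D N p 0 = 0 := by simp [gb]

/-- The row-column function. -/
theorem pcf_PT (hc : Cst w W0 D BM RM CM AM E1 E2) (hD : D < W0) (hD2 : 2 ≤ D) (p q : ℕ) :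
    pcf (PT w W0 RM CM AM g) p q =
      if p = 1 then
        (if q = 0 then 0 else if q = 1 then gb w W0 D g 1 1 else tv (gb w W0 D g) (q - 1))
      else if 2 ≤ p ∧ q = 1 then tu (gb w W0 D g) (p - 1) else 0 := by
  unfold PT
  rw [pcf_add, pcf_add, pcf_kap1_mul, pcf_kap2_mul, pcf_kap3_mul]
  simp only [pcf_row hc hD, pcf_col hc hD, pcf_cor hc hD hD2]
  unfold tv tu
  rcases p with _ | _ | _ | _ | p
  · simp [gb_zero_left]
  · rcases q with _ | _ | q
    · simp [gb_zero_right]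
    · simp [gb_zero_right, gb_zero_left]
    · have e : 2 ≤ q + 1 + 1 := by omega
      simp only [zero_add, if_true, e, Nat.add_sub_cancel]
      simp
      ring
  · rcases q with _ | _ | q
    · simp
    · simp [gb_zero_left]
      try ring
    · simp
  · rcases q with _ | _ | q
    · simp
    · simp
      ring
    · simp
  · rcases q with _ | _ | q
    · simp
    · simp
      ring
    · simp

theorem pcf_prod (hc : Cst w W0 D BM RM CM AM E1 E2) (hD : D < W0) (hD2 : 2 ≤ D)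
    (hg : Bk w W0 D b g) (p q : ℕ) :
    pcf (PT w W0 RM CM AM g * toP w W0 W0 g) (p + 2) (q + 2) =
      bil (gb w W0 D g) (gb w W0 D g) (p + 1) (q + 1) := by
  rw [pcf_mul]
  simp only [pcf_toP_block hD hg, pcf_PT hc hD hD2]
  set G := gb w W0 D g with hG
  have hz1 : ∀ q, G 0 q = 0 := fun q => gb_zero_left _ _ _ _ _
  have hz2 : ∀ p, G p 0 = 0 := fun p => gb_zero_right _ _ _ _ _
  rw [Finset.Nat.sum_antidiagonal_eq_sum_range_succ_mk]
  rw [Finset.sum_range_succ', Finset.sum_range_succ']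
  have e0 : ∑ b ∈ Finset.HasAntidiagonal.antidiagonal (q + 2),
      (if (0 : ℕ) = 1 then (if b.1 = 0 then 0 else if b.1 = 1 then G 1 1 else tv G (b.1 - 1))
        else if 2 ≤ 0 ∧ b.1 = 1 then tu G (0 - 1) else 0) * G (p + 2 - 0) b.2 = 0 := by
    refine Finset.sum_eq_zero (fun b _ => ?_)
    simp
  rw [e0, add_zero]
  have e1 : ∑ b ∈ Finset.HasAntidiagonal.antidiagonal (q + 2),
      (if 0 + 1 = 1 then (if b.1 = 0 then 0 else if b.1 = 1 then G 1 1 else tv G (b.1 - 1))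
        else if 2 ≤ 0 + 1 ∧ b.1 = 1 then tu G (0 + 1 - 1) else 0) * G (p + 2 - (0 + 1)) b.2 =
      G 1 1 * G (p + 1) (q + 1) + ∑ j ∈ Finset.range q, tv G (j + 1) * G (p + 1) (q - j) := by
    rw [Finset.Nat.sum_antidiagonal_eq_sum_range_succ_mk]
    rw [Finset.sum_range_succ', Finset.sum_range_succ']
    rw [Finset.sum_range_succ]
    have h2 : ∀ j ∈ Finset.range q, (if 0 + 1 = 1 then (if (j + 1 + 1, q + 2 - (j + 1 + 1)).1 = 0
        then 0 else if (j + 1 + 1, q + 2 - (j + 1 + 1)).1 = 1 then G 1 1 else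
          tv G ((j + 1 + 1, q + 2 - (j + 1 + 1)).1 - 1))
        else if 2 ≤ 0 + 1 ∧ (j + 1 + 1, q + 2 - (j + 1 + 1)).1 = 1 then tu G (0 + 1 - 1) else 0) *
          G (p + 2 - (0 + 1)) (j + 1 + 1, q + 2 - (j + 1 + 1)).2 =
        tv G (j + 1) * G (p + 1) (q - j) := by
      intro j hj
      have hj' := Finset.mem_range.1 hj
      simp only [zero_add, if_true]
      rw [if_neg (by omega), if_neg (by omega)]
      congr 2
      omega
    rw [Finset.sum_congr rfl h2]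
    simp only [zero_add, if_true]
    have h3 : q + 2 - (q + 1 + 1) = 0 := by omega
    have h4 : q + 2 - 1 = q + 1 := by omega
    have h5 : p + 2 - 1 = p + 1 := by omega
    simp only [h3, h4, h5, hz2, mul_zero, add_zero]
    simp
    ring
  rw [e1]
  have e2 : ∀ i ∈ Finset.range (p + 1), ∑ b ∈ Finset.HasAntidiagonal.antidiagonal (q + 2),
      (if i + 1 + 1 = 1 then (if b.1 = 0 then 0 else if b.1 = 1 then G 1 1 else tv G (b.1 - 1))
        else if 2 ≤ i + 1 + 1 ∧ b.1 = 1 then tu G (i + 1 + 1 - 1) else 0) *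
          G (p + 2 - (i + 1 + 1)) b.2 = tu G (i + 1) * G (p - i) (q + 1) := by
    intro i hi
    rw [Finset.sum_eq_single ((1, q + 1) : ℕ × ℕ)]
    · rw [if_neg (by omega), if_pos (by simp)]
      congr 2
      omega
    · rintro ⟨b1, b2⟩ hb hne
      have hb' := Finset.HasAntidiagonal.mem_antidiagonal.1 hb
      simp only at hb'
      rw [if_neg (by omega), if_neg, zero_mul]
      rintro ⟨-, h⟩
      simp only at h
      apply hne
      rw [Prod.mk.injEq]; omega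
    · intro h
      exact absurd (Finset.HasAntidiagonal.mem_antidiagonal.2 (by simp; ring)) h
  rw [Finset.sum_congr rfl e2, Finset.sum_range_succ]
  unfold bil
  simp only [Nat.add_sub_cancel, Nat.sub_self, hz1, mul_zero, add_zero]
  ring

/-- The polynomial of the packed vector field. -/
noncomputable def PR (w W0 s RM CM AM g gx : ℕ) : ℕ[X][X] :=
  mo 2 2 (2 ^ (2 * s)) + mo 0 0 (2 ^ s) * (kap * toP w W0 W0 gx) +
    PT w W0 RM CM AM g * toP w W0 W0 g

theorem bk_lt (hw : 0 < w) (hD : D < W0) (hg : Bk w W0 D b g) : g < 2 ^ (w * W0 * W0) := by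
  rw [mul_assoc]
  refine lt_of_dg_zero hw (fun i hi => hg.zero i ?_)
  intro h
  have h1 : W0 ≤ i / W0 := (Nat.le_div_iff_mul_le (by omega)).2 hi
  unfold blk at h
  omega

theorem gx_lt (hc : Cst w W0 D BM RM CM AM E1 E2) (hw : 0 < w) (hbw : b ≤ w)
    (hD : D + 3 < W0) (hg : Bk w W0 D b g)
    (h1 : e1 < 2 ^ b) (h2 : e2 < 2 ^ b) : g + e1 * E1 + e2 * E2 < 2 ^ (w * W0 * W0) := by
  rw [mul_assoc]
  refine lt_of_dg_zero hw (fun i hi => ?_)
  have h3 : W0 ≤ i / W0 := (Nat.le_div_iff_mul_le (by omega)).2 hi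
  have h4 : i % W0 < W0 := Nat.mod_lt _ (by omega)
  have h5 := dg_gx hc hbw hg h1 h2 (p := i / W0) h4
  rw [Nat.div_add_mod] at h5
  rw [h5]
  unfold ext
  split_ifs <;> omega

theorem pcf_gx (hc : Cst w W0 D BM RM CM AM E1 E2) (hbw : b ≤ w)
    (hD : D + 3 < W0) (hg : Bk w W0 D b g)
    (h1 : e1 < 2 ^ b) (h2 : e2 < 2 ^ b) (p q : ℕ) :
    pcf (toP w W0 W0 (g + e1 * E1 + e2 * E2)) p q = ext w W0 D g e1 e2 p q := by
  rw [pcf_toP]
  by_cases h : p < W0 ∧ q < W0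
  · rw [if_pos h, dg_gx hc hbw hg h1 h2 h.2]
  · rw [if_neg h]
    unfold ext
    split_ifs <;> omega

theorem ext_le (hg : Bk w W0 D b g) (h1 : e1 < 2 ^ b) (h2 : e2 < 2 ^ b) (p q : ℕ) :
    ext w W0 D g e1 e2 p q < 2 ^ b := by
  unfold ext
  have := Nat.pos_of_ne_zero (pow_ne_zero b (two_ne_zero (α := ℕ)))
  split_ifs
  · exact this
  · exact hg.lt _
  · exact h1
  · exact h2
  · exact this

theorem ev_PR (hc : Cst w W0 D BM RM CM AM E1 E2) (hw : 0 < w) (hbw : b ≤ w)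
    (hD : D + 3 < W0) (hg : Bk w W0 D b g)
    (h1 : e1 < 2 ^ b) (h2 : e2 < 2 ^ b) :
    ev w W0 (PR w W0 s RM CM AM g (g + e1 * E1 + e2 * E2)) =
      Rn w W0 s g (g + e1 * E1 + e2 * E2) RM CM AM := by
  have hlt := bk_lt hw (by omega) hg
  have a0 := ev_toP hlt
  have a1 := ev_toP (gx_lt hc hw hbw hD hg h1 h2)
  have a2 := ev_toP (Nat.and_le_left.trans_lt hlt : g &&& RM < 2 ^ (w * W0 * W0))
  have a3 := ev_toP (Nat.and_le_left.trans_lt hlt : g &&& CM < 2 ^ (w * W0 * W0))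
  have a4 := ev_toP (Nat.and_le_left.trans_lt hlt : g &&& AM < 2 ^ (w * W0 * W0))
  unfold PR PT Rn
  simp only [map_add, map_mul, ev_mo, ev_kap, ev_kap1, ev_kap2, ev_kap3, a0, a1, a2, a3, a4]
  simp only [mul_zero, add_zero, pow_zero, mul_one]
  ring_nf

theorem ev1_kap : ev1 kap = 15 := by
  unfold kap; simp only [map_add, ev1_mo]

theorem ev1_kap1 : ev1 kap1 = 4 := by
  unfold kap1; simp only [map_add, ev1_mo]

theorem ev1_kap2 : ev1 kap2 = 4 := by
  unfold kap2; simp only [map_add, ev1_mo]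

theorem ev1_kap3 : ev1 kap3 = 3 := by
  unfold kap3; simp only [map_add, ev1_mo]

theorem pcf_PR_lt (hc : Cst w W0 D BM RM CM AM E1 E2) (hbw : b ≤ w)
    (hD : D + 3 < W0) (hg : Bk w W0 D b g)
    (h1 : e1 < 2 ^ b) (h2 : e2 < 2 ^ b) (p q : ℕ) :
    pcf (PR w W0 s RM CM AM g (g + e1 * E1 + e2 * E2)) p q ≤
      2 ^ (2 * s) + 15 * 2 ^ s * (W0 * W0 * 2 ^ b) + 11 * (W0 * W0 * 2 ^ b) ^ 2 := by
  refine (pcf_le_ev1 _ p q).trans ?_
  have b0 : ev1 (toP w W0 W0 g) ≤ W0 * W0 * 2 ^ b := ev1_toP_le (fun i => (hg.lt i).le)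
  have b1 : ev1 (toP w W0 W0 (g + e1 * E1 + e2 * E2)) ≤ W0 * W0 * 2 ^ b := by
    refine ev1_toP_le (fun i => ?_)
    have h4 : i % W0 < W0 := Nat.mod_lt _ (by omega)
    have h5 := dg_gx hc hbw hg h1 h2 (p := i / W0) h4
    rw [Nat.div_add_mod] at h5
    rw [h5]
    exact (ext_le hg h1 h2 _ _).le
  have b2 : ev1 (toP w W0 W0 (g &&& RM)) ≤ W0 * W0 * 2 ^ b := by
    refine ev1_toP_le (fun i => ?_)
    rw [dg_land]; exact Nat.and_le_left.trans (hg.lt i).le
  have b3 : ev1 (toP w W0 W0 (g &&& CM)) ≤ W0 * W0 * 2 ^ b := by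
    refine ev1_toP_le (fun i => ?_)
    rw [dg_land]; exact Nat.and_le_left.trans (hg.lt i).le
  have b4 : ev1 (toP w W0 W0 (g &&& AM)) ≤ W0 * W0 * 2 ^ b := by
    refine ev1_toP_le (fun i => ?_)
    rw [dg_land]; exact Nat.and_le_left.trans (hg.lt i).le
  unfold PR PT
  simp only [map_add, map_mul, ev1_mo, ev1_kap, ev1_kap1, ev1_kap2, ev1_kap3]
  set B := W0 * W0 * 2 ^ b
  have c1 : 2 ^ s * (15 * ev1 (toP w W0 W0 (g + e1 * E1 + e2 * E2))) ≤ 15 * 2 ^ s * B := by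
    calc 2 ^ s * (15 * ev1 (toP w W0 W0 (g + e1 * E1 + e2 * E2)))
        ≤ 2 ^ s * (15 * B) := Nat.mul_le_mul_left _ (Nat.mul_le_mul_left _ b1)
      _ = 15 * 2 ^ s * B := by ring
  have c2 : (4 * ev1 (toP w W0 W0 (g &&& RM)) + 4 * ev1 (toP w W0 W0 (g &&& CM)) +
      3 * ev1 (toP w W0 W0 (g &&& AM))) * ev1 (toP w W0 W0 g) ≤ 11 * B ^ 2 := by
    calc _ ≤ (4 * B + 4 * B + 3 * B) * B :=
          Nat.mul_le_mul (by omega) b0
      _ = 11 * B ^ 2 := by ring
  omega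

theorem pcf_PR_zero (hc : Cst w W0 D BM RM CM AM E1 E2) (hbw : b ≤ w)
    (hD : D + 3 < W0) (hD2 : 2 ≤ D) (hD3 : 2 * D + 2 ≤ W0) (hg : Bk w W0 D b g)
    (h1 : e1 < 2 ^ b) (h2 : e2 < 2 ^ b) (p q : ℕ) (hq : W0 ≤ q) :
    pcf (PR w W0 s RM CM AM g (g + e1 * E1 + e2 * E2)) p q = 0 := by
  unfold PR
  rw [pcf_add, pcf_add, pcf_mo, if_neg (by omega), zero_add, pcf_mo_mul]
  have e1 : pcf (kap * toP w W0 W0 (g + e1 * E1 + e2 * E2)) p q = 0 := by
    unfold kap
    simp only [add_mul, pcf_add, pcf_mo_mul, pcf_gx hc hbw hD hg h1 h2]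
    have hz : ∀ i j, D + 2 ≤ j → ext w W0 D g e1 e2 i j = 0 := by
      intro i j hj
      unfold ext
      split_ifs <;> omega
    simp only [hz _ (q - 0) (by omega), hz _ (q - 1) (by omega),
      hz _ (q - 2) (by omega), mul_zero, ite_self, add_zero]
  have e2 : pcf (PT w W0 RM CM AM g * toP w W0 W0 g) p q = 0 := by
    rw [pcf_mul]
    refine Finset.sum_eq_zero (fun a _ => Finset.sum_eq_zero (fun b hb => ?_))
    have hb' := Finset.HasAntidiagonal.mem_antidiagonal.1 hb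
    rw [pcf_toP_block (by omega) hg, pcf_PT hc (by omega) hD2]
    by_cases h5 : D ≤ b.2
    · have : gb w W0 D g a.2 b.2 = 0 := by unfold gb; rw [if_neg (by omega)]
      rw [this, mul_zero]
    · have h6 : D + 3 ≤ b.1 := by omega
      have h7 : tv (gb w W0 D g) (b.1 - 1) = 0 := by
        unfold tv gb
        rw [if_neg (by omega), if_neg (by omega), if_neg (by omega)]
        norm_num
      rw [h7]
      split_ifs <;> first | omega | simp
  simp only [Nat.sub_zero, e1, e2]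
  simp

/-- The packed vector field. -/
def Rf (w W0 s g e1 e2 BM RM CM AM E1 E2 : ℕ) : ℕ :=
  (Rn w W0 s g (g + e1 * E1 + e2 * E2) RM CM AM >>> (w * (W0 + 1))) &&& BM

/-- The scaled vector field. -/
def Rs (s : ℕ) (G : ℕ → ℕ → ℕ) (p q : ℕ) : ℕ :=
  (if p = 1 ∧ q = 1 then 2 ^ (2 * s) else 0) + 2 ^ s * lin G p q + bil G G p q

theorem bil_congr {G G' : ℕ → ℕ → ℕ} {p q : ℕ} (hp : 1 ≤ p) (hq : 1 ≤ q)
    (h : ∀ i j, i + j ≤ p + q → G i j = G' i j) : bil G G p q = bil G' G' p q := by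
  unfold bil tv tu
  congr 1
  · congr 1
    · rw [h 1 1 (by omega), h p q le_rfl]
    · refine Finset.sum_congr rfl (fun j hj => ?_)
      have hj' := Finset.mem_range.1 hj
      rw [h _ _ (by omega), h _ _ (by omega), h 1 (j + 1 + 1) (by omega), h p _ (by omega)]
  · refine Finset.sum_congr rfl (fun j hj => ?_)
    have hj' := Finset.mem_range.1 hj
    rw [h _ _ (by omega), h _ _ (by omega), h (j + 1 + 1) 1 (by omega), h _ q (by omega)]

theorem dg_Rf (hc : Cst w W0 D BM RM CM AM E1 E2) (hw : 0 < w) (hbw : b ≤ w)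
    (hD : D + 3 < W0) (hD2 : 2 ≤ D) (hD3 : 2 * D + 2 ≤ W0) (hg : Bk w W0 D b g)
    (h1 : e1 < 2 ^ b) (h2 : e2 < 2 ^ b)
    (hB : 2 ^ (2 * s) + 15 * 2 ^ s * (W0 * W0 * 2 ^ b) + 11 * (W0 * W0 * 2 ^ b) ^ 2 < 2 ^ w)
    {p q : ℕ} (hp : 1 ≤ p) (hq : 1 ≤ q) (hpq : p + q ≤ D) :
    dg w (Rf w W0 s g e1 e2 BM RM CM AM E1 E2) (W0 * p + q) =
      Rs s (ext w W0 D g e1 e2) p q := by
  unfold Rf
  rw [dg_land, hc.bm, if_pos ((blk_iff (by omega)).2 ⟨hp, hq, hpq⟩), and_mask (dg_lt _ _ _),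
    dg_shiftRight, ← ev_PR hc hw hbw hD hg h1 h2]
  have e : W0 * p + q + (W0 + 1) = W0 * (p + 1) + (q + 1) := by ring
  rw [e, dg_ev (fun p q h => pcf_PR_zero hc hbw hD hD2 hD3 hg h1 h2 p q h)
    (fun p q => (pcf_PR_lt hc hbw hD hg h1 h2 p q).trans_lt hB) (by omega)]
  obtain ⟨p, rfl⟩ := Nat.exists_eq_add_of_le' hp
  obtain ⟨q, rfl⟩ := Nat.exists_eq_add_of_le' hq
  unfold PR Rs
  rw [pcf_add, pcf_add, pcf_mo_mul, if_pos (by omega), Nat.sub_zero, Nat.sub_zero,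
    pcf_kap_mul, pcf_prod hc (by omega) hD2 hg, pcf_mo]
  have e1 : (pcf (toP w W0 W0 (g + e1 * E1 + e2 * E2))) = ext w W0 D g e1 e2 := by
    funext p q; exact pcf_gx hc hbw hD hg h1 h2 p q
  rw [e1]
  congr 1
  · congr 1
    by_cases h : p + 1 = 1 ∧ q + 1 = 1
    · rw [if_pos h, if_pos (by omega)]
    · rw [if_neg h, if_neg (by omega)]
  · refine bil_congr hp hq (fun i j hij => ?_)
    unfold gb ext
    by_cases h3 : i = 0 ∨ j = 0
    · rw [if_neg (by omega), if_pos h3]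
    · rw [if_pos (by omega), if_neg h3, if_pos (by omega)]

theorem Bk_Rf {wR : ℕ} (hc : Cst w W0 D BM RM CM AM E1 E2) (hw : 0 < w) (hbw : b ≤ w)
    (hD : D + 3 < W0) (hD2 : 2 ≤ D) (hD3 : 2 * D + 2 ≤ W0) (hg : Bk w W0 D b g)
    (h1 : e1 < 2 ^ b) (h2 : e2 < 2 ^ b)
    (hB : 2 ^ (2 * s) + 15 * 2 ^ s * (W0 * W0 * 2 ^ b) + 11 * (W0 * W0 * 2 ^ b) ^ 2 < 2 ^ wR)
    (hwR : wR ≤ w) : Bk w W0 D wR (Rf w W0 s g e1 e2 BM RM CM AM E1 E2) := by
  have hB' := hB.trans_le (Nat.pow_le_pow_right (by norm_num) hwR : 2 ^ wR ≤ 2 ^ w)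
  have hz : ∀ i, ¬ blk W0 D i → dg w (Rf w W0 s g e1 e2 BM RM CM AM E1 E2) i = 0 := by
    intro i hi
    unfold Rf
    rw [dg_land, hc.bm, if_neg hi, Nat.and_zero]
  refine ⟨hz, fun i => ?_⟩
  by_cases hi : blk W0 D i
  · have h4 : i % W0 < W0 := Nat.mod_lt _ (by omega)
    unfold Rf
    rw [dg_land, hc.bm, if_pos hi, and_mask (dg_lt _ _ _), dg_shiftRight,
      ← ev_PR hc hw hbw hD hg h1 h2]
    have e : i + (W0 + 1) = W0 * (i / W0 + 1) + (i % W0 + 1) := by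
      conv_lhs => rw [← Nat.div_add_mod i W0]
      ring
    have h5 : i % W0 + 1 < W0 := by unfold blk at hi; omega
    rw [e, dg_ev (fun p q h => pcf_PR_zero hc hbw hD hD2 hD3 hg h1 h2 p q h)
      (fun p q => (pcf_PR_lt hc hbw hD hg h1 h2 p q).trans_lt hB') h5]
    exact (pcf_PR_lt hc hbw hD hg h1 h2 _ _).trans_lt hB
  · rw [hz i hi]; positivity

end

end Pool.Agent.H97.SS
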