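import Mathlib

/-!
Programs evaluated by the kernel.
-/

namespace Pool.Agent.H97.SS

/-- Call by value. -/
noncomputable def force {α : Type} (n : ℕ) (k : ℕ → α) : α :=
  @Nat.rec (fun _ => α) (k 0) (fun m _ => k (Nat.succ m)) n

theorem force_eq {α : Type} (n : ℕ) (k : ℕ → α) : force n k = k n := by
  cases n <;> rfl

/-- Continue if the test succeeds. -/
noncomputable def chk (b k : Bool) : Bool := @Bool.rec (fun _ => Bool) false k b

theorem chk_eq (b k : Bool) : chk b k = (b && k) := by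
  cases b <;> rfl

theorem force_elim {n : ℕ} {k : ℕ → Bool} (h : force n k = true) : ∃ m, m = n ∧ k m = true :=
  ⟨n, rfl, by rwa [force_eq] at h⟩

theorem chk_elim {b k : Bool} (h : chk b k = true) : b = true ∧ k = true := by
  rwa [chk_eq, Bool.and_eq_true] at h

/-- Packed number with given digits. -/
noncomputable def mkN (w : ℕ) (f : ℕ → ℕ) (K : ℕ) : ℕ :=
  @Nat.rec (fun _ => ℕ) 0 (fun k ih => Nat.add ih (Nat.mul (f k) (Nat.pow 2 (Nat.mul w k)))) K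

/-- The packed powers `C r ^ m / 2 ^ (s m)` for `m < K`. -/
noncomputable def powV (w s C r : ℕ) (K : ℕ) : ℕ :=
  @Nat.rec (fun _ => ℕ) 0 (fun m ih => Nat.add ih (Nat.shiftLeft (Nat.shiftRight
    (Nat.mul C (Nat.pow r m)) (Nat.mul s m)) (Nat.mul w m))) K

/-- The packed vector field, kernel version. -/
noncomputable def RfK (S2 SK K1 K2 K3 sw BM RM CM AM E1 E2 g e1 e2 : ℕ) : ℕ :=
  Nat.land (Nat.shiftRight (Nat.add (Nat.add S2 (Nat.mul SK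
    (Nat.add (Nat.add g (Nat.mul e1 E1)) (Nat.mul e2 E2))))
    (Nat.mul (Nat.add (Nat.add (Nat.mul K1 (Nat.land g RM)) (Nat.mul K2 (Nat.land g CM)))
      (Nat.mul K3 (Nat.land g AM))) g)) sw) BM

/-- One step of the upper scheme. -/
noncomputable def ustep (w D s S M S2 SK K1 K2 K3 sw BM RM CM AM E1 E2 ONE Z BS BP B60 BQ BB b2 w2 dm : ℕ)
    (n K A0 A1 A2 g R0 Rp Rpp C r dr : ℕ) (k : ℕ → ℕ → ℕ → ℕ → ℕ → Bool) : Bool :=
  chk (Nat.ble n 34359738367) <|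
  force (Nat.land (Nat.mul (powV w s C r (Nat.pred D)) Z) BM) fun Dom =>
  force (Nat.add (Nat.add (Nat.add g (Nat.land (Nat.shiftRight (Nat.mul n (Nat.sub
    (Nat.add (Nat.mul A0 R0) (Nat.mul A2 Rpp)) (Nat.mul A1 Rp))) (Nat.add s 47)) BP))
    (Nat.land (Nat.shiftRight (Nat.mul K Dom) 60) B60)) (Nat.mul 4 ONE)) fun gh =>
  chk (Nat.beq (Nat.land gh BB) gh) <|
  force (Nat.land (Nat.shiftRight g sw) dm) fun g11 =>
  force (Nat.land (Nat.shiftRight gh sw) dm) fun gh11 =>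
  force (Nat.add C (Nat.sub (Nat.add gh11 (Nat.shiftRight (Nat.mul (Nat.sub gh11 g11) 5) 2)) C)) fun C' =>
  force (Nat.mul r r) fun rr =>
  force (Nat.add r S) fun rS =>
  force (Nat.mul (Nat.mul n C') (Nat.mul rS rS)) fun nCr =>
  force (Nat.add (Nat.add r dr) (Nat.add (Nat.shiftRight dr 2) (Nat.shiftRight r 16))) fun rest =>
  force (Nat.add (Nat.div nCr (Nat.mul M rr)) (Nat.add (Nat.div (Nat.sub (Nat.succ (Nat.div (Nat.mul n
    (Nat.add (Nat.add (Nat.add (Nat.shiftRight (Nat.mul rest rest) s) (Nat.mul 4 rest))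
      (Nat.add (Nat.mul 6 S) (Nat.div (Nat.mul 4 (Nat.mul S S)) r))) (Nat.succ gh11))) M))
    (Nat.div (Nat.mul (Nat.sub C' C) S) C')) (Nat.pred D)) 3)) fun dl =>
  force (Nat.succ (Nat.div (Nat.mul r S) (Nat.sub S dl))) fun r' =>
  force (Nat.sub r' r) fun dr' =>
  chk (Nat.ble r r') <|
  chk (Nat.ble (Nat.mul nCr r') (Nat.mul (Nat.mul M S) (Nat.mul rr dr'))) <|
  chk (Nat.ble (Nat.mul n (Nat.add (Nat.mul (Nat.mul r' C') (Nat.add (Nat.mul rr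
      (Nat.add (Nat.mul r' r') (Nat.mul S (Nat.add (Nat.add (Nat.mul 4 r') (Nat.mul 6 S)) gh11))))
      (Nat.mul (Nat.mul 4 r) (Nat.mul S (Nat.mul S S)))))
      (Nat.mul (Nat.mul (Nat.mul r' C') (Nat.pred D)) (Nat.mul (Nat.mul C' S) (Nat.mul rS rS)))))
    (Nat.mul (Nat.mul (Nat.mul M rr) (Nat.mul S S))
      (Nat.add (Nat.mul (Nat.sub C' C) r') (Nat.mul (Nat.pred D) (Nat.mul dr' C'))))) <|
  chk (Nat.ble (Nat.mul (Nat.mul (Nat.pred D) C) (Nat.pow (Nat.succ (Nat.shiftRight r s))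
    (Nat.pred (Nat.pred D)))) w2) <|
  force (Nat.pow r' (Nat.pred D)) fun rp =>
  force (Nat.succ (Nat.shiftRight (Nat.mul C' rp) (Nat.mul s (Nat.pred D)))) fun e1 =>
  force (Nat.succ (Nat.shiftRight (Nat.mul C' (Nat.mul rp r')) (Nat.mul s D))) fun e2 =>
  chk (Nat.ble e1 b2) <|
  chk (Nat.ble e2 b2) <|
  force (RfK S2 SK K1 K2 K3 sw BM RM CM AM E1 E2 gh e1 e2) fun R1 =>
  force (Nat.add (Nat.add g (Nat.land (Nat.shiftRight (Nat.mul n (Nat.add R0 R1)) (Nat.add s 41)) BS))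
    ONE) fun g' =>
  chk (Nat.ble g' gh) <|
  force (Nat.sub gh g') fun d1 =>
  chk (Nat.beq (Nat.land d1 BQ) d1) <|
  chk (Nat.ble g' Dom) <|
  force (Nat.sub Dom g') fun d2 =>
  chk (Nat.beq (Nat.land d2 BQ) d2) <|
  k g' R1 C' r' dr'

/-- A list of blocks of steps. -/
inductive Sched : Type
  | nil : Sched
  | cons (cnt n dn ds K A0 A1 A2 : ℕ) (tl : Sched) : Sched

/-- A block of steps of the upper scheme. -/
noncomputable def usteps (w D s S M S2 SK K1 K2 K3 sw BM RM CM AM E1 E2 ONE Z BS BP B60 BQ BB b2 w2 dm : ℕ)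
    (dn ds K A0 A1 A2 : ℕ) (k : ℕ → ℕ → ℕ → ℕ → ℕ → ℕ → ℕ → ℕ → Bool) (cnt : ℕ) :
    ℕ → ℕ → ℕ → ℕ → ℕ → ℕ → ℕ → ℕ → ℕ → Bool :=
  @Nat.rec (fun _ => ℕ → ℕ → ℕ → ℕ → ℕ → ℕ → ℕ → ℕ → ℕ → Bool)
    (fun _ z g R0 Rp Rpp C r dr => k z g R0 Rp Rpp C r dr)
    (fun _ ih n z g R0 Rp Rpp C r dr =>
      ustep w D s S M S2 SK K1 K2 K3 sw BM RM CM AM E1 E2 ONE Z BS BP B60 BQ BB b2 w2 dm
        n K A0 A1 A2 g R0 Rp Rpp C r dr
        (fun g' R1 C' r' dr' => force (Nat.sub (Nat.add n dn) ds) fun n' => force (Nat.add z n) fun z' =>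
          ih n' z' g' R1 R0 Rp C' r' dr'))
    cnt

/-- All blocks. -/
noncomputable def uall (w D s S M S2 SK K1 K2 K3 sw BM RM CM AM E1 E2 ONE Z BS BP B60 BQ BB b2 w2 dm : ℕ)
    (k : ℕ → ℕ → ℕ → ℕ → ℕ → ℕ → ℕ → ℕ → Bool) (l : Sched) :
    ℕ → ℕ → ℕ → ℕ → ℕ → ℕ → ℕ → ℕ → Bool :=
  @Sched.rec (fun _ => ℕ → ℕ → ℕ → ℕ → ℕ → ℕ → ℕ → ℕ → Bool)
    k
    (fun cnt n dn ds K A0 A1 A2 _ ih z g R0 Rp Rpp C r dr =>
      usteps w D s S M S2 SK K1 K2 K3 sw BM RM CM AM E1 E2 ONE Z BS BP B60 BQ BB b2 w2 dm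
        dn ds K A0 A1 A2 ih cnt n z g R0 Rp Rpp C r dr)
    l

/-- Number from rows. -/
noncomputable def unp (W : ℕ) (l : List ℕ) : ℕ :=
  @List.rec ℕ (fun _ => ℕ) 0 (fun x _ ih => Nat.add x (Nat.shiftLeft ih W)) l

/-- The packed vector field, lower version. -/
noncomputable def RlK (S2 SK K1 K2 K3 sw BM RM CM AM g : ℕ) : ℕ :=
  Nat.land (Nat.shiftRight (Nat.add (Nat.add S2 (Nat.mul SK g))
    (Nat.mul (Nat.add (Nat.add (Nat.mul K1 (Nat.land g RM)) (Nat.mul K2 (Nat.land g CM)))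
      (Nat.mul K3 (Nat.land g AM))) g)) sw) BM

/-- A list of blocks of steps of the lower scheme. -/
inductive Lsched : Type
  | nil : Lsched
  | cons (cnt n dn ds : ℕ) (tl : Lsched) : Lsched

/-- A block of steps of the lower scheme. -/
noncomputable def lsteps (s40 S2 SK K1 K2 K3 sw BM RM CM AM BL BB : ℕ)
    (dn ds : ℕ) (k : ℕ → ℕ → Bool) (cnt : ℕ) : ℕ → ℕ → ℕ → Bool :=
  @Nat.rec (fun _ => ℕ → ℕ → ℕ → Bool)
    (fun _ y a => k y a)
    (fun _ ih n y a =>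
      force (Nat.land (Nat.add a (Nat.land (Nat.shiftRight (Nat.mul n
        (RlK S2 SK K1 K2 K3 sw BM RM CM AM a)) s40) BL)) BB) fun m =>
      force (Nat.land (Nat.add a (Nat.land (Nat.shiftRight (Nat.mul (Nat.mul 2 n)
        (RlK S2 SK K1 K2 K3 sw BM RM CM AM m)) s40) BL)) BB) fun a' =>
      chk (Nat.ble n 17179869183) <|
      force (Nat.sub (Nat.add n dn) ds) fun n' => force (Nat.add y (Nat.mul 2 n)) fun y' => ih n' y' a')
    cnt

/-- All blocks. -/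
noncomputable def lall (s40 S2 SK K1 K2 K3 sw BM RM CM AM BL BB : ℕ)
    (k : ℕ → ℕ → Bool) (l : Lsched) : ℕ → ℕ → Bool :=
  @Lsched.rec (fun _ => ℕ → ℕ → Bool)
    k
    (fun cnt n dn ds _ ih y a =>
      lsteps s40 S2 SK K1 K2 K3 sw BM RM CM AM BL BB dn ds ih cnt n y a)
    l

end Pool.Agent.H97.SS
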