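import Pool.Agent.H97.SS.Conv

/-!
Sums over all words on a given set of letters, and the recursion for
`sv n p q = (1/n!) ∑ Fac p π * Fac q π`.
-/

namespace Pool.Agent.H97.SS

open Finset

/-- All words using each letter of `X` exactly once. -/
noncomputable def words (X : Finset ℕ) : Finset (List ℕ) := X.toList.permutations.toFinset

theorem mem_words {X : Finset ℕ} {w : List ℕ} : w ∈ words X ↔ w.Nodup ∧ w.toFinset = X := by
  unfold words
  rw [List.mem_toFinset, List.mem_permutations]
  constructor
  · intro h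
    refine ⟨h.nodup_iff.2 (Finset.nodup_toList X), ?_⟩
    rw [List.toFinset_eq_of_perm _ _ h, Finset.toList_toFinset]
  · rintro ⟨h1, h2⟩
    refine (List.perm_of_nodup_nodup_toFinset_eq h1 (Finset.nodup_toList X) ?_)
    rw [Finset.toList_toFinset]; exact h2

theorem mem_of_mem_words {X : Finset ℕ} {w : List ℕ} (hw : w ∈ words X) {x : ℕ} (hx : x ∈ w) :
    x ∈ X := by
  rw [← (mem_words.1 hw).2]; exact List.mem_toFinset.2 hx

theorem words_empty : words ∅ = {[]} := by
  ext w
  rw [mem_words, mem_singleton]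
  constructor
  · rintro ⟨_, h⟩
    exact List.toFinset_eq_empty_iff _ |>.1 h
  · rintro rfl; simp

theorem sum_words_insert {X : Finset ℕ} {n : ℕ} (hn : n ∉ X) (G : List ℕ → ℝ) :
    ∑ w ∈ words (insert n X), G w =
      ∑ Y ∈ X.powerset, ∑ L ∈ words Y, ∑ R ∈ words (X \ Y), G (L ++ n :: R) := by
  have h1 : ∑ Y ∈ X.powerset, ∑ L ∈ words Y, ∑ R ∈ words (X \ Y), G (L ++ n :: R) =
      ∑ a ∈ (X.powerset).sigma (fun Y => words Y ×ˢ words (X \ Y)),
        G (a.2.1 ++ n :: a.2.2) := by
    rw [Finset.sum_sigma]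
    refine Finset.sum_congr rfl (fun Y _ => ?_)
    rw [Finset.sum_product]
  rw [h1]
  symm
  refine Finset.sum_bij (fun a _ => a.2.1 ++ n :: a.2.2) ?_ ?_ ?_ ?_
  · rintro ⟨Y, L, R⟩ h
    simp only [mem_sigma, mem_powerset, mem_product] at h
    obtain ⟨hY, hL, hR⟩ := h
    have hL' := mem_words.1 hL
    have hR' := mem_words.1 hR
    simp only
    rw [mem_words]
    constructor
    · rw [List.nodup_append]
      refine ⟨hL'.1, ?_, ?_⟩
      · rw [List.nodup_cons]
        refine ⟨fun h => ?_, hR'.1⟩
        have := mem_of_mem_words hR h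
        exact hn (mem_sdiff.1 this).1
      · intro a ha b hb
        rintro rfl
        have haY := mem_of_mem_words hL ha
        rcases List.mem_cons.1 hb with h | h
        · subst h; exact hn (hY haY)
        · exact (mem_sdiff.1 (mem_of_mem_words hR h)).2 haY
    · rw [List.toFinset_append, List.toFinset_cons, hL'.2, hR'.2, Finset.union_insert,
        Finset.union_sdiff_of_subset hY]
  · rintro ⟨Y, L, R⟩ h ⟨Y', L', R'⟩ h' heq
    simp only [mem_sigma, mem_powerset, mem_product] at h h'
    obtain ⟨hY, hL, hR⟩ := h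
    obtain ⟨hY', hL', hR'⟩ := h'
    simp only at heq
    have h2 : n ∉ L := fun hx => hn (hY (mem_of_mem_words hL hx))
    have h2' : n ∉ R := fun hx => hn (mem_sdiff.1 (mem_of_mem_words hR hx)).1
    obtain ⟨h5, _, h6⟩ := (List.append_cons_inj_of_notMem (x₂ := L') (z₂ := R')
      (fun hx => hn (hY (mem_of_mem_words hL hx)))
      (fun hx => hn (mem_sdiff.1 (mem_of_mem_words hR hx)).1)).1 heq
    subst h5 h6
    have h7 : Y = Y' := by rw [← (mem_words.1 hL).2, ← (mem_words.1 hL').2]
    subst h7
    rfl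
  · intro w hw
    have hw' := mem_words.1 hw
    have hm : n ∈ w := by
      have : n ∈ w.toFinset := by rw [hw'.2]; exact mem_insert_self _ _
      exact List.mem_toFinset.1 this
    obtain ⟨L, R, rfl⟩ := List.append_of_mem hm
    have hnd := hw'.1
    rw [List.nodup_append, List.nodup_cons] at hnd
    obtain ⟨hLn, ⟨hnR, hRn⟩, hdis⟩ := hnd
    have hset : ∀ x, (x ∈ L ∨ x = n ∨ x ∈ R) ↔ x ∈ insert n X := by
      intro x
      rw [← hw'.2]; simp; tauto
    have hLX : ∀ x ∈ L, x ∈ X := by
      intro x hx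
      have h3 := (hset x).1 (Or.inl hx)
      rcases mem_insert.1 h3 with h4 | h4
      · exact absurd h4 (hdis x hx n (by simp))
      · exact h4
    refine ⟨⟨L.toFinset, L, R⟩, ?_, rfl⟩
    simp only [mem_sigma, mem_powerset, mem_product]
    refine ⟨?_, mem_words.2 ⟨hLn, rfl⟩, mem_words.2 ⟨hRn, ?_⟩⟩
    · intro x hx
      exact hLX x (List.mem_toFinset.1 hx)
    · ext x
      rw [mem_sdiff, List.mem_toFinset, List.mem_toFinset]
      constructor
      · intro hx
        have h3 := (hset x).1 (Or.inr (Or.inr hx))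
        refine ⟨?_, fun hxL => hdis x hxL x (by simp [hx]) rfl⟩
        rcases mem_insert.1 h3 with h4 | h4
        · subst h4; exact absurd hx hnR
        · exact h4
      · rintro ⟨hxX, hxL⟩
        rcases (hset x).2 (mem_insert_of_mem hxX) with h4 | h4 | h4
        · exact absurd h4 hxL
        · subst h4; exact absurd hxX hn
        · exact h4
  · rintro ⟨Y, L, R⟩ _
    rfl

/-- Sum over all words on `X` of `Fac p * Fac q`. -/
noncomputable def T (p q : ℕ) (X : Finset ℕ) : ℝ := ∑ w ∈ words X, Fac p w * Fac q w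

/-- Sum over all words on `X` of `tF p * tF q`. -/
noncomputable def TT (p q : ℕ) (X : Finset ℕ) : ℝ := ∑ w ∈ words X, tF p w * tF q w

/-- The bilinear combination giving `TT` in terms of `T`. -/
def comb (f : ℕ → ℕ → ℝ) (p q : ℕ) : ℝ :=
  (f (p - 1) (q - 1) + 2 * f (p - 1) q + f (p - 1) (q + 1)) +
    2 * (f p (q - 1) + 2 * f p q + f p (q + 1)) +
    (f (p + 1) (q - 1) + 2 * f (p + 1) q + f (p + 1) (q + 1))

theorem TT_eq (p q : ℕ) (X : Finset ℕ) : TT p q X = comb (fun i j => T i j X) p q := by
  unfold TT comb T tF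
  simp only [Finset.mul_sum, ← Finset.sum_add_distrib]
  exact Finset.sum_congr rfl (fun w _ => by ring)

theorem T_insert {X : Finset ℕ} {n : ℕ} (hn : ∀ x ∈ X, x < n) (p q : ℕ) :
    T p q (insert n X) = ∑ j ∈ range p, ∑ k ∈ range q, ∑ Y ∈ X.powerset,
      TT (j + 1) (k + 1) Y * T (p - 1 - j) (q - 1 - k) (X \ Y) := by
  have hn' : n ∉ X := fun h => lt_irrefl _ (hn n h)
  unfold T
  rw [sum_words_insert hn']
  have h1 : ∀ Y ∈ X.powerset, ∀ L ∈ words Y, ∀ R ∈ words (X \ Y),
      Fac p (L ++ n :: R) * Fac q (L ++ n :: R) =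
      ∑ j ∈ range p, ∑ k ∈ range q, (tF (j + 1) L * tF (k + 1) L) *
        (Fac (p - 1 - j) R * Fac (q - 1 - k) R) := by
    intro Y hY L hL R hR
    have hL' : ∀ x ∈ L, x < n := fun x hx => hn x (mem_powerset.1 hY (mem_of_mem_words hL hx))
    have hR' : ∀ x ∈ R, x < n := fun x hx => hn x (mem_sdiff.1 (mem_of_mem_words hR hx)).1
    rw [Fac_split p L R hL' hR', Fac_split q L R hL' hR', Finset.sum_mul_sum]
    refine Finset.sum_congr rfl (fun j _ => Finset.sum_congr rfl (fun k _ => by ring))
  calc ∑ Y ∈ X.powerset, ∑ L ∈ words Y, ∑ R ∈ words (X \ Y),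
        Fac p (L ++ n :: R) * Fac q (L ++ n :: R)
      = ∑ Y ∈ X.powerset, ∑ L ∈ words Y, ∑ R ∈ words (X \ Y), ∑ j ∈ range p, ∑ k ∈ range q,
        (tF (j + 1) L * tF (k + 1) L) * (Fac (p - 1 - j) R * Fac (q - 1 - k) R) := by
        refine Finset.sum_congr rfl (fun Y hY => Finset.sum_congr rfl (fun L hL =>
          Finset.sum_congr rfl (fun R hR => h1 Y hY L hL R hR)))
    _ = ∑ Y ∈ X.powerset, ∑ j ∈ range p, ∑ k ∈ range q,
        TT (j + 1) (k + 1) Y * T (p - 1 - j) (q - 1 - k) (X \ Y) := by
        refine Finset.sum_congr rfl (fun Y hY => ?_)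
        have h2 : ∀ L ∈ words Y, ∑ R ∈ words (X \ Y), ∑ j ∈ range p, ∑ k ∈ range q,
            (tF (j + 1) L * tF (k + 1) L) * (Fac (p - 1 - j) R * Fac (q - 1 - k) R) =
            ∑ j ∈ range p, ∑ k ∈ range q, ∑ R ∈ words (X \ Y),
            (tF (j + 1) L * tF (k + 1) L) * (Fac (p - 1 - j) R * Fac (q - 1 - k) R) := by
          intro L _
          rw [Finset.sum_comm]
          exact Finset.sum_congr rfl (fun j _ => Finset.sum_comm)
        rw [Finset.sum_congr rfl h2, Finset.sum_comm]
        refine Finset.sum_congr rfl (fun j _ => ?_)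
        rw [Finset.sum_comm]
        refine Finset.sum_congr rfl (fun k _ => ?_)
        unfold TT T
        rw [Finset.sum_mul_sum]
    _ = _ := by
        rw [Finset.sum_comm]
        exact Finset.sum_congr rfl (fun j _ => Finset.sum_comm)

theorem T_eq_card (n : ℕ) : ∀ (X : Finset ℕ), X.card = n → ∀ p q : ℕ,
    T p q X = T p q (range n) := by
  induction n using Nat.strong_induction_on with
  | _ n ih =>
    -- general formula for a set with a largest element
    have key : ∀ m, m + 1 = n → ∀ (X : Finset ℕ) (a : ℕ), X.card = m → (∀ x ∈ X, x < a) →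
        ∀ p q, T p q (insert a X) = ∑ j ∈ range p, ∑ k ∈ range q, ∑ i ∈ range (m + 1),
          (m.choose i) • (comb (fun r s => T r s (range i)) (j + 1) (k + 1) *
            T (p - 1 - j) (q - 1 - k) (range (m - i))) := by
      intro m hm X a hX ha p q
      rw [T_insert ha]
      refine Finset.sum_congr rfl (fun j _ => Finset.sum_congr rfl (fun k _ => ?_))
      have h1 : ∀ Y ∈ X.powerset, TT (j + 1) (k + 1) Y * T (p - 1 - j) (q - 1 - k) (X \ Y) =
          (fun i => comb (fun r s => T r s (range i)) (j + 1) (k + 1) *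
            T (p - 1 - j) (q - 1 - k) (range (m - i))) Y.card := by
        intro Y hY
        have hYX := mem_powerset.1 hY
        have hc : Y.card ≤ m := by rw [← hX]; exact card_le_card hYX
        simp only
        rw [TT_eq]
        have h2 : (fun r s => T r s Y) = fun r s => T r s (range Y.card) := by
          funext r s
          exact ih Y.card (by omega) Y rfl r s
        have h3 : (X \ Y).card = m - Y.card := by rw [card_sdiff_of_subset hYX, hX]
        rw [h2, ih (m - Y.card) (by omega) (X \ Y) h3]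
      refine (Finset.sum_congr rfl h1).trans ?_
      refine (Finset.sum_powerset_apply_card (fun i => comb (fun r s => T r s (range i))
        (j + 1) (k + 1) * T (p - 1 - j) (q - 1 - k) (range (m - i)))).trans ?_
      rw [hX]
    intro X hX p q
    rcases Nat.eq_zero_or_pos n with h0 | hpos
    · subst h0
      rw [card_eq_zero.1 hX]; simp
    · obtain ⟨m, rfl⟩ : ∃ m, n = m + 1 := ⟨n - 1, by omega⟩
      have hne : X.Nonempty := card_pos.1 (by omega)
      have hins : insert (X.max' hne) (X.erase (X.max' hne)) = X := insert_erase (max'_mem _ _)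
      have h1 := key m rfl (X.erase (X.max' hne)) (X.max' hne)
        (by rw [card_erase_of_mem (max'_mem _ _), hX]; omega)
        (fun x hx => lt_max'_of_mem_erase_max' _ _ hx) p q
      rw [hins] at h1
      have h2 := key m rfl (range m) m (card_range m) (fun x hx => mem_range.1 hx) p q
      rw [← Finset.range_add_one] at h2
      rw [h1, h2]

/-- `(1/n!) ∑ Fac p π * Fac q π` over the permutations of an `n`-element set. -/
noncomputable def sv (n p q : ℕ) : ℝ := T p q (range n) / n.factorial

theorem sv_nonneg (n p q : ℕ) : 0 ≤ sv n p q := by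
  unfold sv T
  refine div_nonneg (Finset.sum_nonneg (fun w _ => mul_nonneg (Fac_nonneg _ _) (Fac_nonneg _ _))) ?_
  positivity

theorem sv_zero (p q : ℕ) : sv 0 p q = if p = 0 ∧ q = 0 then 1 else 0 := by
  unfold sv T
  rw [range_zero, words_empty, sum_singleton]
  rcases p with _ | p
  · rcases q with _ | q
    · simp [Fac_zero_nil]
    · simp [Fac_succ_nil]
  · simp [Fac_succ_nil]

theorem words_ne_nil {X : Finset ℕ} (hX : X.Nonempty) {w : List ℕ} (hw : w ∈ words X) :
    w ≠ [] := by
  rintro rfl
  have := (mem_words.1 hw).2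
  simp at this
  exact hX.ne_empty this.symm

theorem sv_succ_zero_left (n q : ℕ) : sv (n + 1) 0 q = 0 := by
  unfold sv T
  rw [Finset.sum_eq_zero, zero_div]
  intro w hw
  rw [Fac_zero_of_ne (words_ne_nil (by simp) hw), zero_mul]

theorem sv_succ_zero_right (n p : ℕ) : sv (n + 1) p 0 = 0 := by
  unfold sv T
  rw [Finset.sum_eq_zero, zero_div]
  intro w hw
  rw [Fac_zero_of_ne (words_ne_nil (by simp) hw), mul_zero]

theorem comb_div (f : ℕ → ℕ → ℝ) (c : ℝ) (p q : ℕ) :
    comb (fun i j => f i j / c) p q = comb f p q / c := by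
  unfold comb; ring

theorem sv_rec (n p q : ℕ) :
    ((n : ℝ) + 1) * sv (n + 1) p q = ∑ j ∈ range p, ∑ k ∈ range q, ∑ i ∈ range (n + 1),
      comb (sv i) (j + 1) (k + 1) * sv (n - i) (p - 1 - j) (q - 1 - k) := by
  have h0 : T p q (range (n + 1)) = ∑ j ∈ range p, ∑ k ∈ range q, ∑ i ∈ range (n + 1),
      (n.choose i : ℝ) * (comb (fun r s => T r s (range i)) (j + 1) (k + 1) *
            T (p - 1 - j) (q - 1 - k) (range (n - i))) := by
    have hT := T_insert (X := range n) (n := n) (fun x hx => mem_range.1 hx) p q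
    rw [← Finset.range_add_one] at hT
    rw [hT]
    refine Finset.sum_congr rfl (fun j _ => Finset.sum_congr rfl (fun k _ => ?_))
    have h1 : ∀ Y ∈ (range n).powerset,
        TT (j + 1) (k + 1) Y * T (p - 1 - j) (q - 1 - k) (range n \ Y) =
        (fun i => comb (fun r s => T r s (range i)) (j + 1) (k + 1) *
          T (p - 1 - j) (q - 1 - k) (range (n - i))) Y.card := by
      intro Y hY
      have hYX := mem_powerset.1 hY
      simp only
      rw [TT_eq]
      have h2 : (fun r s => T r s Y) = fun r s => T r s (range Y.card) := by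
        funext r s
        exact T_eq_card Y.card Y rfl r s
      have h3 : (range n \ Y).card = n - Y.card := by rw [card_sdiff_of_subset hYX, card_range]
      rw [h2, T_eq_card (n - Y.card) (range n \ Y) h3]
    refine (Finset.sum_congr rfl h1).trans ?_
    refine (Finset.sum_powerset_apply_card (fun i => comb (fun r s => T r s (range i))
      (j + 1) (k + 1) * T (p - 1 - j) (q - 1 - k) (range (n - i)))).trans ?_
    rw [card_range]
    simp only [nsmul_eq_mul]
  unfold sv
  rw [h0]
  have hfac : ((n + 1).factorial : ℝ) = ((n : ℝ) + 1) * n.factorial := by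
    rw [Nat.factorial_succ]; push_cast; ring
  have hn0 : ((n : ℝ) + 1) ≠ 0 := by positivity
  have hf0 : (n.factorial : ℝ) ≠ 0 := by positivity
  rw [hfac]
  have h4 : ∀ A : ℝ, ((n : ℝ) + 1) * (A / (((n : ℝ) + 1) * n.factorial)) = A / n.factorial := by
    intro A; field_simp
  rw [h4, Finset.sum_div]
  refine Finset.sum_congr rfl (fun j _ => ?_)
  rw [Finset.sum_div]
  refine Finset.sum_congr rfl (fun k _ => ?_)
  rw [Finset.sum_div]
  refine Finset.sum_congr rfl (fun i hi => ?_)
  have hin : i ≤ n := Nat.lt_succ_iff.1 (mem_range.1 hi)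
  have h5 : (n.choose i : ℝ) * i.factorial * (n - i).factorial = n.factorial := by
    exact_mod_cast Nat.choose_mul_factorial_mul_factorial hin
  have h6 : comb (fun r s => T r s (range i) / (i.factorial : ℝ)) (j + 1) (k + 1) =
      comb (fun r s => T r s (range i)) (j + 1) (k + 1) / (i.factorial : ℝ) := comb_div _ _ _ _
  rw [h6, ← h5]
  have hi0 : (i.factorial : ℝ) ≠ 0 := by positivity
  have hni0 : ((n - i).factorial : ℝ) ≠ 0 := by positivity
  have hc0 : (n.choose i : ℝ) ≠ 0 := by
    have := Nat.choose_pos hin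
    positivity
  field_simp

theorem deg_eq_sv (n : ℕ) : deg (n + 1) = sv (n + 1) 1 1 := by
  unfold deg sv
  congr 1
  unfold T
  have hX : ∀ w : List ℕ, w ∈ perms (n + 1) ↔ w ∈ words (Finset.Icc 1 (n + 1)) := by
    intro w
    have hr : (List.range' 1 (n + 1)).toFinset = Finset.Icc 1 (n + 1) := by
      ext x
      rw [List.mem_toFinset, List.mem_range'_1, Finset.mem_Icc]
      omega
    unfold perms
    rw [mem_words, List.mem_toFinset, List.mem_permutations]
    constructor
    · intro h
      refine ⟨h.nodup_iff.2 (List.nodup_range' ..), ?_⟩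
      rw [List.toFinset_eq_of_perm _ _ h, hr]
    · rintro ⟨h1, h2⟩
      exact List.perm_of_nodup_nodup_toFinset_eq h1 (List.nodup_range' ..) (by rw [h2, hr])
  have h1 : ∀ π ∈ perms (n + 1),
      (((perms (n + 1)).filter (fun σ => stackSort σ = π)).card : ℝ) ^ 2 =
      Fac 1 π * Fac 1 π := by
    intro π hπ
    have hπ' := (hX π).1 hπ
    have hne : π ≠ [] := words_ne_nil (by simp) hπ'
    have h2 : (perms (n + 1)).filter (fun σ => stackSort σ = π) = pre π := by
      ext σ
      rw [mem_filter, mem_pre]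
      constructor
      · exact fun h => h.2
      · intro h
        refine ⟨?_, h⟩
        have hp := stackSort_perm σ
        rw [h] at hp
        rw [hX, mem_words]
        have h3 := mem_words.1 hπ'
        exact ⟨hp.nodup_iff.1 h3.1, by rw [← List.toFinset_eq_of_perm _ _ hp]; exact h3.2⟩
    rw [h2, Fac_one, fne, if_neg hne, fib]
    ring
  rw [Finset.sum_congr rfl h1]
  have h4 : perms (n + 1) = words (Finset.Icc 1 (n + 1)) := by
    ext w; exact hX w
  rw [h4]
  have h5 := T_eq_card (n + 1) (Finset.Icc 1 (n + 1)) (by simp) 1 1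
  unfold T at h5
  exact h5

end Pool.Agent.H97.SS
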