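import Pool.Agent.H97.SS.Upper

/-!
The trapezoid step with a geometric tail.
-/

namespace Pool.Agent.H97.SS

open Finset

/-- Upper bound function: a block `p + q ≤ D` and a geometric tail. -/
noncomputable def full (D : ℕ) (g : ℕ → ℕ → ℝ) (C r : ℝ) (p q : ℕ) : ℝ :=
  if p = 0 ∨ q = 0 then 0 else if p + q ≤ D then g p q else C * r ^ (p + q - 2)

theorem chord_mul {a a' b b' x : ℝ} (ha : a ≤ a') (hb : b ≤ b') (hx0 : 0 ≤ x) (hx1 : x ≤ 1) :
    ((1 - x) * a + x * a') * ((1 - x) * b + x * b') ≤ (1 - x) * (a * b) + x * (a' * b') := by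
  have h : 0 ≤ x * (1 - x) * ((a' - a) * (b' - b)) :=
    mul_nonneg (mul_nonneg hx0 (by linarith)) (mul_nonneg (by linarith) (by linarith))
  linarith [h, show x * (1 - x) * ((a' - a) * (b' - b)) =
    (1 - x) * (a * b) + x * (a' * b') - ((1 - x) * a + x * a') * ((1 - x) * b + x * b') by ring]

theorem chord_pow {r r' x : ℝ} (hr : 0 ≤ r) (hr' : r ≤ r') (hx0 : 0 ≤ x) (hx1 : x ≤ 1) (m : ℕ) :
    ((1 - x) * r + x * r') ^ m ≤ (1 - x) * r ^ m + x * r' ^ m := by
  induction m with
  | zero => simp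
  | succ m ih =>
    rw [pow_succ, pow_succ, pow_succ]
    have h1 : 0 ≤ (1 - x) * r + x * r' :=
      add_nonneg (mul_nonneg (by linarith) hr) (mul_nonneg hx0 (hr.trans hr'))
    refine (mul_le_mul_of_nonneg_right ih h1).trans ?_
    exact chord_mul (pow_le_pow_left₀ hr hr' m) hr' hx0 hx1

theorem VF_chord {G G' : ℕ → ℕ → ℝ} {x : ℝ} (h : ∀ p q, G p q ≤ G' p q)
    (hx0 : 0 ≤ x) (hx1 : x ≤ 1) (p q : ℕ) :
    VF (fun p q => (1 - x) * G p q + x * G' p q) p q ≤ (1 - x) * VF G p q + x * VF G' p q := by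
  have h1 : lin (fun p q => (1 - x) * G p q + x * G' p q) p q =
      (1 - x) * lin G p q + x * lin G' p q := by unfold lin; ring
  have htv : ∀ j, tv (fun p q => (1 - x) * G p q + x * G' p q) j =
      (1 - x) * tv G j + x * tv G' j := fun j => by unfold tv; ring
  have htu : ∀ j, tu (fun p q => (1 - x) * G p q + x * G' p q) j =
      (1 - x) * tu G j + x * tu G' j := fun j => by unfold tu; ring
  have h2 : bil (fun p q => (1 - x) * G p q + x * G' p q)
      (fun p q => (1 - x) * G p q + x * G' p q) p q ≤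
      (1 - x) * bil G G p q + x * bil G' G' p q := by
    unfold bil
    have e1 := chord_mul (h 1 1) (h p q) hx0 hx1
    have e2 : ∑ j ∈ range (q - 1), tv (fun p q => (1 - x) * G p q + x * G' p q) (j + 1) *
        ((1 - x) * G p (q - 1 - j) + x * G' p (q - 1 - j)) ≤
        ∑ j ∈ range (q - 1), (1 - x) * (tv G (j + 1) * G p (q - 1 - j)) +
        ∑ j ∈ range (q - 1), x * (tv G' (j + 1) * G' p (q - 1 - j)) := by
      rw [← Finset.sum_add_distrib]
      refine Finset.sum_le_sum (fun j _ => ?_)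
      rw [htv]
      exact chord_mul (tv_mono h _) (h _ _) hx0 hx1
    have e3 : ∑ j ∈ range (p - 1), tu (fun p q => (1 - x) * G p q + x * G' p q) (j + 1) *
        ((1 - x) * G (p - 1 - j) q + x * G' (p - 1 - j) q) ≤
        ∑ j ∈ range (p - 1), (1 - x) * (tu G (j + 1) * G (p - 1 - j) q) +
        ∑ j ∈ range (p - 1), x * (tu G' (j + 1) * G' (p - 1 - j) q) := by
      rw [← Finset.sum_add_distrib]
      refine Finset.sum_le_sum (fun j _ => ?_)
      rw [htu]
      exact chord_mul (tu_mono h _) (h _ _) hx0 hx1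
    rw [← Finset.mul_sum, ← Finset.mul_sum] at e2 e3
    refine (add_le_add (add_le_add e1 e2) e3).trans (le_of_eq ?_)
    ring
  unfold VF
  rw [h1]
  have h3 : (if p = 1 ∧ q = 1 then (1 : ℝ) else 0) =
      (1 - x) * (if p = 1 ∧ q = 1 then (1 : ℝ) else 0) +
        x * (if p = 1 ∧ q = 1 then (1 : ℝ) else 0) := by ring
  linarith

/-- Bound for the vector field under a geometric bound. -/
theorem tail_bound {V : ℕ → ℕ → ℝ} {c ρ : ℝ} (hV : ∀ p q, 0 ≤ V p q)
    (hV0 : ∀ q, V 0 q = 0) (hV0' : ∀ p, V p 0 = 0) (hc : 0 ≤ c) (hρ : 0 < ρ)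
    (hb : ∀ i j, V (i + 1) (j + 1) ≤ c * ρ ^ (i + j)) (i j : ℕ) (hij : i + j ≠ 0) :
    VF V (i + 1) (j + 1) ≤ c * ρ ^ (i + j) *
      (ρ ^ 2 + 4 * ρ + 6 + 4 / ρ + V 1 1 + (i + j : ℕ) * (c * (1 + 1 / ρ) ^ 2)) := by
  have hpow : ∀ n, 0 ≤ c * ρ ^ n := fun n => mul_nonneg hc (pow_nonneg hρ.le n)
  have down1 : ∀ i j, V i (j + 1) ≤ c * ρ ^ (i + j) / ρ := by
    intro i j
    rcases i with _ | i
    · rw [hV0]; exact div_nonneg (hpow _) hρ.le
    · refine (hb i j).trans (le_of_eq ?_)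
      have : i + 1 + j = i + j + 1 := by omega
      rw [this, pow_succ]; field_simp
  have down2 : ∀ i j, V (i + 1) j ≤ c * ρ ^ (i + j) / ρ := by
    intro i j
    rcases j with _ | j
    · rw [hV0']; exact div_nonneg (hpow _) hρ.le
    · refine (hb i j).trans (le_of_eq ?_)
      have : i + (j + 1) = i + j + 1 := by omega
      rw [this, pow_succ]; field_simp
  have side1 : ∀ i j, V (i + 2) j ≤ c * ρ ^ (i + j) := by
    intro i j
    rcases j with _ | j
    · rw [hV0']; exact hpow _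
    · refine (hb (i + 1) j).trans (le_of_eq ?_)
      have : i + 1 + j = i + (j + 1) := by omega
      rw [this]
  have side2 : ∀ i j, V i (j + 2) ≤ c * ρ ^ (i + j) := by
    intro i j
    rcases i with _ | i
    · rw [hV0]; exact hpow _
    · refine (hb i (j + 1)).trans (le_of_eq ?_)
      have : i + (j + 1) = i + 1 + j := by omega
      rw [this]
  have hlin : lin V (i + 1) (j + 1) ≤ c * ρ ^ (i + j) * (ρ ^ 2 + 4 * ρ + 6 + 4 / ρ) := by
    unfold lin
    simp only [Nat.add_sub_cancel]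
    have a1 := hb i j
    have a2 : V (i + 1 + 1) (j + 1) ≤ c * ρ ^ (i + j) * ρ := by
      refine (hb (i + 1) j).trans (le_of_eq ?_)
      have : i + 1 + j = i + j + 1 := by omega
      rw [this, pow_succ]; ring
    have a3 : V (i + 1) (j + 1 + 1) ≤ c * ρ ^ (i + j) * ρ := by
      refine (hb i (j + 1)).trans (le_of_eq ?_)
      have : i + (j + 1) = i + j + 1 := by omega
      rw [this, pow_succ]; ring
    have a4 := down1 i j
    have a5 := down2 i j
    have a6 : V (i + 1 + 1) (j + 1 + 1) ≤ c * ρ ^ (i + j) * ρ ^ 2 := by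
      refine (hb (i + 1) (j + 1)).trans (le_of_eq ?_)
      have : i + 1 + (j + 1) = i + j + 2 := by omega
      rw [this, pow_add]; ring
    have a7 := side1 i j
    have a8 := side2 i j
    have e : c * ρ ^ (i + j) * (ρ ^ 2 + 4 * ρ + 6 + 4 / ρ) =
        4 * (c * ρ ^ (i + j)) + 2 * (c * ρ ^ (i + j) * ρ) + 2 * (c * ρ ^ (i + j) * ρ) +
        2 * (c * ρ ^ (i + j) / ρ) + 2 * (c * ρ ^ (i + j) / ρ) + c * ρ ^ (i + j) * ρ ^ 2 +
        c * ρ ^ (i + j) + c * ρ ^ (i + j) := by
      field_simp; ring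
    rw [e]
    linarith
  have htv : ∀ k, tv V (k + 1) ≤ c * ρ ^ k * (1 / ρ + 2 + ρ) := by
    intro k
    unfold tv
    simp only [Nat.add_sub_cancel]
    have b1 := down2 0 k
    have b2 := hb 0 k
    have b3 := hb 0 (k + 1)
    simp only [zero_add] at b1 b2 b3
    rw [pow_succ] at b3
    have e : c * ρ ^ k * (1 / ρ + 2 + ρ) = c * ρ ^ k / ρ + 2 * (c * ρ ^ k) +
        c * (ρ ^ k * ρ) := by field_simp
    rw [e]; linarith
  have htu : ∀ k, tu V (k + 1) ≤ c * ρ ^ k * (1 / ρ + 2 + ρ) := by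
    intro k
    unfold tu
    simp only [Nat.add_sub_cancel]
    have b1 := down1 k 0
    have b2 := hb k 0
    have b3 := hb (k + 1) 0
    simp only [zero_add, add_zero] at b1 b2 b3
    rw [pow_succ] at b3
    have e : c * ρ ^ k * (1 / ρ + 2 + ρ) = c * ρ ^ k / ρ + 2 * (c * ρ ^ k) +
        c * (ρ ^ k * ρ) := by field_simp
    rw [e]; linarith
  have hq : ∀ k m : ℕ, (c * ρ ^ k * (1 / ρ + 2 + ρ)) * (c * ρ ^ m) =
      c * ρ ^ (k + m + 1) * (c * (1 + 1 / ρ) ^ 2) := by
    intro k m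
    rw [pow_succ, pow_add]; field_simp; ring
  have hbil : bil V V (i + 1) (j + 1) ≤ c * ρ ^ (i + j) *
      (V 1 1 + (i + j : ℕ) * (c * (1 + 1 / ρ) ^ 2)) := by
    unfold bil
    simp only [Nat.add_sub_cancel]
    have c1 : V 1 1 * V (i + 1) (j + 1) ≤ V 1 1 * (c * ρ ^ (i + j)) :=
      mul_le_mul_of_nonneg_left (hb i j) (hV 1 1)
    have c2 : ∑ k ∈ range j, tv V (k + 1) * V (i + 1) (j - k) ≤
        ∑ _k ∈ range j, c * ρ ^ (i + j) * (c * (1 + 1 / ρ) ^ 2) := by
      refine Finset.sum_le_sum (fun k hk => ?_)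
      have hk' := mem_range.1 hk
      obtain ⟨l, hl⟩ : ∃ l, j - k = l + 1 := ⟨j - k - 1, by omega⟩
      rw [hl]
      refine (mul_le_mul (htv k) (hb i l) (hV _ _) ?_).trans (le_of_eq ?_)
      · have := hpow k
        positivity
      · rw [hq]
        have : k + (i + l) + 1 = i + j := by omega
        rw [this]
    have c3 : ∑ k ∈ range i, tu V (k + 1) * V (i - k) (j + 1) ≤
        ∑ _k ∈ range i, c * ρ ^ (i + j) * (c * (1 + 1 / ρ) ^ 2) := by
      refine Finset.sum_le_sum (fun k hk => ?_)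
      have hk' := mem_range.1 hk
      obtain ⟨l, hl⟩ : ∃ l, i - k = l + 1 := ⟨i - k - 1, by omega⟩
      rw [hl]
      refine (mul_le_mul (htu k) (hb l j) (hV _ _) ?_).trans (le_of_eq ?_)
      · have := hpow k
        positivity
      · rw [hq]
        have : k + (l + j) + 1 = i + j := by omega
        rw [this]
    rw [Finset.sum_const, card_range, nsmul_eq_mul] at c2 c3
    push_cast
    linarith
  unfold VF
  rw [if_neg (by omega), zero_add]
  linarith

/-- The trapezoid step. -/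
theorem trap_step {z h : ℝ} (hz : 0 ≤ z) (hh : 0 ≤ h) {D : ℕ} (hD : 2 ≤ D)
    {g g' R0 R1 : ℕ → ℕ → ℝ} {C C' r r' : ℝ}
    (hC : 0 < C) (hCC : C ≤ C') (hr : 0 < r) (hrr : r ≤ r')
    (hg : ∀ p q, 0 ≤ g p q)
    (hPS : ∀ N p q, PS N z p q ≤ full D g C r p q)
    (b1 : ∀ p q, 1 ≤ p → 1 ≤ q → p + q ≤ D → VF (full D g C r) p q ≤ R0 p q)
    (b2 : ∀ p q, 1 ≤ p → 1 ≤ q → p + q ≤ D → VF (full D g' C' r') p q ≤ R1 p q)
    (b3 : ∀ p q, 1 ≤ p → 1 ≤ q → p + q ≤ D → R0 p q ≤ R1 p q)
    (b4 : ∀ p q, 1 ≤ p → 1 ≤ q → p + q ≤ D → g p q + h / 2 * (R0 p q + R1 p q) ≤ g' p q)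
    (dom : ∀ p q, 1 ≤ p → 1 ≤ q → p + q ≤ D → g' p q ≤ C * r ^ (p + q - 2))
    (t1 : h * (C' * (1 + 1 / r) ^ 2) ≤ (r' - r) / r')
    (t2 : h * (r' ^ 2 + 4 * r' + 6 + 4 / r + g' 1 1) + (D - 1 : ℕ) * (h * (C' * (1 + 1 / r) ^ 2)) ≤
      (C' - C) / C' + (D - 1 : ℕ) * ((r' - r) / r')) :
    ∀ N p q, PS N (z + h) p q ≤ full D g' C' r' p q := by
  have hC' : 0 < C' := hC.trans_le hCC
  have hr' : 0 < r' := hr.trans_le hrr
  have hfull0 : ∀ p q, 0 ≤ full D g C r p q := by
    intro p q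
    unfold full
    split_ifs
    · exact le_rfl
    · exact hg p q
    · positivity
  have hR0 : ∀ p q, 1 ≤ p → 1 ≤ q → p + q ≤ D → 0 ≤ R0 p q := fun p q h1 h2 h3 =>
    (VF_nonneg hfull0 p q).trans (b1 p q h1 h2 h3)
  have hR1 : ∀ p q, 1 ≤ p → 1 ≤ q → p + q ≤ D → 0 ≤ R1 p q := fun p q h1 h2 h3 =>
    (hR0 p q h1 h2 h3).trans (b3 p q h1 h2 h3)
  have hgg : ∀ p q, 1 ≤ p → 1 ≤ q → p + q ≤ D → g p q ≤ g' p q := fun p q h1 h2 h3 => by
    have := b4 p q h1 h2 h3
    have e1 := hR0 p q h1 h2 h3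
    have e2 := hR1 p q h1 h2 h3
    have e3 : 0 ≤ h / 2 * (R0 p q + R1 p q) := by positivity
    linarith
  -- path
  set c : ℝ → ℝ := fun x => (1 - x) * C + x * C' with hc
  set ρ : ℝ → ℝ := fun x => (1 - x) * r + x * r' with hρ
  set U : ℝ → ℕ → ℕ → ℝ := fun x p q => if p = 0 ∨ q = 0 then 0 else
    if p + q ≤ D then g p q + h * R0 p q * x + h / 2 * (R1 p q - R0 p q) * x ^ 2
    else c x * ρ x ^ (p + q - 2) with hU
  set U' : ℝ → ℕ → ℕ → ℝ := fun x p q =>
    if p + q ≤ D then h * R0 p q + h * (R1 p q - R0 p q) * x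
    else (C' - C) * ρ x ^ (p + q - 2) +
      c x * ((p + q - 2 : ℕ) * ρ x ^ (p + q - 2 - 1) * (r' - r)) with hU'
  have hcb : ∀ x ∈ Set.Icc (0 : ℝ) 1, C ≤ c x ∧ c x ≤ C' := by
    intro x hx
    simp only [hc]
    constructor <;> nlinarith [hx.1, hx.2]
  have hρb : ∀ x ∈ Set.Icc (0 : ℝ) 1, r ≤ ρ x ∧ ρ x ≤ r' := by
    intro x hx
    simp only [hρ]
    constructor <;> nlinarith [hx.1, hx.2]
  -- chord bound
  have hUchord : ∀ x ∈ Set.Icc (0 : ℝ) 1, ∀ p q,
      U x p q ≤ (1 - x) * full D g C r p q + x * full D g' C' r' p q := by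
    intro x hx p q
    simp only [hU]
    unfold full
    by_cases h0 : p = 0 ∨ q = 0
    · rw [if_pos h0, if_pos h0, if_pos h0]; simp
    · rw [if_neg h0, if_neg h0, if_neg h0]
      by_cases h1 : p + q ≤ D
      · rw [if_pos h1, if_pos h1, if_pos h1]
        have hp : 1 ≤ p := by omega
        have hq : 1 ≤ q := by omega
        have e4 := b4 p q hp hq h1
        have e3 := b3 p q hp hq h1
        have k1 : x * (g p q + h / 2 * (R0 p q + R1 p q)) ≤ x * g' p q :=
          mul_le_mul_of_nonneg_left e4 hx.1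
        have k2 : 0 ≤ h / 2 * (R1 p q - R0 p q) * (x * (1 - x)) := by
          have : 0 ≤ R1 p q - R0 p q := by linarith
          have h2 : 0 ≤ x * (1 - x) := mul_nonneg hx.1 (by linarith [hx.2])
          positivity
        nlinarith [k1, k2]
      · rw [if_neg h1, if_neg h1, if_neg h1]
        have k1 := chord_pow hr.le hrr hx.1 hx.2 (p + q - 2)
        have k2 : 0 ≤ c x := hC.le.trans (hcb x hx).1
        refine (mul_le_mul_of_nonneg_left k1 k2).trans ?_
        exact chord_mul hCC (pow_le_pow_left₀ hr.le hrr _) hx.1 hx.2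
  have hfull_mono : ∀ p q, full D g C r p q ≤ full D g' C' r' p q := by
    intro p q
    unfold full
    by_cases h0 : p = 0 ∨ q = 0
    · rw [if_pos h0, if_pos h0]
    · rw [if_neg h0, if_neg h0]
      by_cases h1 : p + q ≤ D
      · rw [if_pos h1, if_pos h1]; exact hgg p q (by omega) (by omega) h1
      · rw [if_neg h1, if_neg h1]
        exact mul_le_mul hCC (pow_le_pow_left₀ hr.le hrr _) (by positivity) hC'.le
  have hUnn : ∀ x ∈ Set.Icc (0 : ℝ) 1, ∀ p q, 0 ≤ U x p q := by
    intro x hx p q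
    simp only [hU]
    split_ifs with h0 h1
    · exact le_rfl
    · have hp : 1 ≤ p := by omega
      have hq : 1 ≤ q := by omega
      have e1 := hR0 p q hp hq h1
      have e3 : 0 ≤ R1 p q - R0 p q := by linarith [b3 p q hp hq h1]
      have e5 := hg p q
      have hx0 := hx.1
      positivity
    · have k2 : 0 ≤ c x := hC.le.trans (hcb x hx).1
      have k3 : 0 ≤ ρ x := hr.le.trans (hρb x hx).1
      positivity
  have key := path_step hz hh U U' ?_ hUnn ?_ ?_
  · intro N p q
    have h1 := key N 1 (Set.right_mem_Icc.2 zero_le_one) p q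
    rw [mul_one] at h1
    refine h1.trans ?_
    have h2 := hUchord 1 (Set.right_mem_Icc.2 zero_le_one) p q
    simpa using h2
  · intro N p q
    refine (hPS N (p + 1) (q + 1)).trans (le_of_eq ?_)
    simp only [hU, hc, hρ]
    unfold full
    by_cases h0 : p + 1 = 0 ∨ q + 1 = 0
    · omega
    · rw [if_neg h0, if_neg h0]
      by_cases h1 : p + 1 + (q + 1) ≤ D
      · rw [if_pos h1, if_pos h1]; ring
      · rw [if_neg h1, if_neg h1]; simp
  · intro x hx p q
    simp only [hU, hU']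
    have h0 : ¬ (p + 1 = 0 ∨ q + 1 = 0) := by omega
    simp only [if_neg h0]
    by_cases h1 : p + 1 + (q + 1) ≤ D
    · simp only [if_pos h1]
      have e1 : HasDerivAt (fun t : ℝ => g (p + 1) (q + 1) + h * R0 (p + 1) (q + 1) * t +
          h / 2 * (R1 (p + 1) (q + 1) - R0 (p + 1) (q + 1)) * t ^ 2)
          (h * R0 (p + 1) (q + 1) * 1 +
            h / 2 * (R1 (p + 1) (q + 1) - R0 (p + 1) (q + 1)) * ((2 : ℕ) * x ^ (2 - 1))) x := by
        exact (((hasDerivAt_id x).const_mul _).const_add _).add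
          ((hasDerivAt_pow 2 x).const_mul _)
      have e2 : h * R0 (p + 1) (q + 1) * 1 +
            h / 2 * (R1 (p + 1) (q + 1) - R0 (p + 1) (q + 1)) * ((2 : ℕ) * x ^ (2 - 1)) =
          h * R0 (p + 1) (q + 1) + h * (R1 (p + 1) (q + 1) - R0 (p + 1) (q + 1)) * x := by
        push_cast; simp; ring
      rw [e2] at e1
      exact e1
    · simp only [if_neg h1]
      have d1 : HasDerivAt c (C' - C) x := by
        have : HasDerivAt (fun t : ℝ => C + t * (C' - C)) (1 * (C' - C)) x :=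
          ((hasDerivAt_id x).mul_const _).const_add _
        rw [one_mul] at this
        have e : c = fun t : ℝ => C + t * (C' - C) := by funext t; simp only [hc]; ring
        rw [e]; exact this
      have d2 : HasDerivAt ρ (r' - r) x := by
        have : HasDerivAt (fun t : ℝ => r + t * (r' - r)) (1 * (r' - r)) x :=
          ((hasDerivAt_id x).mul_const _).const_add _
        rw [one_mul] at this
        have e : ρ = fun t : ℝ => r + t * (r' - r) := by funext t; simp only [hρ]; ring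
        rw [e]; exact this
      exact d1.mul (d2.pow (p + 1 + (q + 1) - 2))
  · intro x hx p q
    by_cases h1 : p + 1 + (q + 1) ≤ D
    · -- block entries
      have e1 := VF_mono (hUnn x hx) (hUchord x hx) (p + 1) (q + 1)
      have e2 := VF_chord hfull_mono hx.1 hx.2 (p + 1) (q + 1)
      have e3 := b1 (p + 1) (q + 1) (by omega) (by omega) h1
      have e4 := b2 (p + 1) (q + 1) (by omega) (by omega) h1
      simp only [hU', if_pos h1]
      have e5 : (1 - x) * VF (full D g C r) (p + 1) (q + 1) +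
          x * VF (full D g' C' r') (p + 1) (q + 1) ≤
          (1 - x) * R0 (p + 1) (q + 1) + x * R1 (p + 1) (q + 1) :=
        add_le_add (mul_le_mul_of_nonneg_left e3 (by linarith [hx.2]))
          (mul_le_mul_of_nonneg_left e4 hx.1)
      have e6 := mul_le_mul_of_nonneg_left (e1.trans (e2.trans e5)) hh
      refine e6.trans (le_of_eq ?_)
      ring
    · -- tail entries
      have k2 : 0 < c x := hC.trans_le (hcb x hx).1
      have k3 : 0 < ρ x := hr.trans_le (hρb x hx).1
      have hm : D - 1 ≤ p + q := by omega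
      have hUb : ∀ i j, U x (i + 1) (j + 1) ≤ c x * ρ x ^ (i + j) := by
        intro i j
        by_cases h2 : i + 1 + (j + 1) ≤ D
        · have f1 := hUchord x hx (i + 1) (j + 1)
          have f2 : full D g C r (i + 1) (j + 1) ≤ g' (i + 1) (j + 1) := by
            unfold full
            rw [if_neg (by omega), if_pos h2]
            exact hgg _ _ (by omega) (by omega) h2
          have f3 : full D g' C' r' (i + 1) (j + 1) = g' (i + 1) (j + 1) := by
            unfold full
            rw [if_neg (by omega), if_pos h2]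
          rw [f3] at f1
          have f4 := dom (i + 1) (j + 1) (by omega) (by omega) h2
          have f5 : i + 1 + (j + 1) - 2 = i + j := by omega
          rw [f5] at f4
          have f6 : C * r ^ (i + j) ≤ c x * ρ x ^ (i + j) :=
            mul_le_mul (hcb x hx).1 (pow_le_pow_left₀ hr.le (hρb x hx).1 _) (by positivity) k2.le
          have f7 : (1 - x) * full D g C r (i + 1) (j + 1) ≤ (1 - x) * g' (i + 1) (j + 1) :=
            mul_le_mul_of_nonneg_left f2 (by linarith [hx.2])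
          linarith
        · simp only [hU]
          rw [if_neg (by omega), if_neg h2]
          have f5 : i + 1 + (j + 1) - 2 = i + j := by omega
          rw [f5]
      have hU0 : ∀ q, U x 0 q = 0 := fun q => by simp [hU]
      have hU0' : ∀ p, U x p 0 = 0 := fun p => by simp [hU]
      have hD1 : p + q ≠ 0 := by omega
      have e1 := tail_bound (hUnn x hx) hU0 hU0' k2.le k3 hUb p q hD1
      have hU11 : U x 1 1 ≤ g' 1 1 := by
        have f1 := hUchord x hx 1 1
        have f2 : full D g C r 1 1 ≤ g' 1 1 := by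
          unfold full
          rw [if_neg (by omega), if_pos (by omega)]
          exact hgg _ _ le_rfl le_rfl (by omega)
        have f3 : full D g' C' r' 1 1 = g' 1 1 := by
          unfold full
          rw [if_neg (by omega), if_pos (by omega)]
        rw [f3] at f1
        have f7 : (1 - x) * full D g C r 1 1 ≤ (1 - x) * g' 1 1 :=
          mul_le_mul_of_nonneg_left f2 (by linarith [hx.2])
        linarith
      simp only [hU', if_neg h1]
      have f5 : p + 1 + (q + 1) - 2 = p + q := by omega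
      rw [f5]
      have hr1 : 1 / ρ x ≤ 1 / r := one_div_le_one_div_of_le hr (hρb x hx).1
      have hr4 : 4 / ρ x ≤ 4 / r := div_le_div_of_nonneg_left (by norm_num) hr (hρb x hx).1
      have hsq : (1 + 1 / ρ x) ^ 2 ≤ (1 + 1 / r) ^ 2 :=
        pow_le_pow_left₀ (by positivity) (by linarith) 2
      have e2 : ρ x ^ 2 + 4 * ρ x + 6 + 4 / ρ x + U x 1 1 +
          (p + q : ℕ) * (c x * (1 + 1 / ρ x) ^ 2) ≤
          r' ^ 2 + 4 * r' + 6 + 4 / r + g' 1 1 + (p + q : ℕ) * (C' * (1 + 1 / r) ^ 2) := by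
        have g1 : ρ x ^ 2 ≤ r' ^ 2 := pow_le_pow_left₀ k3.le (hρb x hx).2 2
        have g2 : c x * (1 + 1 / ρ x) ^ 2 ≤ C' * (1 + 1 / r) ^ 2 :=
          mul_le_mul (hcb x hx).2 hsq (by positivity) hC'.le
        have g3 : ((p + q : ℕ) : ℝ) * (c x * (1 + 1 / ρ x) ^ 2) ≤
            (p + q : ℕ) * (C' * (1 + 1 / r) ^ 2) :=
          mul_le_mul_of_nonneg_left g2 (by positivity)
        have g4 := (hρb x hx).2
        linarith
      -- combine the conditions
      obtain ⟨k, hk⟩ : ∃ k, p + q = (D - 1) + k := ⟨p + q - (D - 1), by omega⟩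
      have e3 : h * (r' ^ 2 + 4 * r' + 6 + 4 / r + g' 1 1) +
          (p + q : ℕ) * (h * (C' * (1 + 1 / r) ^ 2)) ≤
          (C' - C) / C' + (p + q : ℕ) * ((r' - r) / r') := by
        have g1 : (k : ℝ) * (h * (C' * (1 + 1 / r) ^ 2)) ≤ k * ((r' - r) / r') :=
          mul_le_mul_of_nonneg_left t1 (by positivity)
        have g2 : ((p + q : ℕ) : ℝ) = ((D - 1 : ℕ) : ℝ) + k := by rw [hk]; push_cast; ring
        rw [g2, add_mul, add_mul]
        linarith
      have e4 : (C' - C) / C' ≤ (C' - C) / c x :=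
        div_le_div_of_nonneg_left (by linarith) k2 (hcb x hx).2
      have e5 : (r' - r) / r' ≤ (r' - r) / ρ x :=
        div_le_div_of_nonneg_left (by linarith) k3 (hρb x hx).2
      have e6 : h * (ρ x ^ 2 + 4 * ρ x + 6 + 4 / ρ x + U x 1 1 +
          (p + q : ℕ) * (c x * (1 + 1 / ρ x) ^ 2)) ≤
          (C' - C) / c x + (p + q : ℕ) * ((r' - r) / ρ x) := by
        have g1 := mul_le_mul_of_nonneg_left e2 hh
        have g2 : ((p + q : ℕ) : ℝ) * ((r' - r) / r') ≤ (p + q : ℕ) * ((r' - r) / ρ x) :=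
          mul_le_mul_of_nonneg_left e5 (by positivity)
        have g3 : h * (r' ^ 2 + 4 * r' + 6 + 4 / r + g' 1 1 +
            (p + q : ℕ) * (C' * (1 + 1 / r) ^ 2)) =
            h * (r' ^ 2 + 4 * r' + 6 + 4 / r + g' 1 1) +
            (p + q : ℕ) * (h * (C' * (1 + 1 / r) ^ 2)) := by ring
        linarith
      have hcp : 0 ≤ c x * ρ x ^ (p + q) := by positivity
      have e7 := mul_le_mul_of_nonneg_left e1 hh
      have e8 := mul_le_mul_of_nonneg_left e6 hcp
      have e9 : c x * ρ x ^ (p + q) * ((C' - C) / c x + (p + q : ℕ) * ((r' - r) / ρ x)) =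
          (C' - C) * ρ x ^ (p + q) +
          c x * (((p + q : ℕ) : ℝ) * ρ x ^ (p + q - 1) * (r' - r)) := by
        obtain ⟨m, hm'⟩ : ∃ m, p + q = m + 1 := ⟨p + q - 1, by omega⟩
        rw [hm', Nat.add_sub_cancel, pow_succ]
        field_simp
      rw [← e9]
      refine e7.trans (le_trans (le_of_eq ?_) e8)
      ring

end Pool.Agent.H97.SS
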