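import Pool.Agent.H97.SS.Trap
import Pool.Agent.H97.SS.Packed

/-!
The trapezoid step, convenient form, and casts of the packed field.
-/

namespace Pool.Agent.H97.SS

open Finset

theorem full_mono {D : ℕ} {g g' : ℕ → ℕ → ℝ} {C C' r r' : ℝ}
    (hC : 0 < C) (hCC : C ≤ C') (hr : 0 < r) (hrr : r ≤ r')
    (hgg : ∀ p q, 1 ≤ p → 1 ≤ q → p + q ≤ D → g p q ≤ g' p q) (p q : ℕ) :
    full D g C r p q ≤ full D g' C' r' p q := by
  unfold full
  by_cases h0 : p = 0 ∨ q = 0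
  · rw [if_pos h0, if_pos h0]
  · rw [if_neg h0, if_neg h0]
    by_cases h1 : p + q ≤ D
    · rw [if_pos h1, if_pos h1]; exact hgg p q (by omega) (by omega) h1
    · rw [if_neg h1, if_neg h1]
      exact mul_le_mul hCC (pow_le_pow_left₀ hr.le hrr _) (by positivity) (hC.le.trans hCC)

theorem full_nonneg {D : ℕ} {g : ℕ → ℕ → ℝ} {C r : ℝ}
    (hC : 0 ≤ C) (hr : 0 ≤ r) (hg : ∀ p q, 0 ≤ g p q) (p q : ℕ) : 0 ≤ full D g C r p q := by
  unfold full
  split_ifs
  · exact le_rfl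
  · exact hg p q
  · positivity

theorem trap_step' {z h : ℝ} (hz : 0 ≤ z) (hh : 0 ≤ h) {D : ℕ} (hD : 2 ≤ D)
    {g g' R0 R1 : ℕ → ℕ → ℝ} {C C' r r' : ℝ}
    (hC : 0 < C) (hCC : C ≤ C') (hr : 0 < r) (hrr : r ≤ r')
    (hg : ∀ p q, 0 ≤ g p q)
    (hPS : ∀ N p q, PS N z p q ≤ full D g C r p q)
    (hgg : ∀ p q, 1 ≤ p → 1 ≤ q → p + q ≤ D → g p q ≤ g' p q)
    (b1 : ∀ p q, 1 ≤ p → 1 ≤ q → p + q ≤ D → VF (full D g C r) p q ≤ R0 p q)
    (b2 : ∀ p q, 1 ≤ p → 1 ≤ q → p + q ≤ D → VF (full D g' C' r') p q ≤ R1 p q)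
    (b4 : ∀ p q, 1 ≤ p → 1 ≤ q → p + q ≤ D → g p q + h / 2 * (R0 p q + R1 p q) ≤ g' p q)
    (dom : ∀ p q, 1 ≤ p → 1 ≤ q → p + q ≤ D → g' p q ≤ C * r ^ (p + q - 2))
    (t1 : h * (C' * (1 + 1 / r) ^ 2) ≤ (r' - r) / r')
    (t2 : h * (r' ^ 2 + 4 * r' + 6 + 4 / r + g' 1 1) + (D - 1 : ℕ) * (h * (C' * (1 + 1 / r) ^ 2)) ≤
      (C' - C) / C' + (D - 1 : ℕ) * ((r' - r) / r')) :
    ∀ N p q, PS N (z + h) p q ≤ full D g' C' r' p q := by
  refine trap_step hz hh hD (R0 := VF (full D g C r)) (R1 := VF (full D g' C' r'))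
    hC hCC hr hrr hg hPS (fun _ _ _ _ _ => le_rfl) (fun _ _ _ _ _ => le_rfl)
    (fun p q _ _ _ => VF_mono (full_nonneg hC.le hr.le hg) (full_mono hC hCC hr hrr hgg) p q)
    (fun p q h1 h2 h3 => ?_) dom t1 t2
  refine le_trans ?_ (b4 p q h1 h2 h3)
  have e1 := b1 p q h1 h2 h3
  have e2 := b2 p q h1 h2 h3
  have e3 : h / 2 * (VF (full D g C r) p q + VF (full D g' C' r') p q) ≤
      h / 2 * (R0 p q + R1 p q) := mul_le_mul_of_nonneg_left (by linarith) (by linarith)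
  linarith

theorem VF_congr {K : Type} [CommSemiring K] {G G' : ℕ → ℕ → K} {p q : ℕ} (hp : 1 ≤ p) (hq : 1 ≤ q)
    (h : ∀ i j, i + j ≤ p + q + 2 → G i j = G' i j) : VF G p q = VF G' p q := by
  unfold VF lin bil tv tu
  congr 1
  · congr 1
    rw [h p q (by omega), h (p + 1) q (by omega), h p (q + 1) (by omega), h (p - 1) q (by omega),
      h p (q - 1) (by omega), h (p + 1) (q + 1) (by omega), h (p + 1) (q - 1) (by omega),
      h (p - 1) (q + 1) (by omega)]
  · congr 1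
    · congr 1
      · rw [h 1 1 (by omega), h p q (by omega)]
      · refine Finset.sum_congr rfl (fun j hj => ?_)
        have hj' := Finset.mem_range.1 hj
        rw [h _ _ (by omega), h _ _ (by omega), h 1 (j + 1 + 1) (by omega), h p _ (by omega)]
    · refine Finset.sum_congr rfl (fun j hj => ?_)
      have hj' := Finset.mem_range.1 hj
      rw [h _ _ (by omega), h _ _ (by omega), h (j + 1 + 1) 1 (by omega), h _ q (by omega)]

/-- Scaling. -/
theorem VF_scale {K : Type} [Field K] (S : K) (hS : S ≠ 0) (G : ℕ → ℕ → K) (p q : ℕ) :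
    VF (fun i j => G i j / S) p q =
      ((if p = 1 ∧ q = 1 then S ^ 2 else 0) + S * lin G p q + bil G G p q) / S ^ 2 := by
  have e1 : lin (fun i j => G i j / S) p q = lin G p q / S := by
    unfold lin; field_simp
  have e2 : ∀ j, tv (fun i j => G i j / S) j = tv G j / S := fun j => by unfold tv; field_simp
  have e3 : ∀ j, tu (fun i j => G i j / S) j = tu G j / S := fun j => by unfold tu; field_simp
  have e4 : bil (fun i j => G i j / S) (fun i j => G i j / S) p q = bil G G p q / S ^ 2 := by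
    unfold bil
    simp only [e2, e3]
    rw [add_div, add_div, Finset.sum_div, Finset.sum_div]
    congr 1
    · congr 1
      · field_simp
      · refine Finset.sum_congr rfl (fun j _ => ?_)
        field_simp
    · refine Finset.sum_congr rfl (fun j _ => ?_)
      field_simp
  unfold VF
  rw [e1, e4]
  split_ifs
  · field_simp
  · field_simp
    ring

theorem Rs_cast {K : Type} [Field K] [CharZero K] (s : ℕ) (G : ℕ → ℕ → ℕ) (p q : ℕ) :
    VF (fun i j => (G i j : K) / 2 ^ s) p q = (Rs s G p q : K) / 2 ^ (2 * s) := by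
  rw [VF_scale (2 ^ s : K) (pow_ne_zero s two_ne_zero) (fun i j => (G i j : K))]
  have e1 : ((lin G p q : ℕ) : K) = lin (fun i j => (G i j : K)) p q := by
    unfold lin; push_cast; rfl
  have e2 : ((bil G G p q : ℕ) : K) = bil (fun i j => (G i j : K)) (fun i j => (G i j : K)) p q := by
    unfold bil tv tu; push_cast; rfl
  unfold Rs
  push_cast
  rw [e1, e2]
  have e3 : ((2 : K) ^ s) ^ 2 = 2 ^ (2 * s) := by rw [← pow_mul, mul_comm]
  rw [e3]

end Pool.Agent.H97.SS
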