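import Pool.Agent.H97.SS.UMath
import Pool.Agent.H97.SS.Prog

/-!
Soundness of the upper program.
-/

namespace Pool.Agent.H97.SS

open Finset

/-- Specification of the masks. -/
structure Msk (w W0 D s b : ℕ) (ONE Z BS BQ BB : ℕ) : Prop where
  one : ∀ i, dg w ONE i = if blk W0 D i then 1 else 0
  bs : ∀ i, dg w BS i = if blk W0 D i then 2 ^ (w - (s + 41)) - 1 else 0
  bq : ∀ i, dg w BQ i = if blk W0 D i then 2 ^ (w - 1) - 1 else 0
  bb : ∀ i, dg w BB i = if blk W0 D i then 2 ^ b - 1 else 0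
  zle : ∀ i, dg w Z i ≤ 1
  zdvd : ∀ i, dg w Z i ≠ 0 → 2 ≤ i ∧ (i - 2) % (W0 - 1) = 0

/-- The approximate powers. -/
def vm (s C r m : ℕ) : ℕ := (C * r ^ m) >>> (s * m)

theorem powV_succ (w s C r K : ℕ) :
    powV w s C r (K + 1) = powV w s C r K + vm s C r K <<< (w * K) := rfl

theorem dg_powV {w s C r Z : ℕ} (hz : ∀ i, dg w Z i ≤ 1) (K : ℕ)
    (hs : ∑ m ∈ range K, vm s C r m < 2 ^ w) (i : ℕ) :
    dg w (powV w s C r K * Z) i =
      ∑ m ∈ range K, vm s C r m * (if m ≤ i then dg w Z (i - m) else 0) := by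
  induction K generalizing i with
  | zero => simp [powV, dg_of_zero]
  | succ K ih =>
    rw [sum_range_succ] at hs
    have ih' := fun i => ih (by omega) i
    rw [powV_succ, add_mul, Nat.shiftLeft_eq, mul_assoc, mul_comm (2 ^ (w * K)) Z]
    have h1 : ∀ i, dg w (vm s C r K * (Z * 2 ^ (w * K))) i =
        vm s C r K * (if K ≤ i then dg w Z (i - K) else 0) := by
      intro i
      rw [dg_smul, dg_shiftLeft]
      intro j
      rw [dg_shiftLeft]
      split_ifs
      · have := hz (j - K)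
        calc vm s C r K * dg w Z (j - K) ≤ vm s C r K * 1 := Nat.mul_le_mul_left _ this
          _ < 2 ^ w := by omega
      · simp
    have h2 : ∀ i, ∑ m ∈ range K, vm s C r m * (if m ≤ i then dg w Z (i - m) else 0) ≤
        ∑ m ∈ range K, vm s C r m := by
      intro i
      refine sum_le_sum (fun m _ => ?_)
      split_ifs
      · have := hz (i - m)
        calc vm s C r m * dg w Z (i - m) ≤ vm s C r m * 1 := Nat.mul_le_mul_left _ this
          _ = _ := mul_one _
      · simp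
    have h3 : ∀ i, vm s C r K * (if K ≤ i then dg w Z (i - K) else 0) ≤ vm s C r K := by
      intro i
      split_ifs
      · have := hz (i - K)
        calc vm s C r K * dg w Z (i - K) ≤ vm s C r K * 1 := Nat.mul_le_mul_left _ this
          _ = _ := mul_one _
      · simp
    rw [dg_add, ih', h1, sum_range_succ]
    intro j
    rw [ih', h1]
    have := h2 j
    have := h3 j
    omega

theorem vm_le (s C r m K : ℕ) (hm : m ≤ K) : vm s C r m ≤ C * (r >>> s + 1) ^ K := by
  unfold vm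
  rw [Nat.shiftRight_eq_div_pow, Nat.shiftRight_eq_div_pow]
  have h1 : r ≤ (r / 2 ^ s + 1) * 2 ^ s := by
    have := Nat.lt_div_mul_add (a := r) (b := 2 ^ s) (by positivity)
    rw [add_mul, one_mul]; exact this.le
  have h2 : C * r ^ m ≤ C * (r / 2 ^ s + 1) ^ K * 2 ^ (s * m) := by
    calc C * r ^ m ≤ C * ((r / 2 ^ s + 1) * 2 ^ s) ^ m :=
          Nat.mul_le_mul_left _ (Nat.pow_le_pow_left h1 m)
      _ = C * (r / 2 ^ s + 1) ^ m * 2 ^ (s * m) := by rw [mul_pow, pow_mul]; ring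
      _ ≤ C * (r / 2 ^ s + 1) ^ K * 2 ^ (s * m) := by
          refine Nat.mul_le_mul_right _ (Nat.mul_le_mul_left _ ?_)
          exact Nat.pow_le_pow_right (Nat.succ_pos _) hm
  calc C * r ^ m / 2 ^ (s * m) ≤ C * (r / 2 ^ s + 1) ^ K * 2 ^ (s * m) / 2 ^ (s * m) :=
        Nat.div_le_div_right h2
    _ = _ := Nat.mul_div_cancel _ (by positivity)

theorem dom_digit {w W0 D s C r Z BM : ℕ} (hW : 2 * D + 2 ≤ W0) (hz : ∀ i, dg w Z i ≤ 1)
    (hz' : ∀ i, dg w Z i ≠ 0 → 2 ≤ i ∧ (i - 2) % (W0 - 1) = 0)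
    (h6 : (D - 1) * C * (r >>> s + 1) ^ (D - 1 - 1) < 2 ^ w)
    {p q : ℕ} (h1 : 1 ≤ p) (h2 : 1 ≤ q) (h3 : p + q ≤ D) :
    dg w ((powV w s C r (D - 1) * Z) &&& BM) (W0 * p + q) * 2 ^ (s * (p + q - 2)) ≤
      C * r ^ (p + q - 2) := by
  have hs : ∑ m ∈ range (D - 1), vm s C r m < 2 ^ w := by
    refine lt_of_le_of_lt ?_ h6
    calc ∑ m ∈ range (D - 1), vm s C r m
        ≤ ∑ _m ∈ range (D - 1), C * (r >>> s + 1) ^ (D - 1 - 1) := by
          refine sum_le_sum (fun m hm => vm_le _ _ _ _ _ ?_)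
          have := mem_range.1 hm; omega
      _ = (D - 1) * C * (r >>> s + 1) ^ (D - 1 - 1) := by simp [mul_assoc]
  rw [dg_land]
  have h4 : dg w (powV w s C r (D - 1) * Z) (W0 * p + q) ≤ vm s C r (p + q - 2) := by
    rw [dg_powV hz _ hs]
    calc ∑ m ∈ range (D - 1), vm s C r m * (if m ≤ W0 * p + q then dg w Z (W0 * p + q - m) else 0)
        ≤ ∑ m ∈ range (D - 1), if m = p + q - 2 then vm s C r (p + q - 2) else 0 := by
          refine sum_le_sum (fun m hm => ?_)
          have hm' := mem_range.1 hm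
          by_cases h5 : m = p + q - 2
          · rw [if_pos h5, h5]
            split_ifs
            · have := hz (W0 * p + q - (p + q - 2))
              calc _ ≤ vm s C r (p + q - 2) * 1 := Nat.mul_le_mul_left _ this
                _ = _ := mul_one _
            · simp
          · rw [if_neg h5]
            split_ifs with h7
            · have h8 : dg w Z (W0 * p + q - m) = 0 := by
                by_contra h9
                obtain ⟨h10, h11⟩ := hz' _ h9
                apply h5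
                obtain ⟨V, hV⟩ : ∃ V, W0 = V + 1 := ⟨W0 - 1, by omega⟩
                subst hV
                rw [Nat.add_sub_cancel] at h11
                have h12 : (V + 1) * p + q - m - 2 = V * p + (p + q) - m - 2 := by
                  have : (V + 1) * p = V * p + p := by ring
                  rw [this]; omega
                rw [h12] at h11
                have hVp : V ≤ V * p := Nat.le_mul_of_pos_right _ (by omega)
                by_cases h13 : m ≤ p + q - 2
                · have h14 : V * p + (p + q) - m - 2 = V * p + (p + q - 2 - m) := by omega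
                  rw [h14, Nat.mul_add_mod, Nat.mod_eq_of_lt (by omega)] at h11
                  omega
                · obtain ⟨p', rfl⟩ : ∃ p', p = p' + 1 := ⟨p - 1, by omega⟩
                  have h14 : V * (p' + 1) + (p' + 1 + q) - m - 2 =
                      V * p' + (V - (m - (p' + 1 + q - 2))) := by
                    have : V * (p' + 1) = V * p' + V := by ring
                    rw [this]; omega
                  rw [h14, Nat.mul_add_mod, Nat.mod_eq_of_lt (by omega)] at h11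
                  omega
              rw [h8]; simp
            · simp
      _ = vm s C r (p + q - 2) := by
          rw [sum_ite_eq', if_pos (mem_range.2 (by omega))]
  have h5 : dg w (powV w s C r (D - 1) * Z) (W0 * p + q) &&& dg w BM (W0 * p + q) ≤
      vm s C r (p + q - 2) := Nat.and_le_left.trans h4
  calc _ ≤ vm s C r (p + q - 2) * 2 ^ (s * (p + q - 2)) := Nat.mul_le_mul_right _ h5
    _ ≤ C * r ^ (p + q - 2) := by
        unfold vm
        rw [Nat.shiftRight_eq_div_pow]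
        exact Nat.div_mul_le_self _ _

theorem bk_of_land {w W0 D b N BB : ℕ}
    (hbb : ∀ i, dg w BB i = if blk W0 D i then 2 ^ b - 1 else 0) (h : N &&& BB = N) :
    Bk w W0 D b N := by
  have h1 : ∀ i, dg w N i = dg w N i &&& dg w BB i := by
    intro i
    conv_lhs => rw [← h]
    rw [dg_land]
  refine ⟨fun i hi => ?_, fun i => ?_⟩
  · rw [h1 i, hbb i, if_neg hi, Nat.and_zero]
  · rw [h1 i, hbb i]
    have : 0 < 2 ^ b := by positivity
    split_ifs
    · exact lt_of_le_of_lt Nat.and_le_right (by omega)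
    · rw [Nat.and_zero]; exact this

theorem dg_le_of {w W0 D a c BQ : ℕ} (hw : 0 < w)
    (hbq : ∀ i, dg w BQ i = if blk W0 D i then 2 ^ (w - 1) - 1 else 0)
    (ha : ∀ i, dg w a i ≤ 2 ^ (w - 1)) (h : a ≤ c) (h2 : (c - a) &&& BQ = c - a) (i : ℕ) :
    dg w a i ≤ dg w c i := by
  have h1 := bk_of_land hbq h2
  have h3 : c = a + (c - a) := by omega
  have hpw : 2 ^ w = 2 ^ (w - 1) + 2 ^ (w - 1) := by
    rw [← two_mul, ← pow_succ']; congr 1; omega
  rw [h3, dg_add]
  · exact Nat.le_add_right _ _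
  · intro j
    have := ha j
    have := h1.lt j
    omega

section

variable {w W0 D s b wR BM RM CM AM E1 E2 ONE Z BS BP B60 BQ BB : ℕ}

theorem ustep_sound (hc : Cst w W0 D BM RM CM AM E1 E2) (hm : Msk w W0 D s b ONE Z BS BQ BB)
    (hp : Par w W0 D s b wR)
    {n K A0 A1 A2 zn g R0 Rp Rpp C r dr : ℕ} {k : ℕ → ℕ → ℕ → ℕ → ℕ → Bool}
    (hi : UInv w W0 D s b wR zn g R0 C r)
    (h : ustep w D s (2 ^ s) (2 ^ 40) (2 ^ (2 * s) * 2 ^ (w * (2 * W0 + 2))) (2 ^ s * Kn w W0)
      (K1n w) (K2n w W0) (K3n w W0) (w * (W0 + 1)) BM RM CM AM E1 E2 ONE Z BS BP B60 BQ BB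
      (2 ^ b - 1) (2 ^ w - 1) (2 ^ w - 1) n K A0 A1 A2 g R0 Rp Rpp C r dr k = true) :
    ∃ g' R1 C' r' dr', k g' R1 C' r' dr' = true ∧ UInv w W0 D s b wR (zn + n) g' R1 C' r' := by
  have hw := hp.hw
  have hb := hp.hb
  have hD := hp.hD
  have hD2 := hp.hD2
  have hD3 := hp.hD3
  have hwR := hp.hwR
  have hws := hp.hws
  unfold ustep at h
  obtain ⟨hn, h⟩ := chk_elim h
  obtain ⟨Dom, hDom, h⟩ := force_elim h
  obtain ⟨gh, -, h⟩ := force_elim h
  obtain ⟨hBB, h⟩ := chk_elim h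
  obtain ⟨g11, -, h⟩ := force_elim h
  obtain ⟨gh11, hgh11, h⟩ := force_elim h
  obtain ⟨C', hC', h⟩ := force_elim h
  obtain ⟨rr, hrr, h⟩ := force_elim h
  obtain ⟨rS, hrS, h⟩ := force_elim h
  obtain ⟨nCr, hnCr, h⟩ := force_elim h
  obtain ⟨rest, -, h⟩ := force_elim h
  obtain ⟨dl, -, h⟩ := force_elim h
  obtain ⟨r', -, h⟩ := force_elim h
  obtain ⟨dr', hdr', h⟩ := force_elim h
  obtain ⟨hr, h⟩ := chk_elim h
  obtain ⟨t1, h⟩ := chk_elim h
  obtain ⟨t2, h⟩ := chk_elim h
  obtain ⟨h6, h⟩ := chk_elim h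
  obtain ⟨rp, hrp, h⟩ := force_elim h
  obtain ⟨e1, he1, h⟩ := force_elim h
  obtain ⟨e2, he2, h⟩ := force_elim h
  obtain ⟨he1b, h⟩ := chk_elim h
  obtain ⟨he2b, h⟩ := chk_elim h
  obtain ⟨R1, hR1, h⟩ := force_elim h
  obtain ⟨g', hg', h⟩ := force_elim h
  obtain ⟨hle, h⟩ := chk_elim h
  obtain ⟨d1, hd1, h⟩ := force_elim h
  obtain ⟨hq1, h⟩ := chk_elim h
  obtain ⟨hle2, h⟩ := chk_elim h
  obtain ⟨d2, hd2, h⟩ := force_elim h
  obtain ⟨hq2, h⟩ := chk_elim h
  refine ⟨g', R1, C', r', dr', h, ?_⟩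
  have hn' : n ≤ 34359738367 := Nat.le_of_ble_eq_true hn
  have hBB' : gh &&& BB = gh := Nat.eq_of_beq_eq_true hBB
  have hr' : r ≤ r' := Nat.le_of_ble_eq_true hr
  have hle' : g' ≤ gh := Nat.le_of_ble_eq_true hle
  have hle2' : g' ≤ Dom := Nat.le_of_ble_eq_true hle2
  have hq1' : (gh - g') &&& BQ = gh - g' := by rw [hd1] at hq1; exact Nat.eq_of_beq_eq_true hq1
  have hq2' : (Dom - g') &&& BQ = Dom - g' := by rw [hd2] at hq2; exact Nat.eq_of_beq_eq_true hq2
  have he1b' : e1 ≤ 2 ^ b - 1 := Nat.le_of_ble_eq_true he1b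
  have he2b' : e2 ≤ 2 ^ b - 1 := Nat.le_of_ble_eq_true he2b
  have hpb : 0 < 2 ^ b := by positivity
  have hpw : 0 < 2 ^ w := by positivity
  have hgh := bk_of_land hm.bb hBB'
  have hCC : C ≤ C' := by rw [hC']; exact Nat.le_add_right _ _
  have hR1' : R1 = Rf w W0 s gh e1 e2 BM RM CM AM E1 E2 := hR1
  have hbR1 : Bk w W0 D wR R1 := by
    rw [hR1']
    exact Bk_Rf hc hw (by omega) hD hD2 hD3 hgh (by omega) (by omega) hp.hB (by omega)
  have hwR1 : 2 ^ wR * 2 ^ 36 ≤ 2 ^ w := by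
    rw [← pow_add]; exact Nat.pow_le_pow_right (by norm_num) (by omega)
  have hsum : ∀ i, dg w (R0 + R1) i = dg w R0 i + dg w R1 i := by
    intro i
    refine dg_add (fun j => ?_) i
    have := hi.bkR.lt j
    have := hbR1.lt j
    omega
  have hX : ∀ i, dg w (n * (R0 + R1)) i = n * (dg w R0 i + dg w R1 i) := by
    intro i
    rw [dg_smul, hsum]
    intro j
    rw [hsum]
    have h1 := hi.bkR.lt j
    have h2 := hbR1.lt j
    calc n * (dg w R0 j + dg w R1 j) ≤ 34359738367 * (2 ^ wR + 2 ^ wR) :=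
          Nat.mul_le_mul hn' (by omega)
      _ < 2 ^ wR * 2 ^ 36 := by
          have : 0 < 2 ^ wR := by positivity
          omega
      _ ≤ 2 ^ w := hwR1
  have hinc : ∀ i, dg w (((n * (R0 + R1)) >>> (s + 41)) &&& BS) i =
      if blk W0 D i then n * (dg w R0 i + dg w R1 i) / 2 ^ (s + 41) else 0 := by
    intro i
    have hpos : 0 < 2 ^ (w - (s + 41)) := by positivity
    rw [dg_shift_land (by rw [hm.bs]; split_ifs <;> omega), hm.bs]
    split_ifs
    · rw [and_mask, hX]
      rw [Nat.div_lt_iff_lt_mul (by positivity), ← pow_add]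
      have : w - (s + 41) + (s + 41) = w := by omega
      rw [this]; exact dg_lt _ _ _
    · simp
  have hincle : ∀ i, dg w (((n * (R0 + R1)) >>> (s + 41)) &&& BS) i < 2 ^ (w - 2) := by
    intro i
    rw [dg_shift_land (by rw [hm.bs]; have hpos : 0 < 2 ^ (w - (s + 41)) := by positivity
                          split_ifs <;> omega)]
    refine lt_of_le_of_lt Nat.and_le_right ?_
    rw [hm.bs]
    have hpos : 0 < 2 ^ (w - (s + 41)) := by positivity
    have : 2 ^ (w - (s + 41)) ≤ 2 ^ (w - 2) := Nat.pow_le_pow_right (by norm_num) (by omega)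
    split_ifs <;> omega
  have hw2 : 2 ^ w = 4 * 2 ^ (w - 2) := by
    have : w = w - 2 + 2 := by omega
    conv_lhs => rw [this, pow_add]
    ring
  have hw1 : 2 ^ (w - 1) = 2 * 2 ^ (w - 2) := by
    have : w - 1 = w - 2 + 1 := by omega
    rw [this, pow_add]; ring
  have hbw : 2 ^ b ≤ 2 ^ (w - 2) := Nat.pow_le_pow_right (by norm_num) (by omega)
  have hsum2 : ∀ i, dg w (g + (((n * (R0 + R1)) >>> (s + 41)) &&& BS)) i =
      dg w g i + dg w (((n * (R0 + R1)) >>> (s + 41)) &&& BS) i := by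
    intro i
    refine dg_add (fun j => ?_) i
    have := hi.bk.lt j
    have := hincle j
    omega
  have hg'' : g' = g + (((n * (R0 + R1)) >>> (s + 41)) &&& BS) + ONE := hg'
  have hpw2 : 0 < 2 ^ (w - 2) := by positivity
  have hdg' : ∀ i, dg w g' i = dg w g i + dg w (((n * (R0 + R1)) >>> (s + 41)) &&& BS) i +
      dg w ONE i := by
    intro i
    rw [hg'', dg_add, hsum2]
    intro j
    rw [hsum2, hm.one]
    have := hi.bk.lt j
    have := hincle j
    split_ifs <;> omega
  have hg'le : ∀ i, dg w g' i ≤ 2 ^ (w - 1) := by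
    intro i
    rw [hdg', hm.one]
    have := hi.bk.lt i
    have := hincle i
    split_ifs <;> omega
  have hle3 := fun i => dg_le_of hw hm.bq hg'le hle' hq1' i
  have hle4 := fun i => dg_le_of hw hm.bq hg'le hle2' hq2' i
  have hrp' : rp = r' ^ (D - 1) := hrp
  have hgh11' : gh11 = dg w gh (W0 + 1) := by
    rw [hgh11]
    change (gh >>> (w * (W0 + 1))) &&& (2 ^ w - 1) = _
    rw [Nat.and_two_pow_sub_one_eq_mod, Nat.shiftRight_eq_div_pow]
    rfl
  have hdr : dr' = r' - r := hdr'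
  have hrr' : rr = r * r := hrr
  have hrS' : rS = r + 2 ^ s := hrS
  have hnCr' : nCr = n * C' * (rS * rS) := hnCr
  rw [hR1']
  refine ustep_math hc hp (C' := C') (r' := r') hi hgh hle3 hCC hr' ?_ ?_ (by omega) (by omega)
    ?_ ?_ ?_ ?_
  · -- e1
    have h1 : e1 = (C' * r' ^ (D - 1)) >>> (s * (D - 1)) + 1 := by rw [he1, hrp']; rfl
    rw [h1, Nat.shiftRight_eq_div_pow]
    have := Nat.lt_div_mul_add (a := C' * r' ^ (D - 1)) (b := 2 ^ (s * (D - 1))) (by positivity)
    rw [add_mul, one_mul]; exact this.le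
  · have h1 : e2 = (C' * (r' ^ (D - 1) * r')) >>> (s * D) + 1 := by rw [he2, hrp']; rfl
    have h2 : r' ^ (D - 1) * r' = r' ^ D := by rw [← pow_succ]; congr 1; omega
    rw [h1, h2, Nat.shiftRight_eq_div_pow]
    have := Nat.lt_div_mul_add (a := C' * r' ^ D) (b := 2 ^ (s * D)) (by positivity)
    rw [add_mul, one_mul]; exact this.le
  · intro p q h1 h2 h3
    rw [← hR1', hdg', hinc, hm.one]
    have hblk : blk W0 D (W0 * p + q) := (blk_iff (by omega)).2 ⟨h1, h2, h3⟩
    rw [if_pos hblk, if_pos hblk]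
  · intro p q h1 h2 h3
    refine le_trans (Nat.mul_le_mul_right _ (hle4 _)) ?_
    have hDom' : Dom = (powV w s C r (D - 1) * Z) &&& BM := hDom
    rw [hDom']
    refine dom_digit hD3 hm.zle hm.zdvd ?_ h1 h2 h3
    have h7 : (D - 1) * C * (r >>> s + 1) ^ (D - 1 - 1) ≤ 2 ^ w - 1 := Nat.le_of_ble_eq_true h6
    omega
  · have h7 : nCr * r' ≤ 2 ^ 40 * 2 ^ s * (rr * dr') := Nat.le_of_ble_eq_true t1
    rw [hnCr', hrS', hrr', hdr] at h7
    exact h7
  · have h7 : n * (r' * C' * (rr * (r' * r' + 2 ^ s * (4 * r' + 6 * 2 ^ s + gh11)) +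
        4 * r * (2 ^ s * (2 ^ s * 2 ^ s))) + r' * C' * (D - 1) * (C' * 2 ^ s * (rS * rS))) ≤
        2 ^ 40 * rr * (2 ^ s * 2 ^ s) * ((C' - C) * r' + (D - 1) * (dr' * C')) :=
      Nat.le_of_ble_eq_true t2
    rw [hrS', hrr', hdr, hgh11'] at h7
    exact h7

end

end Pool.Agent.H97.SS
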