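import Pool.Agent.H97.SS.Trap2

/-!
Soundness of a step of the upper scheme.
-/

namespace Pool.Agent.H97.SS

open Finset

/-- The real function of a packed number. -/
noncomputable def Gr (w W0 s N : ℕ) (p q : ℕ) : ℝ := (dg w N (W0 * p + q) : ℝ) / 2 ^ s

/-- The invariant of the upper scheme. -/
structure UInv (w W0 D s b wR : ℕ) (zn g R0 C r : ℕ) : Prop where
  bk : Bk w W0 D b g
  bkR : Bk w W0 D wR R0
  hC : 0 < C
  hr : 0 < r
  ps : ∀ N p q, PS N ((zn : ℝ) / 2 ^ 40) p q ≤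
    full D (Gr w W0 s g) ((C : ℝ) / 2 ^ s) ((r : ℝ) / 2 ^ s) p q
  vf : ∀ p q, 1 ≤ p → 1 ≤ q → p + q ≤ D →
    VF (full D (Gr w W0 s g) ((C : ℝ) / 2 ^ s) ((r : ℝ) / 2 ^ s)) p q ≤
      (dg w R0 (W0 * p + q) : ℝ) / 2 ^ (2 * s)

/-- Parameters of the scheme. -/
structure Par (w W0 D s b wR : ℕ) : Prop where
  hw : 0 < w
  hb : b + 2 ≤ w
  hD : D + 3 < W0
  hD2 : 2 ≤ D
  hD3 : 2 * D + 2 ≤ W0
  hB : 2 ^ (2 * s) + 15 * 2 ^ s * (W0 * W0 * 2 ^ b) + 11 * (W0 * W0 * 2 ^ b) ^ 2 < 2 ^ wR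
  hwR : wR + 36 ≤ w
  hws : s + 43 ≤ w

section

variable {w W0 D s b wR BM RM CM AM E1 E2 : ℕ}

theorem vf_le (hc : Cst w W0 D BM RM CM AM E1 E2) (hp : Par w W0 D s b wR)
    {gh g' C' r' e1 e2 : ℕ} (hgh : Bk w W0 D b gh) (hle : ∀ i, dg w g' i ≤ dg w gh i)
    (hC : 0 < C') (hr : 0 < r')
    (he1 : C' * r' ^ (D - 1) ≤ e1 * 2 ^ (s * (D - 1))) (he2 : C' * r' ^ D ≤ e2 * 2 ^ (s * D))
    (he1b : e1 < 2 ^ b) (he2b : e2 < 2 ^ b) {p q : ℕ} (h1 : 1 ≤ p) (h2 : 1 ≤ q)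
    (h3 : p + q ≤ D) :
    VF (full D (Gr w W0 s g') ((C' : ℝ) / 2 ^ s) ((r' : ℝ) / 2 ^ s)) p q ≤
      (dg w (Rf w W0 s gh e1 e2 BM RM CM AM E1 E2) (W0 * p + q) : ℝ) / 2 ^ (2 * s) := by
  rw [dg_Rf hc hp.hw (by have := hp.hb; omega) hp.hD hp.hD2 hp.hD3 hgh he1b he2b
    (hp.hB.trans_le (Nat.pow_le_pow_right (by norm_num) (by have := hp.hwR; omega))) h1 h2 h3]
  rw [← Rs_cast]
  have hS : (0 : ℝ) < 2 ^ s := by positivity
  have hC' : (0 : ℝ) < C' := by exact_mod_cast hC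
  have hr' : (0 : ℝ) < r' := by exact_mod_cast hr
  have hfn : ∀ p q, 0 ≤ full D (Gr w W0 s g') ((C' : ℝ) / 2 ^ s) ((r' : ℝ) / 2 ^ s) p q := by
    refine full_nonneg (by positivity) (by positivity) (fun p q => ?_)
    unfold Gr; positivity
  set H : ℕ → ℕ → ℝ := fun p q => if p + q ≤ D + 2 then (ext w W0 D gh e1 e2 p q : ℝ) / 2 ^ s
    else full D (Gr w W0 s g') ((C' : ℝ) / 2 ^ s) ((r' : ℝ) / 2 ^ s) p q with hH
  have hVH : VF (fun i j => (ext w W0 D gh e1 e2 i j : ℝ) / 2 ^ s) p q = VF H p q := by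
    refine VF_congr h1 h2 (fun i j hij => ?_)
    simp only [hH]
    rw [if_pos (by omega)]
  rw [hVH]
  refine VF_mono hfn (fun i j => ?_) p q
  simp only [hH]
  split_ifs with h4
  · unfold full ext
    by_cases h5 : i = 0 ∨ j = 0
    · rw [if_pos h5, if_pos h5]; simp
    · rw [if_neg h5, if_neg h5]
      by_cases h6 : i + j ≤ D
      · rw [if_pos h6, if_pos h6]
        unfold Gr
        have : (dg w g' (W0 * i + j) : ℝ) ≤ dg w gh (W0 * i + j) := by exact_mod_cast hle _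
        gcongr
      · rw [if_neg h6, if_neg h6]
        by_cases h7 : i + j = D + 1
        · rw [if_pos h7]
          have e3 : i + j - 2 = D - 1 := by omega
          rw [e3, div_pow, ← pow_mul, div_mul_div_comm, div_le_div_iff₀ (by positivity) hS]
          have h8 : (C' : ℝ) * (r' : ℝ) ^ (D - 1) ≤ (e1 : ℝ) * 2 ^ (s * (D - 1)) := by
            exact_mod_cast he1
          calc (C' : ℝ) * (r' : ℝ) ^ (D - 1) * 2 ^ s ≤ (e1 * 2 ^ (s * (D - 1))) * 2 ^ s :=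
                mul_le_mul_of_nonneg_right h8 hS.le
            _ = _ := by ring
        · rw [if_neg h7, if_pos (by omega)]
          have e3 : i + j - 2 = D := by omega
          rw [e3, div_pow, ← pow_mul, div_mul_div_comm, div_le_div_iff₀ (by positivity) hS]
          have h8 : (C' : ℝ) * (r' : ℝ) ^ D ≤ (e2 : ℝ) * 2 ^ (s * D) := by
            exact_mod_cast he2
          calc (C' : ℝ) * (r' : ℝ) ^ D * 2 ^ s ≤ (e2 * 2 ^ (s * D)) * 2 ^ s :=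
                mul_le_mul_of_nonneg_right h8 hS.le
            _ = _ := by ring
  · exact le_rfl

theorem ustep_math (hc : Cst w W0 D BM RM CM AM E1 E2) (hp : Par w W0 D s b wR)
    {zn g R0 C r n gh g' C' r' e1 e2 : ℕ} (hi : UInv w W0 D s b wR zn g R0 C r)
    (hgh : Bk w W0 D b gh) (hle : ∀ i, dg w g' i ≤ dg w gh i)
    (hCC : C ≤ C') (hrr : r ≤ r')
    (he1 : C' * r' ^ (D - 1) ≤ e1 * 2 ^ (s * (D - 1))) (he2 : C' * r' ^ D ≤ e2 * 2 ^ (s * D))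
    (he1b : e1 < 2 ^ b) (he2b : e2 < 2 ^ b)
    (hg' : ∀ p q, 1 ≤ p → 1 ≤ q → p + q ≤ D → dg w g (W0 * p + q) +
      n * (dg w R0 (W0 * p + q) + dg w (Rf w W0 s gh e1 e2 BM RM CM AM E1 E2) (W0 * p + q)) /
        2 ^ (s + 41) + 1 ≤ dg w g' (W0 * p + q))
    (hdom : ∀ p q, 1 ≤ p → 1 ≤ q → p + q ≤ D →
      dg w g' (W0 * p + q) * 2 ^ (s * (p + q - 2)) ≤ C * r ^ (p + q - 2))
    (t1 : n * C' * ((r + 2 ^ s) * (r + 2 ^ s)) * r' ≤ 2 ^ 40 * 2 ^ s * (r * r * (r' - r)))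
    (t2 : n * (r' * C' * (r * r * (r' * r' + 2 ^ s * (4 * r' + 6 * 2 ^ s +
        dg w gh (W0 + 1))) + 4 * r * (2 ^ s * (2 ^ s * 2 ^ s))) +
        r' * C' * (D - 1) * (C' * 2 ^ s * ((r + 2 ^ s) * (r + 2 ^ s)))) ≤
      2 ^ 40 * (r * r) * (2 ^ s * 2 ^ s) * ((C' - C) * r' + (D - 1) * ((r' - r) * C'))) :
    UInv w W0 D s b wR (zn + n) g' (Rf w W0 s gh e1 e2 BM RM CM AM E1 E2) C' r' := by
  have hS : (0 : ℝ) < 2 ^ s := by positivity
  have hC' : 0 < C' := hi.hC.trans_le hCC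
  have hr' : 0 < r' := hi.hr.trans_le hrr
  have hCR : (0 : ℝ) < C := by exact_mod_cast hi.hC
  have hrR : (0 : ℝ) < r := by exact_mod_cast hi.hr
  have hCR' : (0 : ℝ) < C' := by exact_mod_cast hC'
  have hrR' : (0 : ℝ) < r' := by exact_mod_cast hr'
  have hvf : ∀ p q, 1 ≤ p → 1 ≤ q → p + q ≤ D →
      VF (full D (Gr w W0 s g') ((C' : ℝ) / 2 ^ s) ((r' : ℝ) / 2 ^ s)) p q ≤
        (dg w (Rf w W0 s gh e1 e2 BM RM CM AM E1 E2) (W0 * p + q) : ℝ) / 2 ^ (2 * s) :=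
    fun p q h1 h2 h3 => vf_le hc hp hgh hle hC' hr' he1 he2 he1b he2b h1 h2 h3
  have hgg : ∀ p q, 1 ≤ p → 1 ≤ q → p + q ≤ D → Gr w W0 s g p q ≤ Gr w W0 s g' p q := by
    intro p q h1 h2 h3
    unfold Gr
    have h4 := hg' p q h1 h2 h3
    have h5 : dg w g (W0 * p + q) ≤ dg w g' (W0 * p + q) :=
      le_trans (by rw [add_assoc]; exact Nat.le_add_right _ _) h4
    have h6 : (dg w g (W0 * p + q) : ℝ) ≤ dg w g' (W0 * p + q) := by exact_mod_cast h5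
    gcongr
  refine ⟨⟨fun i hi' => ?_, fun i => (hle i).trans_lt (hgh.lt i)⟩, ?_, hC', hr', ?_, hvf⟩
  · have := hle i
    rw [hgh.zero i hi'] at this
    omega
  · exact Bk_Rf hc hp.hw (by have := hp.hb; omega) hp.hD hp.hD2 hp.hD3 hgh he1b he2b hp.hB
      (by have := hp.hwR; omega)
  · have e0 : ((zn + n : ℕ) : ℝ) / 2 ^ 40 = (zn : ℝ) / 2 ^ 40 + (n : ℝ) / 2 ^ 40 := by
      push_cast; ring
    rw [e0]
    refine trap_step' (by positivity) (by positivity) hp.hD2 (by positivity)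
      (div_le_div_of_nonneg_right (by exact_mod_cast hCC) hS.le) (by positivity)
      (div_le_div_of_nonneg_right (by exact_mod_cast hrr) hS.le)
      (fun p q => by unfold Gr; positivity) hi.ps hgg hi.vf hvf ?_ ?_ ?_ ?_
    · intro p q h1 h2 h3
      have h4 := hg' p q h1 h2 h3
      set X0 := dg w R0 (W0 * p + q)
      set X1 := dg w (Rf w W0 s gh e1 e2 BM RM CM AM E1 E2) (W0 * p + q)
      set a := dg w g (W0 * p + q) with ha
      set a' := dg w g' (W0 * p + q) with ha'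
      have h5 : n * (X0 + X1) < (n * (X0 + X1) / 2 ^ (s + 41) + 1) * 2 ^ (s + 41) := by
        have := Nat.lt_div_mul_add (a := n * (X0 + X1)) (b := 2 ^ (s + 41)) (by positivity)
        rw [add_mul, one_mul]; exact this
      have h6 : a * 2 ^ (s + 41) + n * (X0 + X1) ≤ a' * 2 ^ (s + 41) := by
        calc a * 2 ^ (s + 41) + n * (X0 + X1)
            ≤ a * 2 ^ (s + 41) + (n * (X0 + X1) / 2 ^ (s + 41) + 1) * 2 ^ (s + 41) := by omega
          _ = (a + n * (X0 + X1) / 2 ^ (s + 41) + 1) * 2 ^ (s + 41) := by ring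
          _ ≤ a' * 2 ^ (s + 41) := Nat.mul_le_mul_right _ h4
      have h7 : (a : ℝ) * 2 ^ (s + 41) + n * (X0 + X1) ≤ a' * 2 ^ (s + 41) := by
        exact_mod_cast h6
      unfold Gr
      rw [← ha, ← ha']
      have e5 : (a : ℝ) / 2 ^ s + (n : ℝ) / 2 ^ 40 / 2 * ((X0 : ℝ) / 2 ^ (2 * s) +
          (X1 : ℝ) / 2 ^ (2 * s)) = ((a : ℝ) * 2 ^ (s + 41) + n * (X0 + X1)) /
            (2 ^ s * 2 ^ (s + 41)) := by
        have : (2 : ℝ) ^ (2 * s) = 2 ^ s * 2 ^ s := by rw [← pow_add]; ring_nf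
        rw [this, pow_add]
        field_simp
      rw [e5, div_le_div_iff₀ (by positivity) hS]
      calc ((a : ℝ) * 2 ^ (s + 41) + n * (X0 + X1)) * 2 ^ s
          ≤ (a' * 2 ^ (s + 41)) * 2 ^ s := mul_le_mul_of_nonneg_right h7 hS.le
        _ = a' * (2 ^ s * 2 ^ (s + 41)) := by ring
    · intro p q h1 h2 h3
      have h4 := hdom p q h1 h2 h3
      unfold Gr
      rw [div_pow, ← pow_mul, div_mul_div_comm, div_le_div_iff₀ hS (by positivity)]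
      have h5 : (dg w g' (W0 * p + q) : ℝ) * 2 ^ (s * (p + q - 2)) ≤
          C * (r : ℝ) ^ (p + q - 2) := by exact_mod_cast h4
      calc (dg w g' (W0 * p + q) : ℝ) * (2 ^ s * 2 ^ (s * (p + q - 2)))
          = (dg w g' (W0 * p + q) : ℝ) * 2 ^ (s * (p + q - 2)) * 2 ^ s := by ring
        _ ≤ _ := mul_le_mul_of_nonneg_right h5 hS.le
    · have h5 : (n : ℝ) * C' * ((r + 2 ^ s) * (r + 2 ^ s)) * r' ≤
          2 ^ 40 * 2 ^ s * (r * r * (r' - r)) := by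
        have := (Nat.cast_le (α := ℝ)).2 t1
        push_cast [Nat.cast_sub hrr] at this
        rw [show (1099511627776 : ℝ) = 2 ^ 40 by norm_num] at this
        exact this
      have e5 : (n : ℝ) / 2 ^ 40 * ((C' : ℝ) / 2 ^ s * (1 + 1 / ((r : ℝ) / 2 ^ s)) ^ 2) =
          (n : ℝ) * C' * ((r + 2 ^ s) * (r + 2 ^ s)) / (2 ^ 40 * 2 ^ s * (r * r)) := by
        field_simp
      have e6 : ((r' : ℝ) / 2 ^ s - (r : ℝ) / 2 ^ s) / ((r' : ℝ) / 2 ^ s) = (r' - r) / r' := by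
        field_simp
      rw [e5, e6, div_le_div_iff₀ (by positivity) hrR']
      calc _ ≤ _ := h5
        _ = _ := by ring
    · have h11 : (dg w g' (W0 + 1) : ℝ) ≤ dg w gh (W0 + 1) := by exact_mod_cast hle _
      have h5 : (n : ℝ) * (r' * C' * (r * r * (r' * r' + 2 ^ s * (4 * r' + 6 * 2 ^ s +
          dg w gh (W0 + 1))) + 4 * r * (2 ^ s * (2 ^ s * 2 ^ s))) +
          r' * C' * (D - 1 : ℕ) * (C' * 2 ^ s * ((r + 2 ^ s) * (r + 2 ^ s)))) ≤
          2 ^ 40 * (r * r) * (2 ^ s * 2 ^ s) * ((C' - C) * r' + (D - 1 : ℕ) * ((r' - r) * C')) := by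
        have := (Nat.cast_le (α := ℝ)).2 t2
        push_cast [Nat.cast_sub hrr, Nat.cast_sub hCC] at this
        rw [show (1099511627776 : ℝ) = 2 ^ 40 by norm_num] at this
        exact this
      have e8 : Gr w W0 s g' 1 1 = (dg w g' (W0 + 1) : ℝ) / 2 ^ s := by
        unfold Gr; rw [mul_one]
      rw [e8]
      set x := (dg w g' (W0 + 1) : ℝ)
      set y := (dg w gh (W0 + 1) : ℝ)
      set d := ((D - 1 : ℕ) : ℝ)
      have e5 : (n : ℝ) / 2 ^ 40 * (((r' : ℝ) / 2 ^ s) ^ 2 + 4 * ((r' : ℝ) / 2 ^ s) + 6 +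
          4 / ((r : ℝ) / 2 ^ s) + x / 2 ^ s) + d * ((n : ℝ) / 2 ^ 40 *
            ((C' : ℝ) / 2 ^ s * (1 + 1 / ((r : ℝ) / 2 ^ s)) ^ 2)) =
          (n : ℝ) * (r' * C' * (r * r * (r' * r' + 2 ^ s * (4 * r' + 6 * 2 ^ s + x)) +
            4 * r * (2 ^ s * (2 ^ s * 2 ^ s))) +
          r' * C' * d * (C' * 2 ^ s * ((r + 2 ^ s) * (r + 2 ^ s)))) /
          (2 ^ 40 * (r * r) * (2 ^ s * 2 ^ s) * (r' * C')) := by
        field_simp
        ring
      have e6 : ((C' : ℝ) / 2 ^ s - (C : ℝ) / 2 ^ s) / ((C' : ℝ) / 2 ^ s) +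
          d * (((r' : ℝ) / 2 ^ s - (r : ℝ) / 2 ^ s) / ((r' : ℝ) / 2 ^ s)) =
          2 ^ 40 * (r * r) * (2 ^ s * 2 ^ s) * ((C' - C) * r' + d * ((r' - r) * C')) /
          (2 ^ 40 * (r * r) * (2 ^ s * 2 ^ s) * (r' * C')) := by
        field_simp
      rw [e5, e6]
      refine div_le_div_of_nonneg_right (le_trans ?_ h5) (by positivity)
      gcongr

end

end Pool.Agent.H97.SS
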