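import Pool.Agent.H97.SS.Masks

/-!
Soundness of the upper run.
-/

namespace Pool.Agent.H97.SS

open Finset

section

variable {w W0 D s b wR BM RM CM AM E1 E2 ONE Z BS BP B60 BQ BB : ℕ}

theorem usteps_sound (hc : Cst w W0 D BM RM CM AM E1 E2) (hm : Msk w W0 D s b ONE Z BS BQ BB)
    (hp : Par w W0 D s b wR)
    {dn ds K A0 A1 A2 : ℕ} {k : ℕ → ℕ → ℕ → ℕ → ℕ → ℕ → ℕ → ℕ → Bool} (cnt : ℕ)
    {n z g R0 Rp Rpp C r dr : ℕ}
    (hi : UInv w W0 D s b wR z g R0 C r)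
    (h : usteps w D s (2 ^ s) (2 ^ 40) (2 ^ (2 * s) * 2 ^ (w * (2 * W0 + 2))) (2 ^ s * Kn w W0)
      (K1n w) (K2n w W0) (K3n w W0) (w * (W0 + 1)) BM RM CM AM E1 E2 ONE Z BS BP B60 BQ BB
      (2 ^ b - 1) (2 ^ w - 1) (2 ^ w - 1) dn ds K A0 A1 A2 k cnt n z g R0 Rp Rpp C r dr = true) :
    ∃ z' g' R0' Rp' Rpp' C' r' dr', k z' g' R0' Rp' Rpp' C' r' dr' = true ∧
      UInv w W0 D s b wR z' g' R0' C' r' := by
  induction cnt generalizing n z g R0 Rp Rpp C r dr with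
  | zero => exact ⟨z, g, R0, Rp, Rpp, C, r, dr, h, hi⟩
  | succ cnt ih =>
    obtain ⟨g', R1, C', r', dr', h1, hi'⟩ := ustep_sound hc hm hp hi h
    obtain ⟨n', -, h2⟩ := force_elim h1
    obtain ⟨z', hz', h3⟩ := force_elim h2
    have hz'' : z' = z + n := hz'
    rw [← hz''] at hi'
    exact ih hi' h3

theorem uall_sound (hc : Cst w W0 D BM RM CM AM E1 E2) (hm : Msk w W0 D s b ONE Z BS BQ BB)
    (hp : Par w W0 D s b wR)
    {k : ℕ → ℕ → ℕ → ℕ → ℕ → ℕ → ℕ → ℕ → Bool} (l : Sched)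
    {z g R0 Rp Rpp C r dr : ℕ}
    (hi : UInv w W0 D s b wR z g R0 C r)
    (h : uall w D s (2 ^ s) (2 ^ 40) (2 ^ (2 * s) * 2 ^ (w * (2 * W0 + 2))) (2 ^ s * Kn w W0)
      (K1n w) (K2n w W0) (K3n w W0) (w * (W0 + 1)) BM RM CM AM E1 E2 ONE Z BS BP B60 BQ BB
      (2 ^ b - 1) (2 ^ w - 1) (2 ^ w - 1) k l z g R0 Rp Rpp C r dr = true) :
    ∃ z' g' R0' Rp' Rpp' C' r' dr', k z' g' R0' Rp' Rpp' C' r' dr' = true ∧
      UInv w W0 D s b wR z' g' R0' C' r' := by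
  induction l generalizing z g R0 Rp Rpp C r dr with
  | nil => exact ⟨z, g, R0, Rp, Rpp, C, r, dr, h, hi⟩
  | cons cnt n dn ds K A0 A1 A2 tl ih =>
    obtain ⟨z', g', R0', Rp', Rpp', C', r', dr', h1, hi'⟩ := usteps_sound hc hm hp cnt hi h
    exact ih hi' h1

end

/-- A segment of the upper run: masks, steps, comparison of the final state. -/
noncomputable def useg (w W0 D s b : ℕ) (l : Sched) (z g0 R00 Rp0 Rpp0 C r dr : ℕ)
    (z' g' R0' Rp' Rpp' C' r' dr' : ℕ) : Bool :=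
  force g0 fun g => force R00 fun R0 => force Rp0 fun Rp => force Rpp0 fun Rpp =>
  force (Nat.pred (Nat.pow 2 w)) fun dm =>
  force (Nat.pred (Nat.pow 2 b)) fun b2 =>
  force (Nat.pow 2 s) fun S =>
  force (Nat.pow 2 40) fun M =>
  force (Nat.mul (Nat.pow 2 (Nat.mul 2 s)) (Nat.pow 2 (Nat.mul w (Nat.add (Nat.mul 2 W0) 2)))) fun S2 =>
  force (Nat.mul (Nat.pow 2 s) (Kn w W0)) fun SK =>
  force (K1n w) fun K1 =>
  force (K2n w W0) fun K2 =>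
  force (K3n w W0) fun K3 =>
  force (Nat.mul w (Nat.succ W0)) fun sw =>
  force (mBlk w W0 D dm) fun BM =>
  force (mRow w W0 D dm) fun RM =>
  force (mCol w W0 D dm) fun CM =>
  force (mCor w W0 D dm) fun AM =>
  force (mAnt w W0 D (Nat.add D 1)) fun E1 =>
  force (mAnt w W0 D (Nat.add D 2)) fun E2 =>
  force (mBlk w W0 D 1) fun ONE =>
  force (mZ w W0 D) fun Z =>
  force (mBlk w W0 D (Nat.pred (Nat.pow 2 (Nat.sub w (Nat.add s 41))))) fun BS =>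
  force (mBlk w W0 D (Nat.pred (Nat.pow 2 (Nat.sub w (Nat.add s 47))))) fun BP =>
  force (mBlk w W0 D (Nat.pred (Nat.pow 2 (Nat.sub w 60)))) fun B60 =>
  force (mBlk w W0 D (Nat.pred (Nat.pow 2 (Nat.pred w)))) fun BQ =>
  force (mBlk w W0 D (Nat.pred (Nat.pow 2 b))) fun BB =>
  uall w D s S M S2 SK K1 K2 K3 sw BM RM CM AM E1 E2 ONE Z BS BP B60 BQ BB b2 dm dm
    (fun z1 g1 R01 Rp1 Rpp1 C1 r1 dr1 =>
      chk (Nat.beq z1 z') <| chk (Nat.beq g1 g') <| chk (Nat.beq R01 R0') <|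
      chk (Nat.beq Rp1 Rp') <| chk (Nat.beq Rpp1 Rpp') <| chk (Nat.beq C1 C') <|
      chk (Nat.beq r1 r') (Nat.beq dr1 dr')) l z g R0 Rp Rpp C r dr

theorem useg_sound {w W0 D s b wR : ℕ} (hp : Par w W0 D s b wR) {l : Sched}
    {z g R0 Rp Rpp C r dr z' g' R0' Rp' Rpp' C' r' dr' : ℕ}
    (hi : UInv w W0 D s b wR z g R0 C r)
    (h : useg w W0 D s b l z g R0 Rp Rpp C r dr z' g' R0' Rp' Rpp' C' r' dr' = true) :
    UInv w W0 D s b wR z' g' R0' C' r' := by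
  have hD := hp.hD
  have hb := hp.hb
  unfold useg at h
  obtain ⟨g1, hg1, h⟩ := force_elim h
  obtain ⟨R01, hR01, h⟩ := force_elim h
  obtain ⟨Rp1, -, h⟩ := force_elim h
  obtain ⟨Rpp1, -, h⟩ := force_elim h
  rw [← hg1, ← hR01] at hi
  obtain ⟨dm, hdm, h⟩ := force_elim h
  obtain ⟨b2, hb2, h⟩ := force_elim h
  obtain ⟨S, hS, h⟩ := force_elim h
  obtain ⟨M, hM, h⟩ := force_elim h
  obtain ⟨S2, hS2, h⟩ := force_elim h
  obtain ⟨SK, hSK, h⟩ := force_elim h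
  obtain ⟨K1, hK1, h⟩ := force_elim h
  obtain ⟨K2, hK2, h⟩ := force_elim h
  obtain ⟨K3, hK3, h⟩ := force_elim h
  obtain ⟨sw, hsw, h⟩ := force_elim h
  obtain ⟨BM, hBM, h⟩ := force_elim h
  obtain ⟨RM, hRM, h⟩ := force_elim h
  obtain ⟨CM, hCM, h⟩ := force_elim h
  obtain ⟨AM, hAM, h⟩ := force_elim h
  obtain ⟨E1, hE1, h⟩ := force_elim h
  obtain ⟨E2, hE2, h⟩ := force_elim h
  obtain ⟨ONE, hONE, h⟩ := force_elim h
  obtain ⟨Z, hZ, h⟩ := force_elim h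
  obtain ⟨BS, hBS, h⟩ := force_elim h
  obtain ⟨BP, -, h⟩ := force_elim h
  obtain ⟨B60, -, h⟩ := force_elim h
  obtain ⟨BQ, hBQ, h⟩ := force_elim h
  obtain ⟨BB, hBB, h⟩ := force_elim h
  have hdm' : dm = 2 ^ w - 1 := hdm
  have hc : Cst w W0 D BM RM CM AM E1 E2 := by
    rw [hBM, hRM, hCM, hAM, hE1, hE2, hdm']
    exact cst_spec hp.hw (by omega)
  have hm : Msk w W0 D s b ONE Z BS BQ BB := by
    rw [hONE, hZ, hBS, hBQ, hBB]
    exact msk_spec hp.hw (by omega)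
  have e1 : b2 = 2 ^ b - 1 := hb2
  have e2 : S = 2 ^ s := hS
  have e3 : M = 2 ^ 40 := hM
  have e4 : S2 = 2 ^ (2 * s) * 2 ^ (w * (2 * W0 + 2)) := hS2
  have e5 : SK = 2 ^ s * Kn w W0 := hSK
  have e6 : sw = w * (W0 + 1) := hsw
  rw [hdm', e1, e2, e3, e4, e5, hK1, hK2, hK3, e6] at h
  obtain ⟨z1, g1, R01, Rp1, Rpp1, C1, r1, dr1, h1, hi'⟩ := uall_sound hc hm hp l hi h
  obtain ⟨q1, h1⟩ := chk_elim h1
  obtain ⟨q2, h1⟩ := chk_elim h1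
  obtain ⟨q3, h1⟩ := chk_elim h1
  obtain ⟨-, h1⟩ := chk_elim h1
  obtain ⟨-, h1⟩ := chk_elim h1
  obtain ⟨q6, h1⟩ := chk_elim h1
  obtain ⟨q7, -⟩ := chk_elim h1
  rw [← Nat.eq_of_beq_eq_true q1, ← Nat.eq_of_beq_eq_true q2, ← Nat.eq_of_beq_eq_true q3,
    ← Nat.eq_of_beq_eq_true q6, ← Nat.eq_of_beq_eq_true q7]
  exact hi'

/-- The initial state of the upper run. -/
theorem uinv_zero {w W0 D s b wR C r e1 e2 : ℕ} (hp : Par w W0 D s b wR) (hC : 0 < C) (hr : 0 < r)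
    (he1 : C * r ^ (D - 1) ≤ e1 * 2 ^ (s * (D - 1))) (he2 : C * r ^ D ≤ e2 * 2 ^ (s * D))
    (he1b : e1 < 2 ^ b) (he2b : e2 < 2 ^ b) :
    UInv w W0 D s b wR 0 0 (Rf w W0 s 0 e1 e2 (mBlk w W0 D (2 ^ w - 1)) (mRow w W0 D (2 ^ w - 1))
      (mCol w W0 D (2 ^ w - 1)) (mCor w W0 D (2 ^ w - 1)) (mAnt w W0 D (D + 1))
      (mAnt w W0 D (D + 2))) C r := by
  have hD := hp.hD
  have hc := cst_spec (w := w) (W0 := W0) (D := D) hp.hw (by omega)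
  have h0 : Bk w W0 D b 0 := ⟨fun i _ => dg_of_zero w i, fun i => by rw [dg_of_zero]; positivity⟩
  refine ⟨h0, Bk_Rf hc hp.hw (by have := hp.hb; omega) hp.hD hp.hD2 hp.hD3 h0 he1b he2b hp.hB
      (by have := hp.hwR; omega), hC, hr, ?_, ?_⟩
  · intro N p q
    have h1 : PS N ((0 : ℕ) / 2 ^ 40 : ℝ) p q = 0 := by
      unfold PS
      refine Finset.sum_eq_zero (fun n _ => ?_)
      rcases n with _ | n
      · rw [av_zero _ _ _ (Or.inl rfl), zero_mul]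
      · simp
    rw [h1]
    refine full_nonneg (by positivity) (by positivity) (fun p q => ?_) p q
    unfold Gr; positivity
  · intro p q h1 h2 h3
    exact vf_le hc hp h0 (fun i => le_rfl) hC hr he1 he2 he1b he2b h1 h2 h3

end Pool.Agent.H97.SS
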