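import Pool.Agent.H97.SS.Series

/-!
Upper bounds for the partial sums of the series `∑ av n p q z^n` by a monotone scheme.
-/

namespace Pool.Agent.H97.SS

open Finset

/-- Partial sums. -/
noncomputable def PS (N : ℕ) (z : ℝ) (p q : ℕ) : ℝ := ∑ n ∈ range (N + 1), av n p q * z ^ n

/-- Derivatives of partial sums. -/
noncomputable def PD (N : ℕ) (z : ℝ) (p q : ℕ) : ℝ :=
  ∑ n ∈ range (N + 1), ((n : ℝ) + 1) * av (n + 1) p q * z ^ n

theorem PS_nonneg (N : ℕ) {z : ℝ} (hz : 0 ≤ z) (p q : ℕ) : 0 ≤ PS N z p q :=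
  Finset.sum_nonneg (fun n _ => mul_nonneg (av_nonneg n p q) (pow_nonneg hz n))

theorem PS_hasDerivAt (N p q : ℕ) (z : ℝ) :
    HasDerivAt (fun t => PS (N + 1) t p q) (PD N z p q) z := by
  have h1 : (fun t => PS (N + 1) t p q) =
      fun t => ∑ n ∈ range (N + 2), av n p q * t ^ n := rfl
  have h2 : PD N z p q = ∑ n ∈ range (N + 2), av n p q * ((n : ℝ) * z ^ (n - 1)) := by
    rw [Finset.sum_range_succ']
    simp only [Nat.cast_zero, zero_mul, mul_zero, add_zero, Nat.add_sub_cancel]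
    unfold PD
    refine Finset.sum_congr rfl (fun n _ => ?_)
    push_cast
    ring
  rw [h1, h2]
  refine HasDerivAt.fun_sum (fun n _ => ?_)
  exact (hasDerivAt_pow n z).const_mul _

/-- Truncated Cauchy product is at most the product. -/
theorem cauchy_le (N : ℕ) {z : ℝ} (hz : 0 ≤ z) (x y : ℕ → ℝ) (hx : ∀ n, 0 ≤ x n)
    (hy : ∀ n, 0 ≤ y n) :
    ∑ n ∈ range (N + 1), (∑ a ∈ antidiagonal n, x a.1 * y a.2) * z ^ n ≤
      (∑ n ∈ range (N + 1), x n * z ^ n) * (∑ n ∈ range (N + 1), y n * z ^ n) := by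
  rw [Finset.sum_mul_sum, ← Finset.sum_product']
  have h1 : ∀ n ∈ range (N + 1), (∑ a ∈ antidiagonal n, x a.1 * y a.2) * z ^ n =
      ∑ a ∈ antidiagonal n, x a.1 * z ^ a.1 * (y a.2 * z ^ a.2) := by
    intro n _
    rw [Finset.sum_mul]
    refine Finset.sum_congr rfl (fun a ha => ?_)
    have ha' := HasAntidiagonal.mem_antidiagonal.1 ha
    rw [← ha', pow_add]
    ring
  rw [Finset.sum_congr rfl h1, ← Finset.sum_biUnion]
  · refine Finset.sum_le_sum_of_subset_of_nonneg ?_ ?_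
    · intro a ha
      rw [mem_biUnion] at ha
      obtain ⟨n, hn, ha⟩ := ha
      have ha' := HasAntidiagonal.mem_antidiagonal.1 ha
      have hn' := mem_range.1 hn
      rw [mem_product, mem_range, mem_range]
      omega
    · intro a _ _
      exact mul_nonneg (mul_nonneg (hx _) (pow_nonneg hz _)) (mul_nonneg (hy _) (pow_nonneg hz _))
  · intro i _ j _ hij
    rw [Function.onFun, Finset.disjoint_left]
    intro a ha hb
    have ha' := HasAntidiagonal.mem_antidiagonal.1 ha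
    have hb' := HasAntidiagonal.mem_antidiagonal.1 hb
    exact hij (ha'.symm.trans hb')

theorem tv_sum (N : ℕ) (z : ℝ) (j : ℕ) :
    tv (PS N z) j = ∑ n ∈ range (N + 1), tv (av n) j * z ^ n := by
  unfold tv PS
  rw [Finset.mul_sum, ← Finset.sum_add_distrib, ← Finset.sum_add_distrib]
  exact Finset.sum_congr rfl (fun n _ => by ring)

theorem tu_sum (N : ℕ) (z : ℝ) (j : ℕ) :
    tu (PS N z) j = ∑ n ∈ range (N + 1), tu (av n) j * z ^ n := by
  unfold tu PS
  rw [Finset.mul_sum, ← Finset.sum_add_distrib, ← Finset.sum_add_distrib]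
  exact Finset.sum_congr rfl (fun n _ => by ring)

theorem lin_sum (N : ℕ) (z : ℝ) (p q : ℕ) :
    lin (PS N z) p q = ∑ n ∈ range (N + 1), lin (av n) p q * z ^ n := by
  unfold lin PS
  simp only [Finset.mul_sum, ← Finset.sum_add_distrib]
  exact Finset.sum_congr rfl (fun n _ => by ring)

theorem tv_nonneg {G : ℕ → ℕ → ℝ} (hG : ∀ p q, 0 ≤ G p q) (j : ℕ) : 0 ≤ tv G j := by
  unfold tv
  exact add_nonneg (add_nonneg (hG _ _) (mul_nonneg (by norm_num) (hG _ _))) (hG _ _)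

theorem tu_nonneg {G : ℕ → ℕ → ℝ} (hG : ∀ p q, 0 ≤ G p q) (j : ℕ) : 0 ≤ tu G j := by
  unfold tu
  exact add_nonneg (add_nonneg (hG _ _) (mul_nonneg (by norm_num) (hG _ _))) (hG _ _)

theorem tv_mono {G G' : ℕ → ℕ → ℝ} (h : ∀ p q, G p q ≤ G' p q) (j : ℕ) : tv G j ≤ tv G' j := by
  unfold tv
  linarith [h 1 (j - 1), h 1 j, h 1 (j + 1)]

theorem tu_mono {G G' : ℕ → ℕ → ℝ} (h : ∀ p q, G p q ≤ G' p q) (j : ℕ) : tu G j ≤ tu G' j := by
  unfold tu
  linarith [h (j - 1) 1, h j 1, h (j + 1) 1]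

theorem lin_mono {G G' : ℕ → ℕ → ℝ} (h : ∀ p q, G p q ≤ G' p q) (p q : ℕ) :
    lin G p q ≤ lin G' p q := by
  unfold lin
  linarith [h p q, h (p + 1) q, h p (q + 1), h (p - 1) q, h p (q - 1), h (p + 1) (q + 1),
    h (p + 1) (q - 1), h (p - 1) (q + 1)]

theorem lin_nonneg {G : ℕ → ℕ → ℝ} (h : ∀ p q, 0 ≤ G p q) (p q : ℕ) : 0 ≤ lin G p q := by
  unfold lin
  linarith [h p q, h (p + 1) q, h p (q + 1), h (p - 1) q, h p (q - 1), h (p + 1) (q + 1),
    h (p + 1) (q - 1), h (p - 1) (q + 1)]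

theorem bil_mono {G G' H H' : ℕ → ℕ → ℝ} (hG : ∀ p q, 0 ≤ G p q) (hH : ∀ p q, 0 ≤ H p q)
    (h : ∀ p q, G p q ≤ G' p q) (h' : ∀ p q, H p q ≤ H' p q) (p q : ℕ) :
    bil G H p q ≤ bil G' H' p q := by
  unfold bil
  have hG' : ∀ p q, 0 ≤ G' p q := fun p q => (hG p q).trans (h p q)
  refine add_le_add (add_le_add ?_ ?_) ?_
  · exact mul_le_mul (h _ _) (h' _ _) (hH _ _) (hG' _ _)
  · exact Finset.sum_le_sum (fun j _ =>
      mul_le_mul (tv_mono h _) (h' _ _) (hH _ _) (tv_nonneg hG' _))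
  · exact Finset.sum_le_sum (fun j _ =>
      mul_le_mul (tu_mono h _) (h' _ _) (hH _ _) (tu_nonneg hG' _))

theorem bil_nonneg {G H : ℕ → ℕ → ℝ} (hG : ∀ p q, 0 ≤ G p q) (hH : ∀ p q, 0 ≤ H p q) (p q : ℕ) :
    0 ≤ bil G H p q := by
  unfold bil
  refine add_nonneg (add_nonneg (mul_nonneg (hG _ _) (hH _ _)) ?_) ?_
  · exact Finset.sum_nonneg (fun j _ => mul_nonneg (tv_nonneg hG _) (hH _ _))
  · exact Finset.sum_nonneg (fun j _ => mul_nonneg (tu_nonneg hG _) (hH _ _))

theorem VF_mono {G G' : ℕ → ℕ → ℝ} (hG : ∀ p q, 0 ≤ G p q) (h : ∀ p q, G p q ≤ G' p q)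
    (p q : ℕ) : VF G p q ≤ VF G' p q := by
  unfold VF
  have h1 := lin_mono h p q
  have h2 := bil_mono hG hG h h p q
  linarith

theorem VF_nonneg {G : ℕ → ℕ → ℝ} (hG : ∀ p q, 0 ≤ G p q) (p q : ℕ) : 0 ≤ VF G p q := by
  unfold VF
  have h1 := lin_nonneg hG p q
  have h2 := bil_nonneg hG hG p q
  split_ifs <;> linarith

theorem PD_le (N : ℕ) {z : ℝ} (hz : 0 ≤ z) (p q : ℕ) :
    PD N z (p + 1) (q + 1) ≤ VF (PS N z) (p + 1) (q + 1) := by
  unfold PD
  have h1 : ∀ n ∈ range (N + 1), ((n : ℝ) + 1) * av (n + 1) (p + 1) (q + 1) * z ^ n =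
      (if n = 0 ∧ p = 0 ∧ q = 0 then 1 else 0) * z ^ n + lin (av n) (p + 1) (q + 1) * z ^ n +
      (∑ a ∈ antidiagonal n, bil (av a.1) (av a.2) (p + 1) (q + 1)) * z ^ n := by
    intro n _
    rw [av_rec]; ring
  rw [Finset.sum_congr rfl h1, Finset.sum_add_distrib, Finset.sum_add_distrib, ← lin_sum]
  unfold VF
  refine add_le_add (add_le_add ?_ le_rfl) ?_
  · rw [Finset.sum_range_succ']
    have h2 : ∑ k ∈ range N, (if k + 1 = 0 ∧ p = 0 ∧ q = 0 then (1 : ℝ) else 0) * z ^ (k + 1) = 0 := by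
      refine Finset.sum_eq_zero (fun k _ => ?_)
      rw [if_neg (by omega), zero_mul]
    rw [h2, zero_add, pow_zero, mul_one]
    have h3 : (0 = 0 ∧ p = 0 ∧ q = 0) ↔ (p + 1 = 1 ∧ q + 1 = 1) := by omega
    exact le_of_eq (if_congr h3 rfl rfl)
  · have key : ∀ x y : ℕ → ℝ, (∀ n, 0 ≤ x n) → (∀ n, 0 ≤ y n) →
        ∑ n ∈ range (N + 1), (∑ a ∈ antidiagonal n, x a.1 * y a.2) * z ^ n ≤
        (∑ n ∈ range (N + 1), x n * z ^ n) * (∑ n ∈ range (N + 1), y n * z ^ n) :=
      fun x y hx hy => cauchy_le N hz x y hx hy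
    have h4 : ∀ n ∈ range (N + 1),
        (∑ a ∈ antidiagonal n, bil (av a.1) (av a.2) (p + 1) (q + 1)) * z ^ n =
        (∑ a ∈ antidiagonal n, av a.1 1 1 * av a.2 (p + 1) (q + 1)) * z ^ n +
        ∑ j ∈ range q, (∑ a ∈ antidiagonal n, tv (av a.1) (j + 1) * av a.2 (p + 1) (q - j)) * z ^ n +
        ∑ j ∈ range p,
          (∑ a ∈ antidiagonal n, tu (av a.1) (j + 1) * av a.2 (p - j) (q + 1)) * z ^ n := by
      intro n _
      unfold bil
      simp only [Nat.add_sub_cancel]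
      rw [Finset.sum_add_distrib, Finset.sum_add_distrib, add_mul, add_mul]
      congr 1
      · congr 1
        rw [Finset.sum_comm, Finset.sum_mul]
      · rw [Finset.sum_comm, Finset.sum_mul]
    rw [Finset.sum_congr rfl h4, Finset.sum_add_distrib, Finset.sum_add_distrib]
    unfold bil
    simp only [Nat.add_sub_cancel]
    refine add_le_add (add_le_add ?_ ?_) ?_
    · exact key (fun n => av n 1 1) (fun n => av n (p + 1) (q + 1)) (fun n => av_nonneg _ _ _)
        (fun n => av_nonneg _ _ _)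
    · rw [Finset.sum_comm]
      refine Finset.sum_le_sum (fun j _ => ?_)
      rw [tv_sum]
      exact key (fun n => tv (av n) (j + 1)) (fun n => av n (p + 1) (q - j))
        (fun n => tv_nonneg (av_nonneg n) _) (fun n => av_nonneg _ _ _)
    · rw [Finset.sum_comm]
      refine Finset.sum_le_sum (fun j _ => ?_)
      rw [tu_sum]
      exact key (fun n => tu (av n) (j + 1)) (fun n => av n (p - j) (q + 1))
        (fun n => tu_nonneg (av_nonneg n) _) (fun n => av_nonneg _ _ _)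

/-- General comparison step. -/
theorem path_step {z h : ℝ} (hz : 0 ≤ z) (hh : 0 ≤ h) (U U' : ℝ → ℕ → ℕ → ℝ)
    (h0 : ∀ N p q, PS N z (p + 1) (q + 1) ≤ U 0 (p + 1) (q + 1))
    (hU : ∀ x ∈ Set.Icc (0 : ℝ) 1, ∀ p q, 0 ≤ U x p q)
    (hd : ∀ x ∈ Set.Icc (0 : ℝ) 1, ∀ p q,
      HasDerivAt (fun t => U t (p + 1) (q + 1)) (U' x (p + 1) (q + 1)) x)
    (hv : ∀ x ∈ Set.Icc (0 : ℝ) 1, ∀ p q,
      h * VF (U x) (p + 1) (q + 1) ≤ U' x (p + 1) (q + 1)) :
    ∀ N, ∀ x ∈ Set.Icc (0 : ℝ) 1, ∀ p q, PS N (z + h * x) p q ≤ U x p q := by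
  have zero : ∀ N, ∀ x ∈ Set.Icc (0 : ℝ) 1, ∀ p q, (p = 0 ∨ q = 0) →
      PS N (z + h * x) p q ≤ U x p q := by
    intro N x hx p q hpq
    have : PS N (z + h * x) p q = 0 := by
      unfold PS
      refine Finset.sum_eq_zero (fun n _ => ?_)
      rw [av_zero _ _ _ (by tauto), zero_mul]
    rw [this]; exact hU x hx p q
  intro N
  induction N with
  | zero =>
    intro x hx p q
    unfold PS
    rw [zero_add, Finset.sum_range_one, av_zero _ _ _ (Or.inl rfl), zero_mul]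
    exact hU x hx p q
  | succ N ih =>
    intro x hx p q
    rcases p with _ | p
    · exact zero _ x hx _ _ (Or.inl rfl)
    rcases q with _ | q
    · exact zero _ x hx _ _ (Or.inr rfl)
    have hder : ∀ y ∈ Set.Icc (0 : ℝ) 1,
        HasDerivAt (fun t => U t (p + 1) (q + 1) - PS (N + 1) (z + h * t) (p + 1) (q + 1))
          (U' y (p + 1) (q + 1) - PD N (z + h * y) (p + 1) (q + 1) * h) y := by
      intro y hy
      refine (hd y hy p q).sub ?_
      have h1 := PS_hasDerivAt N (p + 1) (q + 1) (z + h * y)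
      have h2 : HasDerivAt (fun t : ℝ => z + h * t) h y := by
        have := ((hasDerivAt_id y).const_mul h).const_add z
        simpa using this
      exact h1.comp y h2
    have hmono : MonotoneOn
        (fun t => U t (p + 1) (q + 1) - PS (N + 1) (z + h * t) (p + 1) (q + 1))
        (Set.Icc (0 : ℝ) 1) := by
      refine monotoneOn_of_deriv_nonneg (convex_Icc 0 1) ?_ ?_ ?_
      · intro y hy
        exact (hder y hy).continuousAt.continuousWithinAt
      · intro y hy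
        rw [interior_Icc] at hy
        exact (hder y (Set.Ioo_subset_Icc_self hy)).differentiableAt.differentiableWithinAt
      · intro y hy
        rw [interior_Icc] at hy
        have hy' := Set.Ioo_subset_Icc_self hy
        rw [(hder y hy').deriv]
        have hzy : 0 ≤ z + h * y := add_nonneg hz (mul_nonneg hh hy'.1)
        have e1 := PD_le N hzy p q
        have e2 := VF_mono (G := PS N (z + h * y)) (G' := U y) (PS_nonneg N hzy)
          (fun p q => ih y hy' p q) (p + 1) (q + 1)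
        have e3 := hv y hy' p q
        have e4 : PD N (z + h * y) (p + 1) (q + 1) * h ≤ h * VF (U y) (p + 1) (q + 1) := by
          rw [mul_comm]
          exact mul_le_mul_of_nonneg_left (e1.trans e2) hh
        linarith
    have h1 := hmono (Set.left_mem_Icc.2 zero_le_one) hx hx.1
    simp only [mul_zero, add_zero] at h1
    have h2 := h0 (N + 1) p q
    linarith

end Pool.Agent.H97.SS
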