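import Pool.Agent.H97.SS.Defs

/-!
Words: the fibres of the stack-sorting map and the recursion for the numbers of factorisations.
-/

namespace Pool.Agent.H97.SS

open Finset

theorem maxEntry_split {L R : List ℕ} {m : ℕ} (hL : ∀ x ∈ L, x < m) (hR : ∀ x ∈ R, x < m) :
    maxEntry (L ++ m :: R) = m := by
  apply le_antisymm
  · have h : maxEntry (L ++ m :: R) ∈ L ++ m :: R := maxEntry_mem (by simp)
    rcases List.mem_append.1 h with h | h
    · exact (hL _ h).le
    · rcases List.mem_cons.1 h with h | h
      · exact h.le
      · exact (hR _ h).le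
  · exact le_maxEntry (by simp)

theorem takeWhile_split {L R : List ℕ} {m : ℕ} (hL : ∀ x ∈ L, x < m) :
    (L ++ m :: R).takeWhile (fun x => decide (x ≠ m)) = L := by
  induction L with
  | nil => simp
  | cons a L ih =>
    have h1 : a ≠ m := (hL a (by simp)).ne
    have h2 : decide (a ≠ m) = true := by simp [h1]
    rw [List.cons_append, List.takeWhile_cons, if_pos h2, ih (fun x hx => hL x (by simp [hx]))]

theorem dropWhile_split {L R : List ℕ} {m : ℕ} (hL : ∀ x ∈ L, x < m) :
    (L ++ m :: R).dropWhile (fun x => decide (x ≠ m)) = m :: R := by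
  induction L with
  | nil => simp
  | cons a L ih =>
    have h1 : a ≠ m := (hL a (by simp)).ne
    have h2 : decide (a ≠ m) = true := by simp [h1]
    rw [List.cons_append, List.dropWhile_cons, if_pos h2, ih (fun x hx => hL x (by simp [hx]))]

theorem stackSort_nil : stackSort [] = [] := by
  rw [stackSort]

theorem stackSort_of_ne_nil {w : List ℕ} (hw : w ≠ []) :
    stackSort w = stackSort (w.takeWhile (fun x => decide (x ≠ maxEntry w))) ++
      stackSort ((w.dropWhile (fun x => decide (x ≠ maxEntry w))).tail) ++ [maxEntry w] := by
  cases w with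
  | nil => exact absurd rfl hw
  | cons a w => rw [stackSort]

theorem stackSort_split {L R : List ℕ} {m : ℕ} (hL : ∀ x ∈ L, x < m) (hR : ∀ x ∈ R, x < m) :
    stackSort (L ++ m :: R) = stackSort L ++ stackSort R ++ [m] := by
  rw [stackSort_of_ne_nil (by simp), maxEntry_split hL hR, takeWhile_split hL, dropWhile_split hL]
  rfl

theorem stackSort_perm_aux (n : ℕ) : ∀ w : List ℕ, w.length ≤ n → List.Perm (stackSort w) w := by
  induction n with
  | zero =>
    intro w hw
    have h : w = [] := List.length_eq_zero_iff.1 (by omega)
    subst h
    rw [stackSort_nil]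
  | succ n ih =>
    intro w hw
    by_cases h : w = []
    · subst h; rw [stackSort_nil]
    · rw [stackSort_of_ne_nil h]
      set m := maxEntry w with hm
      have hmem : m ∈ w := maxEntry_mem h
      have h1 := ih (w.takeWhile (fun x => decide (x ≠ m)))
        (by have := takeWhile_length_lt hmem; omega)
      have h2 := ih ((w.dropWhile (fun x => decide (x ≠ m))).tail)
        (by have := dropWhile_tail_length_lt (m := m) h; omega)
      have hd : w.dropWhile (fun x => decide (x ≠ m)) ≠ [] := by
        intro h0
        have h3 := List.takeWhile_append_dropWhile (p := fun x => decide (x ≠ m)) (l := w)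
        rw [h0, List.append_nil] at h3
        have h4 := takeWhile_length_lt hmem
        rw [h3] at h4
        exact lt_irrefl _ h4
      have hhead : (w.dropWhile (fun x => decide (x ≠ m))).head hd = m := by
        have h5 := List.head_dropWhile_not (fun x => decide (x ≠ m)) hd
        simpa using h5
      have h6 : w.dropWhile (fun x => decide (x ≠ m)) =
          m :: (w.dropWhile (fun x => decide (x ≠ m))).tail := by
        conv_lhs => rw [← List.cons_head_tail hd]
        rw [hhead]
      have h7 : w = w.takeWhile (fun x => decide (x ≠ m)) ++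
          m :: (w.dropWhile (fun x => decide (x ≠ m))).tail := by
        conv_lhs => rw [← List.takeWhile_append_dropWhile (p := fun x => decide (x ≠ m)) (l := w)]
        rw [← h6]
      conv_rhs => rw [h7]
      refine (List.Perm.append (List.Perm.append h1 h2) (List.Perm.refl [m])).trans ?_
      rw [List.append_assoc]
      refine List.Perm.append_left _ ?_
      exact List.perm_append_singleton _ _

theorem stackSort_perm (w : List ℕ) : List.Perm (stackSort w) w :=
  stackSort_perm_aux w.length w le_rfl

/-- The finite set of all words sorted to `w`. -/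
def pre (w : List ℕ) : Finset (List ℕ) := w.permutations.toFinset.filter (fun σ => stackSort σ = w)

theorem mem_pre {w σ : List ℕ} : σ ∈ pre w ↔ stackSort σ = w := by
  unfold pre
  rw [mem_filter, List.mem_toFinset, List.mem_permutations]
  constructor
  · exact fun h => h.2
  · intro h
    refine ⟨?_, h⟩
    have := stackSort_perm σ
    rw [h] at this
    exact this.symm

/-- The number of words sorted to `w`. -/
def fib (w : List ℕ) : ℕ := (pre w).card

theorem fib_nil : fib [] = 1 := by
  have : pre [] = {[]} := by
    ext σ
    rw [mem_pre, mem_singleton]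
    constructor
    · intro h
      have := stackSort_perm σ
      rw [h] at this
      exact (List.nil_perm.1 this)
    · intro h; rw [h, stackSort_nil]
  unfold fib
  rw [this, card_singleton]

theorem split_of_perm {w σ : List ℕ} {m : ℕ} (hw : ∀ x ∈ w, x < m)
    (h : List.Perm σ (w ++ [m])) :
    ∃ L R, σ = L ++ m :: R ∧ (∀ x ∈ L, x < m) ∧ (∀ x ∈ R, x < m) := by
  have hm : m ∈ σ := h.mem_iff.2 (by simp)
  obtain ⟨L, R, rfl⟩ := List.append_of_mem hm
  have h2 : List.Perm (m :: (L ++ R)) (m :: w) := by
    refine (List.perm_middle.symm.trans h).trans ?_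
    exact List.perm_append_singleton _ _
  have h3 : List.Perm (L ++ R) w := (List.perm_cons m).1 h2
  refine ⟨L, R, rfl, ?_, ?_⟩
  · intro x hx
    exact hw x (h3.mem_iff.1 (by simp [hx]))
  · intro x hx
    exact hw x (h3.mem_iff.1 (by simp [hx]))

theorem fib_append_max {w : List ℕ} {m : ℕ} (hw : ∀ x ∈ w, x < m) :
    fib (w ++ [m]) = ∑ i ∈ range (w.length + 1), fib (w.take i) * fib (w.drop i) := by
  have key : (pre (w ++ [m])).card =
      ((range (w.length + 1)).sigma (fun i => pre (w.take i) ×ˢ pre (w.drop i))).card := by
    symm
    refine Finset.card_bij (fun a _ => a.2.1 ++ m :: a.2.2) ?_ ?_ ?_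
    · rintro ⟨i, L, R⟩ h
      simp only [mem_sigma, mem_product, mem_pre] at h
      obtain ⟨_, hL, hR⟩ := h
      have h1 : ∀ x ∈ L, x < m := by
        intro x hx
        have : x ∈ w.take i := by
          rw [← hL]; exact (stackSort_perm L).mem_iff.2 hx
        exact hw x (List.mem_of_mem_take this)
      have h2 : ∀ x ∈ R, x < m := by
        intro x hx
        have : x ∈ w.drop i := by
          rw [← hR]; exact (stackSort_perm R).mem_iff.2 hx
        exact hw x (List.mem_of_mem_drop this)
      rw [mem_pre, stackSort_split h1 h2, hL, hR, List.take_append_drop]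
    · rintro ⟨i, L, R⟩ h ⟨i', L', R'⟩ h' heq
      simp only [mem_sigma, mem_product, mem_pre, mem_range] at h h'
      obtain ⟨hi, hL, hR⟩ := h
      obtain ⟨hi', hL', hR'⟩ := h'
      have h1 : m ∉ L := by
        intro hx
        have : m ∈ w.take i := by
          rw [← hL]; exact (stackSort_perm L).mem_iff.2 hx
        exact lt_irrefl _ (hw m (List.mem_of_mem_take this))
      have h1' : m ∉ L' := by
        intro hx
        have : m ∈ w.take i' := by
          rw [← hL']; exact (stackSort_perm L').mem_iff.2 hx
        exact lt_irrefl _ (hw m (List.mem_of_mem_take this))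
      have h2 : m ∉ R := by
        intro hx
        have : m ∈ w.drop i := by
          rw [← hR]; exact (stackSort_perm R).mem_iff.2 hx
        exact lt_irrefl _ (hw m (List.mem_of_mem_drop this))
      simp only at heq
      obtain ⟨h5, _, h6⟩ := (List.append_cons_inj_of_notMem h1 h2).1 heq
      have h7 : i = i' := by
        have h8 : (stackSort L).length = (stackSort L').length := by rw [h5]
        rw [hL, hL', List.length_take, List.length_take] at h8
        omega
      subst h7 h5 h6
      rfl
    · intro σ hσ
      rw [mem_pre] at hσ
      have hp : List.Perm σ (w ++ [m]) := by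
        have := stackSort_perm σ
        rw [hσ] at this
        exact this.symm
      obtain ⟨L, R, rfl, hL, hR⟩ := split_of_perm hw hp
      rw [stackSort_split hL hR] at hσ
      have h1 : stackSort L ++ stackSort R = w := List.append_cancel_right hσ
      refine ⟨⟨L.length, L, R⟩, ?_, rfl⟩
      have hlen : (stackSort L).length = L.length := (stackSort_perm L).length_eq
      simp only [mem_sigma, mem_product, mem_pre, mem_range]
      refine ⟨?_, ?_, ?_⟩
      · rw [← h1, List.length_append, hlen]; omega
      · rw [← h1, ← hlen, List.take_left']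
        rfl
      · rw [← h1, ← hlen, List.drop_left']
        rfl
  unfold fib
  rw [key, card_sigma]
  simp only [card_product]

theorem fib_eq_zero {L R : List ℕ} {m : ℕ} (hL : ∀ x ∈ L, x < m) (hR : ∀ x ∈ R, x < m)
    (hR0 : R ≠ []) : fib (L ++ m :: R) = 0 := by
  unfold fib
  rw [card_eq_zero]
  apply eq_empty_of_forall_notMem
  intro σ hσ
  rw [mem_pre] at hσ
  have hp : List.Perm σ ((L ++ R) ++ [m]) := by
    have := stackSort_perm σ
    rw [hσ] at this
    refine this.symm.trans ?_
    refine List.perm_middle.trans ?_
    exact (List.perm_append_singleton _ _).symm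
  obtain ⟨L', R', rfl, hL', hR'⟩ := split_of_perm (w := L ++ R) (by
    intro x hx
    rcases List.mem_append.1 hx with h | h
    · exact hL x h
    · exact hR x h) hp
  rw [stackSort_split hL' hR'] at hσ
  have h1 : (stackSort L' ++ stackSort R' ++ [m]).getLast? = (L ++ m :: R).getLast? := by rw [hσ]
  rw [List.getLast?_append] at h1
  have h2 : (L ++ m :: R).getLast? = R.getLast? := by
    rw [List.getLast?_append, List.getLast?_cons]
    cases hR2 : R.getLast? with
    | none => exact absurd (List.getLast?_eq_none_iff.1 hR2) hR0
    | some y => simp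
  rw [h2] at h1
  simp only [List.getLast?_singleton, Option.some_or] at h1
  have h3 : m ∈ R := List.mem_of_getLast? h1.symm
  exact lt_irrefl _ (hR m h3)

end Pool.Agent.H97.SS
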